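import Mathlib
import Pool.Agent.MP_2a72d7_pr.Defs
import Pool.Agent.MP_2a72d7_pr.Sm.Base

/-! Definitions for the theorem on general coordinate laws. -/

namespace Pool.Agent.MP_2a72d7_pr.Pos

open MeasureTheory Matrix Pool.Agent.MP_2a72d7_pr.Sm

/-- symmetric with `‖Qv‖² ≤ ⟨v,Qv⟩` for all `v`, i.e. `0 ≤ Q ≤ 1` -/
structure Ctr {ι : Type*} [Fintype ι] (Q : Matrix ι ι ℝ) : Prop where
  symm : ∀ i j, Q i j = Q j i
  le : ∀ v : ι → ℝ, ∑ i, (Q *ᵥ v) i ^ 2 ≤ quad Q v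

/-- normalised trace -/
noncomputable def tau {ι : Type*} [Fintype ι] (Q : Matrix ι ι ℝ) : ℝ :=
  (∑ i, Q i i) / Fintype.card ι

/-- normalised square of the Frobenius norm -/
noncomputable def beta {ι : Type*} [Fintype ι] (Q : Matrix ι ι ℝ) : ℝ :=
  (∑ i, ∑ j, Q i j ^ 2) / Fintype.card ι

/-- the potential -/
noncomputable def Psi (lam gam : ℝ) (n : ℕ) {ι : Type*} [Fintype ι] (Q : Matrix ι ι ℝ) : ℝ :=
  Real.exp (-(lam * n * tau Q) + gam * n * beta Q)

/-- normalised contraction (zero if `x = 0`) -/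
noncomputable def ncon {n : ℕ} {κ : Type*} (Q : Matrix (Fin n × κ) (Fin n × κ) ℝ)
    (x : Fin n → ℝ) : Matrix κ κ ℝ :=
  (∑ i, x i ^ 2)⁻¹ • con Q x

variable {n : ℕ} {κ : Type*} [Fintype κ] [DecidableEq κ]

/-- the block `(i,j)` as a vector of the space of matrices with the normalised Frobenius norm -/
noncomputable def qv (Q : Matrix (Fin n × κ) (Fin n × κ) ℝ) (i j : Fin n) :
    EuclideanSpace ℝ (κ × κ) :=
  WithLp.toLp 2 fun p => Q (i, p.1) (j, p.2) / √(Fintype.card κ : ℝ)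

/-- average of the diagonal blocks -/
noncomputable def qb (Q : Matrix (Fin n × κ) (Fin n × κ) ℝ) : EuclideanSpace ℝ (κ × κ) :=
  (1 / n : ℝ) • ∑ i, qv Q i i

/-- centred blocks -/
noncomputable def cv (Q : Matrix (Fin n × κ) (Fin n × κ) ℝ) (i j : Fin n) :
    EuclideanSpace ℝ (κ × κ) :=
  qv Q i j - if i = j then qb Q else 0

/-- the identity matrix as a unit vector -/
noncomputable def ov (κ : Type*) [Fintype κ] [DecidableEq κ] : EuclideanSpace ℝ (κ × κ) :=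
  WithLp.toLp 2 fun p => if p.1 = p.2 then 1 / √(Fintype.card κ : ℝ) else 0

/-- the matrix of the linear part -/
noncomputable def Bm (lam gam : ℝ) (Q : Matrix (Fin n × κ) (Fin n × κ) ℝ) (i j : Fin n) : ℝ :=
  inner ℝ (-(lam • ov κ) + (2 * gam) • qb Q) (cv Q i j)

/-- the vector valued quadratic form of the centred blocks -/
noncomputable def E0 (Q : Matrix (Fin n × κ) (Fin n × κ) ℝ) (x : Fin n → ℝ) :
    EuclideanSpace ℝ (κ × κ) :=
  (1 / n : ℝ) • ∑ i, ∑ j, (x i * x j) • cv Q i j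

end Pool.Agent.MP_2a72d7_pr.Pos
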