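import Mathlib
import Pool.Agent.MP_2a72d7_pr.Defs
import Pool.Agent.MP_2a72d7_pr.Sm.Base
import Pool.Agent.MP_2a72d7_pr.Pos.Base

namespace Pool.Agent.MP_2a72d7_pr.Pos

open MeasureTheory Matrix Pool.Agent.MP_2a72d7_pr.Sm

theorem ctrb_mul {ι : Type*} [Fintype ι] [DecidableEq ι] (Q : Matrix ι ι ℝ) (i j : ι) :
    (Q *ᵥ Pi.single j 1) i = Q i j := by
  rw [mulVec_single_one]
  rfl

theorem ctrb_col {ι : Type*} [Fintype ι] [DecidableEq ι] (Q : Matrix ι ι ℝ) (hQ : Ctr Q) (j : ι) :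
    ∑ i, Q i j ^ 2 ≤ Q j j := by
  have h1 := hQ.le (Pi.single j 1)
  have h2 : quad Q (Pi.single j 1) = Q j j := by
    unfold quad
    rw [single_one_dotProduct, ctrb_mul]
  rw [h2] at h1
  simpa only [ctrb_mul] using h1

theorem ctrb_diag {ι : Type*} [Fintype ι] [DecidableEq ι] (Q : Matrix ι ι ℝ) (hQ : Ctr Q) (j : ι) :
    0 ≤ Q j j ∧ Q j j ≤ 1 := by
  have h1 := ctrb_col Q hQ j
  have h2 : Q j j ^ 2 ≤ ∑ i, Q i j ^ 2 :=
    Finset.single_le_sum (f := fun i => Q i j ^ 2) (fun i _ => sq_nonneg _) (Finset.mem_univ j)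
  constructor <;> nlinarith

/-- bounds for the traces of a `Ctr` matrix: `0 ≤ Q_pp`, `∑_q Q_pq² ≤ Q_pp ≤ 1` -/
theorem ctr_bounds {ι : Type*} [Fintype ι] [DecidableEq ι] (Q : Matrix ι ι ℝ) (hQ : Ctr Q) :
    0 ≤ tau Q ∧ tau Q ≤ 1 ∧ 0 ≤ beta Q ∧ beta Q ≤ tau Q := by
  unfold tau beta
  have hc : (0 : ℝ) ≤ Fintype.card ι := Nat.cast_nonneg _
  refine ⟨div_nonneg (Finset.sum_nonneg fun i _ => (ctrb_diag Q hQ i).1) hc, ?_,
    div_nonneg (Finset.sum_nonneg fun i _ => Finset.sum_nonneg fun j _ => sq_nonneg _) hc, ?_⟩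
  · apply div_le_one_of_le₀ _ hc
    calc ∑ i, Q i i ≤ ∑ _i : ι, (1 : ℝ) := Finset.sum_le_sum fun i _ => (ctrb_diag Q hQ i).2
      _ = Fintype.card ι := by rw [Finset.sum_const, Finset.card_univ, nsmul_eq_mul, mul_one]
  · apply div_le_div_of_nonneg_right _ hc
    rw [Finset.sum_comm]
    exact Finset.sum_le_sum fun j _ => ctrb_col Q hQ j

end Pool.Agent.MP_2a72d7_pr.Pos
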