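import Mathlib
import Pool.Agent.MP_2a72d7_pr.Defs
import Pool.Agent.MP_2a72d7_pr.Sm.Base
import Pool.Agent.MP_2a72d7_pr.Pos.Base
import Pool.Agent.MP_2a72d7_pr.Pos.R_ctrb

namespace Pool.Agent.MP_2a72d7_pr.Pos

open MeasureTheory Matrix Pool.Agent.MP_2a72d7_pr.Sm

theorem ov_norm (κ : Type*) [Fintype κ] [DecidableEq κ] [Nonempty κ] : ‖ov κ‖ = 1 := by
  have hm : (0 : ℝ) < (Fintype.card κ : ℝ) := by exact_mod_cast Fintype.card_pos
  rw [EuclideanSpace.norm_eq]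
  have h : ∑ p : κ × κ, ‖(ov κ) p‖ ^ 2 = 1 := by
    rw [Fintype.sum_prod_type]
    have h1 : ∀ x : κ, ∑ y : κ, ‖(ov κ) (x, y)‖ ^ 2 = 1 / (Fintype.card κ : ℝ) := by
      intro x
      rw [Finset.sum_eq_single x]
      · simp only [ov, if_true, Real.norm_eq_abs, sq_abs, div_pow, one_pow]
        rw [Real.sq_sqrt hm.le]
      · intro y _ hy
        simp only [ov]
        rw [if_neg (Ne.symm hy)]
        simp
      · intro hx
        exact absurd (Finset.mem_univ x) hx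
    rw [Finset.sum_congr rfl (fun x _ => h1 x), Finset.sum_const, Finset.card_univ, nsmul_eq_mul]
    field_simp
  rw [h, Real.sqrt_one]

/-- rows of a `Ctr` matrix -/
theorem blk_row {ι : Type*} [Fintype ι] [DecidableEq ι] (Q : Matrix ι ι ℝ) (hQ : Ctr Q) (p : ι) :
    ∑ q, Q p q ^ 2 ≤ Q p p := by
  have h := hQ.le (Pi.single p 1)
  have h1 : ∀ i, (Q *ᵥ (Pi.single p 1 : ι → ℝ)) i = Q i p := by
    intro i
    simp [Matrix.mulVec, dotProduct, Pi.single_apply]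
  have h2 : quad Q (Pi.single p 1 : ι → ℝ) = Q p p := by
    unfold quad
    rw [single_dotProduct, h1, one_mul]
  rw [h2] at h
  calc ∑ q, Q p q ^ 2 = ∑ i, (Q *ᵥ (Pi.single p 1 : ι → ℝ)) i ^ 2 := by
        refine Finset.sum_congr rfl fun q _ => ?_
        rw [h1, hQ.symm]
    _ ≤ Q p p := h

theorem blk_diag {ι : Type*} [Fintype ι] [DecidableEq ι] (Q : Matrix ι ι ℝ) (hQ : Ctr Q) (p : ι) :
    Q p p ≤ 1 := by
  have h := blk_row Q hQ p
  have h1 : Q p p ^ 2 ≤ ∑ q, Q p q ^ 2 :=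
    Finset.single_le_sum (f := fun q => Q p q ^ 2) (fun q _ => sq_nonneg _) (Finset.mem_univ p)
  nlinarith

theorem blk_qv {n : ℕ} {κ : Type*} [Fintype κ] [DecidableEq κ] [Nonempty κ]
    (Q : Matrix (Fin n × κ) (Fin n × κ) ℝ) (hQ : Ctr Q) (i : Fin n) : ‖qv Q i i‖ ≤ 1 := by
  have hm : (0 : ℝ) < (Fintype.card κ : ℝ) := by exact_mod_cast Fintype.card_pos
  rw [EuclideanSpace.norm_eq]
  rw [Real.sqrt_le_one]
  have h1 : ∀ j : κ, ∑ j' : κ, ‖(qv Q i i) (j, j')‖ ^ 2 ≤ 1 / (Fintype.card κ : ℝ) := by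
    intro j
    have h2 : ∀ j' : κ, ‖(qv Q i i) (j, j')‖ ^ 2 =
        Q (i, j) (i, j') ^ 2 / (Fintype.card κ : ℝ) := by
      intro j'
      simp only [qv, Real.norm_eq_abs, sq_abs, div_pow]
      rw [Real.sq_sqrt hm.le]
    rw [Finset.sum_congr rfl (fun j' _ => h2 j'), ← Finset.sum_div]
    apply div_le_div_of_nonneg_right _ hm.le
    have h3 := blk_row Q hQ (i, j)
    have h4 := blk_diag Q hQ (i, j)
    rw [Fintype.sum_prod_type] at h3
    have h5 : ∑ y : κ, Q (i, j) (i, y) ^ 2 ≤ ∑ x : Fin n, ∑ y : κ, Q (i, j) (x, y) ^ 2 :=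
      Finset.single_le_sum (f := fun x : Fin n => ∑ y : κ, Q (i, j) (x, y) ^ 2)
        (fun x _ => Finset.sum_nonneg fun y _ => sq_nonneg _) (Finset.mem_univ i)
    linarith
  rw [Fintype.sum_prod_type]
  calc ∑ x : κ, ∑ y : κ, ‖(qv Q i i) (x, y)‖ ^ 2 ≤ ∑ _x : κ, 1 / (Fintype.card κ : ℝ) :=
        Finset.sum_le_sum fun x _ => h1 x
    _ = 1 := by
        rw [Finset.sum_const, Finset.card_univ, nsmul_eq_mul]
        field_simp

theorem qb_norm {n : ℕ} {κ : Type*} [Fintype κ] [DecidableEq κ] [Nonempty κ]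
    (Q : Matrix (Fin n × κ) (Fin n × κ) ℝ) (hQ : Ctr Q) : ‖qb Q‖ ≤ 1 := by
  unfold qb
  rcases Nat.eq_zero_or_pos n with hn | hn
  · subst hn
    simp
  have hn' : (0 : ℝ) < n := by exact_mod_cast hn
  rw [norm_smul, Real.norm_of_nonneg (by positivity)]
  have h : ‖∑ i, qv Q i i‖ ≤ n := by
    calc ‖∑ i, qv Q i i‖ ≤ ∑ i, ‖qv Q i i‖ := norm_sum_le _ _
      _ ≤ ∑ _i : Fin n, (1 : ℝ) := Finset.sum_le_sum fun i _ => blk_qv Q hQ i
      _ = n := by simp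
  calc (1 / (n : ℝ)) * ‖∑ i, qv Q i i‖ ≤ (1 / (n : ℝ)) * n :=
        mul_le_mul_of_nonneg_left h (by positivity)
    _ = 1 := by field_simp

theorem cv_sum {n : ℕ} (hn : 0 < n) {κ : Type*} [Fintype κ] [DecidableEq κ]
    (Q : Matrix (Fin n × κ) (Fin n × κ) ℝ) : ∑ i, cv Q i i = 0 := by
  have hn' : (n : ℝ) ≠ 0 := by exact_mod_cast hn.ne'
  simp only [cv, if_true, Finset.sum_sub_distrib, Finset.sum_const, Finset.card_univ,
    Fintype.card_fin]
  unfold qb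
  rw [← Nat.cast_smul_eq_nsmul ℝ n, smul_smul, mul_one_div_cancel hn', one_smul, sub_self]

end Pool.Agent.MP_2a72d7_pr.Pos
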