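import Mathlib
import Pool.Agent.MP_2a72d7_pr.Defs
import Pool.Agent.MP_2a72d7_pr.Sm.Base
import Pool.Agent.MP_2a72d7_pr.Pos.Base
import Pool.Agent.MP_2a72d7_pr.Pos.R_blk

namespace Pool.Agent.MP_2a72d7_pr.Pos

open MeasureTheory Matrix Pool.Agent.MP_2a72d7_pr.Sm

private lemma K1_norm {ι : Type*} [Fintype ι] (Q : Matrix ι ι ℝ) (hQ : Ctr Q) (w : ι → ℝ) :
    ∑ i, (Q *ᵥ w) i ^ 2 ≤ ∑ i, w i ^ 2 := by
  have h1 := hQ.le w
  have h2 : quad Q w ≤ ∑ i, (w i ^ 2 + (Q *ᵥ w) i ^ 2) / 2 := by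
    unfold quad
    rw [dotProduct]
    refine Finset.sum_le_sum fun i _ => ?_
    nlinarith [sq_nonneg (w i - (Q *ᵥ w) i)]
  rw [← Finset.sum_div, Finset.sum_add_distrib] at h2
  linarith

/-- `∑ᵢ‖∑ⱼ vⱼ c_ij‖² ≤ 4‖v‖²`: `∑ᵢ‖∑ⱼ vⱼ q_ij‖² = (1/N')∑_b ‖Q(v ⊗ e_b)‖² ≤ ‖v‖²`,
`∑ᵢ ‖vᵢ q̄‖² ≤ ‖v‖²` (`qb_norm`), `‖a - b‖² ≤ 2‖a‖² + 2‖b‖²`. -/
theorem cv_K1 {n : ℕ} {κ : Type*} [Fintype κ] [DecidableEq κ] [Nonempty κ]
    (Q : Matrix (Fin n × κ) (Fin n × κ) ℝ) (hQ : Ctr Q) (v : Fin n → ℝ) :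
    ∑ i, ‖∑ j, v j • cv Q i j‖ ^ 2 ≤ 4 * ∑ i, v i ^ 2 := by
  have hN : (0 : ℝ) < Fintype.card κ := by exact_mod_cast Fintype.card_pos
  have e1 : ∀ i, ∑ j, v j • cv Q i j = (∑ j, v j • qv Q i j) - v i • qb Q := by
    intro i
    have : ∀ j, v j • cv Q i j = v j • qv Q i j - if i = j then v i • qb Q else 0 := by
      intro j
      unfold cv
      rw [smul_sub]
      congr 1
      split_ifs with h
      · subst h; rfl
      · rw [smul_zero]
    simp only [this]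
    rw [Finset.sum_sub_distrib, Finset.sum_ite_eq]
    simp
  have e2 : ∀ i, ‖∑ j, v j • cv Q i j‖ ^ 2 ≤
      2 * ‖∑ j, v j • qv Q i j‖ ^ 2 + 2 * v i ^ 2 := by
    intro i
    rw [e1]
    have h1 := norm_sub_le (∑ j, v j • qv Q i j) (v i • qb Q)
    have h2 : ‖v i • qb Q‖ ^ 2 ≤ v i ^ 2 := by
      rw [norm_smul, mul_pow, Real.norm_eq_abs, sq_abs]
      have := qb_norm Q hQ
      have h3 : ‖qb Q‖ ^ 2 ≤ 1 := by
        have := norm_nonneg (qb Q)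
        nlinarith
      nlinarith [sq_nonneg (v i)]
    have h0 := norm_nonneg (∑ j, v j • qv Q i j - v i • qb Q)
    have h4 : ‖∑ j, v j • qv Q i j - v i • qb Q‖ ^ 2 ≤
        (‖∑ j, v j • qv Q i j‖ + ‖v i • qb Q‖) ^ 2 := by
      exact pow_le_pow_left₀ h0 h1 2
    nlinarith [sq_nonneg (‖∑ j, v j • qv Q i j‖ - ‖v i • qb Q‖)]
  have e3 : ∑ i, ‖∑ j, v j • qv Q i j‖ ^ 2 ≤ ∑ i, v i ^ 2 := by
    have f1 : ∀ i, ‖∑ j, v j • qv Q i j‖ ^ 2 =
        ∑ b, ∑ a, (Q *ᵥ (fun p => if p.2 = b then v p.1 else 0)) (i, a) ^ 2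
          / (Fintype.card κ : ℝ) := by
      intro i
      rw [EuclideanSpace.real_norm_sq_eq, Fintype.sum_prod_type, Finset.sum_comm]
      refine Finset.sum_congr rfl fun b _ => ?_
      refine Finset.sum_congr rfl fun a _ => ?_
      have g1 : (∑ j, v j • qv Q i j).ofLp (a, b) =
          (Q *ᵥ (fun p => if p.2 = b then v p.1 else 0)) (i, a) / √(Fintype.card κ : ℝ) := by
        rw [WithLp.ofLp_sum, Finset.sum_apply, mulVec, dotProduct, Fintype.sum_prod_type,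
          Finset.sum_div]
        refine Finset.sum_congr rfl fun j _ => ?_
        rw [Finset.sum_eq_single b]
        · simp only [if_true, WithLp.ofLp_smul, Pi.smul_apply, qv, smul_eq_mul]
          ring
        · intro c _ hc
          rw [if_neg hc, mul_zero]
        · simp
      rw [g1, div_pow, Real.sq_sqrt hN.le]
    simp only [f1]
    rw [Finset.sum_comm]
    have f2 : ∀ b, ∑ i, ∑ a, (Q *ᵥ (fun p => if p.2 = b then v p.1 else 0)) (i, a) ^ 2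
          / (Fintype.card κ : ℝ) ≤ (∑ i, v i ^ 2) / (Fintype.card κ : ℝ) := by
      intro b
      simp only [← Finset.sum_div]
      refine div_le_div_of_nonneg_right ?_ hN.le
      have := K1_norm Q hQ (fun p => if p.2 = b then v p.1 else 0)
      rw [Fintype.sum_prod_type, Fintype.sum_prod_type] at this
      refine this.trans (le_of_eq ?_)
      refine Finset.sum_congr rfl fun i _ => ?_
      rw [Finset.sum_eq_single b]
      · simp
      · intro c _ hc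
        simp [hc]
      · simp
    refine (Finset.sum_le_sum fun b _ => f2 b).trans (le_of_eq ?_)
    rw [Finset.sum_const, Finset.card_univ, nsmul_eq_mul]
    field_simp
  calc ∑ i, ‖∑ j, v j • cv Q i j‖ ^ 2
      ≤ ∑ i, (2 * ‖∑ j, v j • qv Q i j‖ ^ 2 + 2 * v i ^ 2) := Finset.sum_le_sum fun i _ => e2 i
    _ = 2 * ∑ i, ‖∑ j, v j • qv Q i j‖ ^ 2 + 2 * ∑ i, v i ^ 2 := by
        rw [Finset.sum_add_distrib, Finset.mul_sum, Finset.mul_sum]
    _ ≤ 4 * ∑ i, v i ^ 2 := by linarith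

end Pool.Agent.MP_2a72d7_pr.Pos
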