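import Mathlib
import Pool.Agent.MP_2a72d7_pr.Defs
import Pool.Agent.MP_2a72d7_pr.Sm.Base
import Pool.Agent.MP_2a72d7_pr.Pos.Base
import Pool.Agent.MP_2a72d7_pr.Pos.R_K1
import Pool.Agent.MP_2a72d7_pr.Pos.R_blk

namespace Pool.Agent.MP_2a72d7_pr.Pos

open MeasureTheory Matrix Pool.Agent.MP_2a72d7_pr.Sm

/-- Bounds for the matrix `B_ij = ⟨h, c_ij⟩`, `‖h‖ ≤ λ + 2γ ≤ 2λ`. -/
theorem Bm_bounds {n : ℕ} (hn : 0 < n) {κ : Type*} [Fintype κ] [DecidableEq κ] [Nonempty κ]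
    (Q : Matrix (Fin n × κ) (Fin n × κ) ℝ) (hQ : Ctr Q) (lam gam : ℝ) (hl : 0 ≤ lam)
    (hg : 0 ≤ gam) (hgl : 2 * gam ≤ lam) :
    (∑ i, Bm lam gam Q i i = 0) ∧
    (∑ i, ∑ j, Bm lam gam Q i j ^ 2 ≤ 4 * lam ^ 2 * ∑ i, ∑ j, ‖cv Q i j‖ ^ 2) ∧
    (∀ v : Fin n → ℝ, ∑ i, (∑ j, Bm lam gam Q i j * v j) ^ 2 ≤
      (4 * lam) ^ 2 * ∑ i, v i ^ 2) := by
  set h : EuclideanSpace ℝ (κ × κ) := -(lam • ov κ) + (2 * gam) • qb Q with hh
  have hB : ∀ i j, Bm lam gam Q i j = inner ℝ h (cv Q i j) := fun i j => rfl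
  have hn1 : ‖h‖ ≤ 2 * lam := by
    have h1 := norm_add_le (-(lam • ov κ)) ((2 * gam) • qb Q)
    rw [norm_neg, norm_smul, norm_smul, ov_norm, Real.norm_of_nonneg hl,
      Real.norm_of_nonneg (by positivity : (0 : ℝ) ≤ 2 * gam)] at h1
    have h2 := mul_le_mul_of_nonneg_left (qb_norm Q hQ) (by positivity : (0 : ℝ) ≤ 2 * gam)
    rw [hh]
    linarith
  have hn2 : ‖h‖ ^ 2 ≤ 4 * lam ^ 2 := by
    have := pow_le_pow_left₀ (norm_nonneg h) hn1 2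
    nlinarith
  have hin : ∀ w : EuclideanSpace ℝ (κ × κ), (inner ℝ h w) ^ 2 ≤ 4 * lam ^ 2 * ‖w‖ ^ 2 := by
    intro w
    have h1 := abs_real_inner_le_norm h w
    have h2 : (inner ℝ h w) ^ 2 ≤ (‖h‖ * ‖w‖) ^ 2 := by
      rw [← sq_abs]
      exact pow_le_pow_left₀ (abs_nonneg _) h1 2
    rw [mul_pow] at h2
    exact h2.trans (mul_le_mul_of_nonneg_right hn2 (sq_nonneg _))
  refine ⟨?_, ?_, ?_⟩
  · simp only [hB]
    rw [← inner_sum, cv_sum hn Q, inner_zero_right]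
  · simp only [hB, Finset.mul_sum]
    exact Finset.sum_le_sum fun i _ => Finset.sum_le_sum fun j _ => hin _
  · intro v
    have h1 : ∀ i, ∑ j, Bm lam gam Q i j * v j = inner ℝ h (∑ j, v j • cv Q i j) := by
      intro i
      rw [inner_sum]
      refine Finset.sum_congr rfl fun j _ => ?_
      rw [hB, inner_smul_right, mul_comm]
    simp only [h1]
    have h2 := cv_K1 Q hQ v
    calc ∑ i, (inner ℝ h (∑ j, v j • cv Q i j)) ^ 2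
        ≤ ∑ i, 4 * lam ^ 2 * ‖∑ j, v j • cv Q i j‖ ^ 2 := Finset.sum_le_sum fun i _ => hin _
      _ = 4 * lam ^ 2 * ∑ i, ‖∑ j, v j • cv Q i j‖ ^ 2 := by rw [Finset.mul_sum]
      _ ≤ 4 * lam ^ 2 * (4 * ∑ i, v i ^ 2) := mul_le_mul_of_nonneg_left h2 (by positivity)
      _ = (4 * lam) ^ 2 * ∑ i, v i ^ 2 := by ring

end Pool.Agent.MP_2a72d7_pr.Pos
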