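import Mathlib
import Pool.Agent.MP_2a72d7_pr.Defs
import Pool.Agent.MP_2a72d7_pr.Sm.Base
import Pool.Agent.MP_2a72d7_pr.Pos.Base
import Pool.Agent.MP_2a72d7_pr.Pos.R_K1

namespace Pool.Agent.MP_2a72d7_pr.Pos

open MeasureTheory Matrix Pool.Agent.MP_2a72d7_pr.Sm

/-- `‖E₀‖ ≤ 4` if `‖x‖² ≤ 2n`: `‖∑ᵢ xᵢ ∑ⱼ xⱼ c_ij‖ ≤ ‖x‖ (∑ᵢ‖∑ⱼxⱼc_ij‖²)^(1/2) ≤ 2‖x‖²`. -/
theorem E0_le {n : ℕ} (hn : 0 < n) {κ : Type*} [Fintype κ] [DecidableEq κ] [Nonempty κ]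
    (Q : Matrix (Fin n × κ) (Fin n × κ) ℝ) (hQ : Ctr Q) (x : Fin n → ℝ)
    (h2 : ∑ i, x i ^ 2 ≤ 2 * n) : ‖E0 Q x‖ ≤ 4 := by
  have hn0 : (0 : ℝ) < n := by exact_mod_cast hn
  have hK := cv_K1 Q hQ x
  have e1 : E0 Q x = (1 / n : ℝ) • ∑ i, x i • ∑ j, x j • cv Q i j := by
    unfold E0
    congr 1
    refine Finset.sum_congr rfl fun i _ => ?_
    rw [Finset.smul_sum]
    refine Finset.sum_congr rfl fun j _ => ?_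
    rw [smul_smul]
  have e2 : ‖∑ i, x i • ∑ j, x j • cv Q i j‖ ≤ ∑ i, |x i| * ‖∑ j, x j • cv Q i j‖ := by
    refine (norm_sum_le _ _).trans (le_of_eq ?_)
    refine Finset.sum_congr rfl fun i _ => ?_
    rw [norm_smul, Real.norm_eq_abs]
  have e3 : (∑ i, |x i| * ‖∑ j, x j • cv Q i j‖) ^ 2 ≤
      (∑ i, |x i| ^ 2) * ∑ i, ‖∑ j, x j • cv Q i j‖ ^ 2 :=
    Finset.sum_mul_sq_le_sq_mul_sq _ _ _
  have e4 : ∑ i, |x i| ^ 2 = ∑ i, x i ^ 2 := by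
    refine Finset.sum_congr rfl fun i _ => sq_abs _
  rw [e4] at e3
  have hr0 : 0 ≤ ∑ i, x i ^ 2 := Finset.sum_nonneg fun i _ => sq_nonneg _
  have e5 : (∑ i, |x i| * ‖∑ j, x j • cv Q i j‖) ^ 2 ≤ (4 * (n : ℝ)) ^ 2 := by
    have : (∑ i, x i ^ 2) * ∑ i, ‖∑ j, x j • cv Q i j‖ ^ 2 ≤
        (∑ i, x i ^ 2) * (4 * ∑ i, x i ^ 2) := mul_le_mul_of_nonneg_left hK hr0
    nlinarith
  have e6 : ∑ i, |x i| * ‖∑ j, x j • cv Q i j‖ ≤ 4 * n :=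
    abs_le_of_sq_le_sq' e5 (by positivity) |>.2
  rw [e1, norm_smul, Real.norm_of_nonneg (by positivity)]
  calc (1 / n : ℝ) * ‖∑ i, x i • ∑ j, x j • cv Q i j‖ ≤ (1 / n : ℝ) * (4 * n) :=
        mul_le_mul_of_nonneg_left (e2.trans e6) (by positivity)
    _ = 4 := by field_simp

end Pool.Agent.MP_2a72d7_pr.Pos
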