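import Mathlib
import Pool.Agent.MP_2a72d7_pr.Defs
import Pool.Agent.MP_2a72d7_pr.Sm.Base
import Pool.Agent.MP_2a72d7_pr.Pos.Base
import Pool.Agent.MP_2a72d7_pr.Sm.P_mom1

namespace Pool.Agent.MP_2a72d7_pr.Pos

open MeasureTheory Matrix Pool.Agent.MP_2a72d7_pr.Sm

theorem adm_int2 {L : ℝ} {ν : Measure ℝ} (h : Admissible L ν) : Integrable (fun x : ℝ => x ^ 2) ν := by
  by_contra hcon
  have h1 := h.unit_variance
  rw [integral_undef hcon] at h1
  exact zero_ne_one h1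

theorem adm_int1 {L : ℝ} {ν : Measure ℝ} (h : Admissible L ν) : Integrable (fun x : ℝ => x) ν := by
  have := h.prob
  refine ((integrable_const (1 : ℝ)).add (adm_int2 h)).mono' (by fun_prop) ?_
  refine Filter.Eventually.of_forall fun x => ?_
  simp only [Pi.add_apply, Real.norm_eq_abs]
  rcases le_or_gt |x| 1 with hx | hx
  · nlinarith [sq_nonneg x]
  · have : |x| ^ 2 = x ^ 2 := sq_abs x
    nlinarith

theorem adm_intE {L : ℝ} {ν : Measure ℝ} (h : Admissible L ν) :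
    Integrable (fun x : ℝ => Real.exp (x ^ 2 / L ^ 2)) ν := by
  refine ⟨by fun_prop, ?_⟩
  rw [hasFiniteIntegral_iff_ofReal (Filter.Eventually.of_forall fun x => (Real.exp_pos _).le)]
  exact lt_of_le_of_lt h.subgaussian (by norm_num)

theorem adm_E_le {L : ℝ} {ν : Measure ℝ} (h : Admissible L ν) :
    ∫ x, Real.exp (x ^ 2 / L ^ 2) ∂ν ≤ 2 := by
  have h1 := ofReal_integral_eq_lintegral_ofReal (adm_intE h)
    (Filter.Eventually.of_forall fun x => (Real.exp_pos _).le)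
  have h2 := h.subgaussian
  rw [← h1] at h2
  have h3 : ENNReal.ofReal (∫ x, Real.exp (x ^ 2 / L ^ 2) ∂ν) ≤ ENNReal.ofReal 2 := by
    refine h2.trans (le_of_eq ?_)
    norm_num
  rwa [ENNReal.ofReal_le_ofReal_iff (by norm_num)] at h3

/-- general form: a pointwise bound by a combination of `1, x, x ^ 2, exp (x ^ 2 / L ^ 2)` -/
theorem adm_bound {L : ℝ} {ν : Measure ℝ} (h : Admissible L ν) (f : ℝ → ℝ) (a b c d : ℝ)
    (hd : 0 ≤ d) (hf : ∀ x, 0 ≤ f x)
    (hfx : ∀ x, f x ≤ a + b * x + c * x ^ 2 + d * Real.exp (x ^ 2 / L ^ 2)) :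
    ∫⁻ x, ENNReal.ofReal (f x) ∂ν ≤ ENNReal.ofReal (a + c + 2 * d) := by
  have := h.prob
  have hi : Integrable (fun x : ℝ => a + b * x + c * x ^ 2 + d * Real.exp (x ^ 2 / L ^ 2)) ν :=
    (((integrable_const a).add ((adm_int1 h).const_mul b)).add ((adm_int2 h).const_mul c)).add
      ((adm_intE h).const_mul d)
  calc ∫⁻ x, ENNReal.ofReal (f x) ∂ν
      ≤ ∫⁻ x, ENNReal.ofReal (a + b * x + c * x ^ 2 + d * Real.exp (x ^ 2 / L ^ 2)) ∂ν :=
        lintegral_mono fun x => ENNReal.ofReal_le_ofReal (hfx x)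
    _ = ENNReal.ofReal (∫ x, (a + b * x + c * x ^ 2 + d * Real.exp (x ^ 2 / L ^ 2)) ∂ν) := by
        rw [ofReal_integral_eq_lintegral_ofReal hi
          (Filter.Eventually.of_forall fun x => (hf x).trans (hfx x))]
    _ ≤ ENNReal.ofReal (a + c + 2 * d) := by
        refine ENNReal.ofReal_le_ofReal ?_
        have i1 : Integrable (fun x : ℝ => a + b * x) ν :=
          (integrable_const a).add ((adm_int1 h).const_mul b)
        have i2 : Integrable (fun x : ℝ => a + b * x + c * x ^ 2) ν :=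
          i1.add ((adm_int2 h).const_mul c)
        have e1 : ∫ x, (a + b * x + c * x ^ 2 + d * Real.exp (x ^ 2 / L ^ 2)) ∂ν =
            ∫ x, (a + b * x + c * x ^ 2) ∂ν + ∫ x, d * Real.exp (x ^ 2 / L ^ 2) ∂ν :=
          integral_add i2 ((adm_intE h).const_mul d)
        have e2 : ∫ x, (a + b * x + c * x ^ 2) ∂ν = ∫ x, (a + b * x) ∂ν + ∫ x, c * x ^ 2 ∂ν :=
          integral_add i1 ((adm_int2 h).const_mul c)
        have e3 : ∫ x, (a + b * x) ∂ν = ∫ _, a ∂ν + ∫ x, b * x ∂ν :=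
          integral_add (integrable_const a) ((adm_int1 h).const_mul b)
        rw [e1, e2, e3, integral_const_mul, integral_const_mul, integral_const_mul, h.mean_zero,
          h.unit_variance, integral_const]
        have h1 := adm_E_le h
        simp only [probReal_univ, smul_eq_mul, one_mul]
        nlinarith

theorem adm_exp_le (y : ℝ) : Real.exp y ≤ y + Real.exp (y ^ 2) := by
  have h0 := Real.add_one_le_exp (y ^ 2)
  rcases le_or_gt |y| 1 with hy | hy
  · have h1 := Real.abs_exp_sub_one_sub_id_le hy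
    have h2 := (abs_le.1 h1).2
    linarith
  · rcases le_or_gt y 0 with h1 | h1
    · rw [abs_of_nonpos h1] at hy
      have h2 : Real.exp y ≤ 1 := Real.exp_le_one_iff.2 h1
      nlinarith
    · rw [abs_of_pos h1] at hy
      have h2 : Real.exp y ≤ Real.exp (y ^ 2) := Real.exp_le_exp.2 (by nlinarith)
      linarith

theorem adm_conv (θ v : ℝ) (h0 : 0 ≤ θ) (h1 : θ ≤ 1) :
    Real.exp (θ * v) ≤ (1 - θ) + θ * Real.exp v := by
  have h := convexOn_exp.2 (Set.mem_univ (0 : ℝ)) (Set.mem_univ v) (sub_nonneg.2 h1) h0 (by ring)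
  simp only [smul_eq_mul, mul_zero, zero_add, Real.exp_zero, mul_one] at h
  exact h

theorem adm_tay (w : ℝ) : Real.exp w ≤ 1 + w + w ^ 2 * Real.exp |w| := by
  have h := Complex.norm_exp_sub_sum_le_norm_mul_exp (w : ℂ) 2
  have e : Complex.exp (w : ℂ) - ∑ m ∈ Finset.range 2, (w : ℂ) ^ m / (m.factorial : ℂ) =
      ((Real.exp w - (1 + w) : ℝ) : ℂ) := by
    simp [Finset.sum_range_succ]
  rw [e, Complex.norm_real, Complex.norm_real, Real.norm_eq_abs, Real.norm_eq_abs] at h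
  have h2 := (abs_le.1 h).2
  rw [sq_abs] at h2
  linarith

/-- `E exp(tξ) ≤ exp(L² t²)` for all `t`.  Proof: with `θ = t² L²`.  If `θ ≤ 1` use
`e^y ≤ y + e^(y²)` and `e^(θ v) ≤ 1 - θ + θ e^v` with `v = ξ²/L²`; if `θ > 1` use
`t ξ ≤ θ/2 + v/2` and `e^(v/2) ≤ 1/2 + e^v/2`, `3/2 ≤ e^(1/2)`. -/
theorem mgf_lin {L : ℝ} {ν : Measure ℝ} (h : Admissible L ν) (t : ℝ) :
    ∫⁻ x, ENNReal.ofReal (Real.exp (t * x)) ∂ν ≤ ENNReal.ofReal (Real.exp (L ^ 2 * t ^ 2)) := by
  have hL := h.L_pos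
  obtain ⟨θ, hθ⟩ : ∃ θ, θ = L ^ 2 * t ^ 2 := ⟨_, rfl⟩
  have hθ0 : 0 ≤ θ := by rw [hθ]; positivity
  rw [← hθ]
  rcases le_or_gt θ 1 with h1 | h1
  · refine (adm_bound h (fun x => Real.exp (t * x)) (1 - θ) t 0 θ hθ0
      (fun x => (Real.exp_pos _).le) ?_).trans (ENNReal.ofReal_le_ofReal ?_)
    · intro x
      have h2 := adm_exp_le (t * x)
      have h3 := adm_conv θ (x ^ 2 / L ^ 2) hθ0 h1
      have e : θ * (x ^ 2 / L ^ 2) = (t * x) ^ 2 := by
        rw [hθ]
        field_simp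
      rw [e] at h3
      linarith
    · have h4 := Real.add_one_le_exp θ
      linarith
  · refine (adm_bound h (fun x => Real.exp (t * x)) (Real.exp (θ / 2) / 2) 0 0
      (Real.exp (θ / 2) / 2) (by positivity)
      (fun x => (Real.exp_pos _).le) ?_).trans (ENNReal.ofReal_le_ofReal ?_)
    · intro x
      have h2 : t * x ≤ θ / 2 + (x ^ 2 / L ^ 2) / 2 := by
        have h3 : t * x = (L * t) * (x / L) := by field_simp
        have h4 : x ^ 2 / L ^ 2 = (x / L) ^ 2 := by rw [div_pow]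
        rw [hθ, h3, h4]
        nlinarith [sq_nonneg (L * t - x / L)]
      have h5 := adm_conv (1 / 2) (x ^ 2 / L ^ 2) (by norm_num) (by norm_num)
      calc Real.exp (t * x) ≤ Real.exp (θ / 2 + (x ^ 2 / L ^ 2) / 2) := Real.exp_le_exp.2 h2
        _ = Real.exp (θ / 2) * Real.exp (1 / 2 * (x ^ 2 / L ^ 2)) := by
            rw [Real.exp_add]
            congr 2
            ring
        _ ≤ Real.exp (θ / 2) * ((1 - 1 / 2) + 1 / 2 * Real.exp (x ^ 2 / L ^ 2)) :=
            mul_le_mul_of_nonneg_left h5 (Real.exp_pos _).le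
        _ = _ := by ring
    · have h2 : Real.exp θ = Real.exp (θ / 2) * Real.exp (θ / 2) := by
        rw [← Real.exp_add]
        congr 1
        ring
      have h3 : (3 / 2 : ℝ) ≤ Real.exp (θ / 2) := by
        have := Real.add_one_le_exp (θ / 2)
        linarith
      rw [h2]
      nlinarith [Real.exp_pos (θ / 2)]

/-- `E exp(t(ξ²-1)) ≤ exp(16 L⁴ t²)` for `|t| ≤ 1/(2L²)`.  Proof: `e^w ≤ 1 + w + (w²/2) e^|w|`,
`|ξ²-1| ≤ ξ²+1`, `v² e^(v/2) ≤ (16/e²) e^v`; `one_le_L`. -/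
theorem mgf_sq {L : ℝ} {ν : Measure ℝ} (h : Admissible L ν) (t : ℝ)
    (ht : |t| ≤ 1 / (2 * L ^ 2)) :
    ∫⁻ x, ENNReal.ofReal (Real.exp (t * (x ^ 2 - 1))) ∂ν ≤
      ENNReal.ofReal (Real.exp (16 * L ^ 4 * t ^ 2)) := by
  have hL := h.L_pos
  have hL1 := one_le_L h
  refine (adm_bound h (fun x => Real.exp (t * (x ^ 2 - 1))) (1 - t) 0 t (8 * L ^ 4 * t ^ 2)
    (by positivity) (fun x => (Real.exp_pos _).le) ?_).trans (ENNReal.ofReal_le_ofReal ?_)
  · intro x
    obtain ⟨v, hv⟩ : ∃ v, v = x ^ 2 / L ^ 2 := ⟨_, rfl⟩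
    have hv0 : 0 ≤ v := by rw [hv]; positivity
    have hxv : x ^ 2 = L ^ 2 * v := by
      rw [hv]
      field_simp
    have h1 := adm_tay (t * (x ^ 2 - 1))
    have h2 : |t * (x ^ 2 - 1)| ≤ v / 2 + 1 / 2 := by
      rw [abs_mul]
      have h3 : |x ^ 2 - 1| ≤ x ^ 2 + 1 := by
        rw [abs_le]
        constructor <;> nlinarith [sq_nonneg x]
      calc |t| * |x ^ 2 - 1| ≤ 1 / (2 * L ^ 2) * (x ^ 2 + 1) :=
            mul_le_mul ht h3 (abs_nonneg _) (by positivity)
        _ = v / 2 + 1 / (2 * L ^ 2) := by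
            rw [hv]
            field_simp
        _ ≤ v / 2 + 1 / 2 := by
            have : 1 / (2 * L ^ 2) ≤ 1 / 2 := by
              apply one_div_le_one_div_of_le (by norm_num)
              linarith
            linarith
    have h4 : Real.exp |t * (x ^ 2 - 1)| ≤ 5 / 3 * Real.exp (v / 2) := by
      calc Real.exp |t * (x ^ 2 - 1)| ≤ Real.exp (v / 2 + 1 / 2) := Real.exp_le_exp.2 h2
        _ = Real.exp (1 / 2) * Real.exp (v / 2) := by rw [Real.exp_add, mul_comm]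
        _ ≤ 5 / 3 * Real.exp (v / 2) := by
            refine mul_le_mul_of_nonneg_right ?_ (Real.exp_pos _).le
            have h5 : Real.exp (1 / 2) ^ 2 = Real.exp 1 := by
              rw [← Real.exp_nat_mul]
              norm_num
            have h6 := Real.exp_one_lt_d9
            nlinarith [Real.exp_pos (1 / 2 : ℝ)]
    have h7 : v ^ 2 ≤ 19 / 5 * Real.exp (v / 2) := by
      have h70 := Real.sum_le_exp_of_nonneg (x := v / 2) (by positivity) 4
      simp only [Finset.sum_range_succ, Finset.sum_range_zero] at h70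
      norm_num [Nat.factorial] at h70
      nlinarith [mul_nonneg hv0 (sq_nonneg (v - 3)), sq_nonneg (v - 3), mul_nonneg hv0 hv0]
    have h8 : Real.exp v = Real.exp (v / 2) * Real.exp (v / 2) := by
      rw [← Real.exp_add]
      congr 1
      ring
    have h9 : (1 : ℝ) ≤ Real.exp (v / 2) := Real.one_le_exp (by positivity)
    have hL4 : (1 : ℝ) ≤ L ^ 4 := by nlinarith
    have h10 : (x ^ 2 - 1) ^ 2 * Real.exp (v / 2) ≤ 24 / 5 * L ^ 4 * Real.exp v := by
      have h11 : (x ^ 2 - 1) ^ 2 ≤ L ^ 4 * v ^ 2 + 1 := by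
        rw [hxv]
        have : 0 ≤ L ^ 2 * v := by positivity
        nlinarith
      have h12 : L ^ 4 * v ^ 2 ≤ L ^ 4 * (19 / 5 * Real.exp (v / 2)) :=
        mul_le_mul_of_nonneg_left h7 (by positivity)
      have h13 : (x ^ 2 - 1) ^ 2 ≤ 24 / 5 * L ^ 4 * Real.exp (v / 2) := by nlinarith
      calc (x ^ 2 - 1) ^ 2 * Real.exp (v / 2) ≤
          24 / 5 * L ^ 4 * Real.exp (v / 2) * Real.exp (v / 2) :=
            mul_le_mul_of_nonneg_right h13 (Real.exp_pos _).le
        _ = 24 / 5 * L ^ 4 * Real.exp v := by rw [h8]; ring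
    rw [← hv]
    have h14 : (t * (x ^ 2 - 1)) ^ 2 * Real.exp |t * (x ^ 2 - 1)| ≤
        8 * L ^ 4 * t ^ 2 * Real.exp v := by
      calc (t * (x ^ 2 - 1)) ^ 2 * Real.exp |t * (x ^ 2 - 1)|
          ≤ (t * (x ^ 2 - 1)) ^ 2 * (5 / 3 * Real.exp (v / 2)) :=
            mul_le_mul_of_nonneg_left h4 (by positivity)
        _ = 5 / 3 * t ^ 2 * ((x ^ 2 - 1) ^ 2 * Real.exp (v / 2)) := by ring
        _ ≤ 5 / 3 * t ^ 2 * (24 / 5 * L ^ 4 * Real.exp v) :=
            mul_le_mul_of_nonneg_left h10 (by positivity)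
        _ = _ := by ring
    linarith
  · have h4 := Real.add_one_le_exp (16 * L ^ 4 * t ^ 2)
    linarith

end Pool.Agent.MP_2a72d7_pr.Pos
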