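import Mathlib
import Pool.Agent.MP_2a72d7_pr.Defs
import Pool.Agent.MP_2a72d7_pr.Sm.Base
import Pool.Agent.MP_2a72d7_pr.Pos.Base

namespace Pool.Agent.MP_2a72d7_pr.Pos

open MeasureTheory Matrix Pool.Agent.MP_2a72d7_pr.Sm

theorem avg_card {n : ℕ} (i j : Fin n) (hij : i ≠ j) :
    4 * (Finset.univ.filter fun I : Finset (Fin n) => i ∈ I ∧ j ∉ I).card = 2 ^ n := by
  have h1 : (Finset.univ.filter fun I : Finset (Fin n) => i ∈ I ∧ j ∉ I).card =
      (((Finset.univ.erase i).erase j).powerset : Finset (Finset (Fin n))).card := by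
    refine Finset.card_nbij' (fun I => I.erase i) (fun J => insert i J) ?_ ?_ ?_ ?_
    · intro I hI
      have hI' : i ∈ I ∧ j ∉ I := (Finset.mem_filter.1 (Finset.mem_coe.1 hI)).2
      rw [Finset.mem_coe, Finset.mem_powerset]
      intro k hk
      rw [Finset.mem_erase] at hk
      rw [Finset.mem_erase, Finset.mem_erase]
      refine ⟨?_, hk.1, Finset.mem_univ _⟩
      rintro rfl
      exact hI'.2 hk.2
    · intro J hJ
      have hJ' : J ⊆ (Finset.univ.erase i).erase j :=
        Finset.mem_powerset.1 (Finset.mem_coe.1 hJ)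
      rw [Finset.mem_coe, Finset.mem_filter]
      refine ⟨Finset.mem_univ _, Finset.mem_insert_self _ _, ?_⟩
      rw [Finset.mem_insert, not_or]
      refine ⟨hij.symm, fun h => ?_⟩
      have h2 := hJ' h
      exact (Finset.mem_erase.1 h2).1 rfl
    · intro I hI
      have hI' : i ∈ I ∧ j ∉ I := (Finset.mem_filter.1 (Finset.mem_coe.1 hI)).2
      exact Finset.insert_erase hI'.1
    · intro J hJ
      have hJ' : J ⊆ (Finset.univ.erase i).erase j :=
        Finset.mem_powerset.1 (Finset.mem_coe.1 hJ)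
      refine Finset.erase_insert fun h => ?_
      have h2 := Finset.mem_of_mem_erase (hJ' h)
      exact (Finset.mem_erase.1 h2).1 rfl
  have h2 : ((Finset.univ.erase i).erase j : Finset (Fin n)).card = n - 2 := by
    rw [Finset.card_erase_of_mem, Finset.card_erase_of_mem (Finset.mem_univ _), Finset.card_univ,
      Fintype.card_fin]
    · rfl
    · exact Finset.mem_erase.2 ⟨hij.symm, Finset.mem_univ _⟩
  have h3 : 2 ≤ n := by
    have h4 : ({i, j} : Finset (Fin n)).card = 2 := Finset.card_pair hij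
    have h5 := Finset.card_le_univ ({i, j} : Finset (Fin n))
    rw [h4, Fintype.card_fin] at h5
    exact h5
  rw [h1, Finset.card_powerset, h2]
  obtain ⟨m, rfl⟩ := Nat.exists_eq_add_of_le h3
  rw [Nat.add_sub_cancel_left, pow_add]
  norm_num

/-- Averaging over subsets: `∑_{i ≠ j} a_ij = 4 · average over I of ∑_{i ∈ I, j ∉ I} a_ij`. -/
theorem subset_avg {n : ℕ} {E : Type*} [AddCommGroup E] [Module ℝ E] (a : Fin n → Fin n → E) :
    ∑ i, ∑ j ∈ Finset.univ.filter (· ≠ i), a i j =
      (4 / 2 ^ n : ℝ) • ∑ I : Finset (Fin n), ∑ i ∈ I, ∑ j ∈ Iᶜ, a i j := by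
  have h1 : ∑ I : Finset (Fin n), ∑ i ∈ I, ∑ j ∈ Iᶜ, a i j =
      ∑ i, ∑ j, ∑ I : Finset (Fin n), if i ∈ I ∧ j ∉ I then a i j else 0 := by
    have h2 : ∀ I : Finset (Fin n), ∑ i ∈ I, ∑ j ∈ Iᶜ, a i j =
        ∑ i, ∑ j, if i ∈ I ∧ j ∉ I then a i j else 0 := by
      intro I
      rw [← Finset.sum_filter_add_sum_filter_not Finset.univ (fun i => i ∈ I)
        (fun i => ∑ j, if i ∈ I ∧ j ∉ I then a i j else 0)]
      have h3 : ∑ i ∈ Finset.univ.filter (fun i => i ∉ I),
          ∑ j, (if i ∈ I ∧ j ∉ I then a i j else 0) = 0 := by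
        refine Finset.sum_eq_zero fun i hi => Finset.sum_eq_zero fun j _ => ?_
        rw [if_neg]
        exact fun h => (Finset.mem_filter.1 hi).2 h.1
      rw [h3, add_zero, Finset.filter_mem_eq_inter, Finset.univ_inter]
      refine Finset.sum_congr rfl fun i hi => ?_
      rw [← Finset.sum_filter]
      refine Finset.sum_congr ?_ fun _ _ => rfl
      ext j
      rw [Finset.mem_compl, Finset.mem_filter]
      exact ⟨fun h => ⟨Finset.mem_univ _, hi, h⟩, fun h => h.2.2⟩
    rw [Finset.sum_congr rfl fun I _ => h2 I, Finset.sum_comm]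
    refine Finset.sum_congr rfl fun i _ => ?_
    rw [Finset.sum_comm]
  rw [h1, Finset.smul_sum]
  refine Finset.sum_congr rfl fun i _ => ?_
  rw [Finset.smul_sum, Finset.sum_filter]
  refine Finset.sum_congr rfl fun j _ => ?_
  rw [← Finset.sum_filter, Finset.sum_const]
  by_cases hij : i = j
  · subst hij
    have h4 : (Finset.univ.filter fun I : Finset (Fin n) => i ∈ I ∧ i ∉ I) = ∅ := by
      refine Finset.filter_eq_empty_iff.2 fun I _ h => h.2 h.1
    rw [h4, Finset.card_empty, zero_smul, smul_zero, if_neg (fun h => h rfl)]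
  · rw [if_pos (fun h => hij h.symm), ← Nat.cast_smul_eq_nsmul ℝ, smul_smul]
    have h5 := avg_card i j hij
    have h6 : (4 / 2 ^ n : ℝ) *
        ((Finset.univ.filter fun I : Finset (Fin n) => i ∈ I ∧ j ∉ I).card : ℝ) = 1 := by
      have h7 : (4 : ℝ) * ((Finset.univ.filter fun I : Finset (Fin n) => i ∈ I ∧ j ∉ I).card : ℝ) =
          2 ^ n := by exact_mod_cast h5
      rw [div_mul_eq_mul_div, h7]
      exact div_self (by positivity)
    rw [h6, one_smul]

/-- Jensen for the exponential and the uniform average over subsets. -/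
theorem exp_avg {n : ℕ} (f : Finset (Fin n) → ℝ) :
    Real.exp ((1 / 2 ^ n : ℝ) * ∑ I, f I) ≤ (1 / 2 ^ n : ℝ) * ∑ I, Real.exp (f I) := by
  have h1 := convexOn_exp.map_sum_le (t := (Finset.univ : Finset (Finset (Fin n))))
    (w := fun _ => (1 / 2 ^ n : ℝ)) (p := f) (fun _ _ => by positivity) (by
      rw [Finset.sum_const, Finset.card_univ, Fintype.card_finset, Fintype.card_fin,
        nsmul_eq_mul]
      push_cast
      rw [mul_one_div]
      exact div_self (by positivity)) (fun _ _ => Set.mem_univ _)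
  simp only [smul_eq_mul] at h1
  rw [← Finset.mul_sum, ← Finset.mul_sum] at h1
  exact h1

end Pool.Agent.MP_2a72d7_pr.Pos
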