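import Mathlib
import Pool.Agent.MP_2a72d7_pr.Defs
import Pool.Agent.MP_2a72d7_pr.Sm.Base
import Pool.Agent.MP_2a72d7_pr.Pos.Base

namespace Pool.Agent.MP_2a72d7_pr.Pos

open MeasureTheory Matrix Pool.Agent.MP_2a72d7_pr.Sm

theorem cosh1_hasSum (q : ℝ) (hq : 0 ≤ q) :
    HasSum (fun n : ℕ => q ^ n / ((2 * n).factorial : ℝ)) (Real.cosh (√q)) := by
  have h := Real.hasSum_cosh (√q)
  have e : (fun n : ℕ => (√q) ^ (2 * n) / ((2 * n).factorial : ℝ)) =
      fun n : ℕ => q ^ n / ((2 * n).factorial : ℝ) := by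
    funext n
    rw [pow_mul, Real.sq_sqrt hq]
  rw [e] at h
  exact h

/-- `q ↦ cosh √q` is convex on `[0,∞)` (power series with non-negative coefficients:
`Real.hasSum_cosh`, `(√q)^(2n) = q^n`). -/
theorem cosh_sqrt_convex (p q θ : ℝ) (hp : 0 ≤ p) (hq : 0 ≤ q) (h0 : 0 ≤ θ) (h1 : θ ≤ 1) :
    Real.cosh (√(θ * p + (1 - θ) * q)) ≤ θ * Real.cosh (√p) + (1 - θ) * Real.cosh (√q) := by
  have h1' : 0 ≤ 1 - θ := by linarith
  have hA := cosh1_hasSum (θ * p + (1 - θ) * q)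
    (add_nonneg (mul_nonneg h0 hp) (mul_nonneg h1' hq))
  have hB := ((cosh1_hasSum p hp).mul_left θ).add ((cosh1_hasSum q hq).mul_left (1 - θ))
  refine hasSum_le (fun n => ?_) hA hB
  have hc := (convexOn_pow n).2 (x := p) (y := q) hp hq h0 h1' (by ring)
  simp only [smul_eq_mul] at hc
  have hf : (0 : ℝ) < ((2 * n).factorial : ℝ) := by positivity
  calc (θ * p + (1 - θ) * q) ^ n / ((2 * n).factorial : ℝ)
      ≤ (θ * p ^ n + (1 - θ) * q ^ n) / ((2 * n).factorial : ℝ) :=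
        div_le_div_of_nonneg_right hc hf.le
    _ = θ * (p ^ n / ((2 * n).factorial : ℝ)) + (1 - θ) * (q ^ n / ((2 * n).factorial : ℝ)) := by
        ring

end Pool.Agent.MP_2a72d7_pr.Pos
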