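import Mathlib
import Pool.Agent.MP_2a72d7_pr.Defs
import Pool.Agent.MP_2a72d7_pr.Sm.Base
import Pool.Agent.MP_2a72d7_pr.Pos.Base
import Pool.Agent.MP_2a72d7_pr.Pos.R_cosh1

namespace Pool.Agent.MP_2a72d7_pr.Pos

open MeasureTheory Matrix Pool.Agent.MP_2a72d7_pr.Sm

/-- Pointwise inequality: there is `p ∈ [0,1]` depending only on `a, Z` such that
`cosh ‖a + yZ‖ ≤ cosh ‖a‖ (p e^{y‖Z‖} + (1-p) e^{-y‖Z‖})` for all real `y`.
Proof: `c = ⟨a,Z⟩/(‖a‖‖Z‖)`, `‖a+yZ‖² = (1+c)/2 (‖a‖+y‖Z‖)² + (1-c)/2 (‖a‖-y‖Z‖)²`,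
`cosh_sqrt_convex`, addition theorem, `p = (1 + c tanh ‖a‖)/2` (degenerate cases `a = 0` or
`Z = 0`: `p = 1/2`). -/
theorem cosh_add_smul {H : Type*} [NormedAddCommGroup H] [InnerProductSpace ℝ H] (a Z : H) :
    ∃ p : ℝ, 0 ≤ p ∧ p ≤ 1 ∧ ∀ y : ℝ,
    Real.cosh ‖a + y • Z‖ ≤ Real.cosh ‖a‖ *
      (p * Real.exp (y * ‖Z‖) + (1 - p) * Real.exp (-(y * ‖Z‖))) := by
  set c : ℝ := inner ℝ a Z / (‖a‖ * ‖Z‖) with hc
  have hc1 : |c| ≤ 1 := abs_real_inner_div_norm_mul_norm_le_one a Z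
  have hcs : c * (‖a‖ * ‖Z‖) = inner ℝ a Z := by
    by_cases h : ‖a‖ * ‖Z‖ = 0
    · rw [h, mul_zero]
      rcases mul_eq_zero.mp h with h0 | h0
      · rw [norm_eq_zero.mp h0, inner_zero_left]
      · rw [norm_eq_zero.mp h0, inner_zero_right]
    · rw [hc]
      exact div_mul_cancel₀ _ h
  obtain ⟨hcl, hcu⟩ := abs_le.mp hc1
  have hch : 0 < Real.cosh ‖a‖ := Real.cosh_pos _
  have ht1 : |Real.tanh ‖a‖| ≤ 1 := by
    rw [abs_le]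
    constructor
    · rw [Real.tanh_eq_sinh_div_cosh, le_div_iff₀ hch]
      have h := Real.exp_pos ‖a‖
      rw [← Real.cosh_add_sinh] at h
      linarith
    · rw [Real.tanh_eq_sinh_div_cosh, div_le_iff₀ hch]
      have h := Real.exp_pos (-‖a‖)
      rw [← Real.cosh_sub_sinh] at h
      linarith
  have hct : |c * Real.tanh ‖a‖| ≤ 1 := by
    rw [abs_mul]
    exact mul_le_one₀ hc1 (abs_nonneg _) ht1
  obtain ⟨h1, h2⟩ := abs_le.mp hct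
  refine ⟨(1 + c * Real.tanh ‖a‖) / 2, by linarith, by linarith, fun y => ?_⟩
  set t : ℝ := y * ‖Z‖ with ht
  have hsq : ‖a + y • Z‖ ^ 2 = (1 + c) / 2 * (‖a‖ + t) ^ 2 +
      (1 - (1 + c) / 2) * (‖a‖ - t) ^ 2 := by
    rw [norm_add_sq_real, inner_smul_right, norm_smul, ← hcs, mul_pow, Real.norm_eq_abs,
      sq_abs, ht]
    ring
  have hn : ‖a + y • Z‖ = Real.sqrt ((1 + c) / 2 * (‖a‖ + t) ^ 2 +
      (1 - (1 + c) / 2) * (‖a‖ - t) ^ 2) := by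
    rw [← hsq, Real.sqrt_sq (norm_nonneg _)]
  have hcv := cosh_sqrt_convex ((‖a‖ + t) ^ 2) ((‖a‖ - t) ^ 2) ((1 + c) / 2)
    (sq_nonneg _) (sq_nonneg _) (by linarith) (by linarith)
  rw [← hn, Real.sqrt_sq_eq_abs, Real.sqrt_sq_eq_abs, Real.cosh_abs, Real.cosh_abs,
    Real.cosh_add, Real.cosh_sub] at hcv
  refine hcv.trans (le_of_eq ?_)
  have hsh : Real.tanh ‖a‖ * Real.cosh ‖a‖ = Real.sinh ‖a‖ := by
    rw [Real.tanh_eq_sinh_div_cosh]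
    exact div_mul_cancel₀ _ hch.ne'
  rw [← Real.cosh_add_sinh t, ← Real.cosh_sub_sinh t, ← hsh]
  ring

end Pool.Agent.MP_2a72d7_pr.Pos
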