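import Mathlib
import Pool.Agent.MP_2a72d7_pr.Defs
import Pool.Agent.MP_2a72d7_pr.Sm.Base
import Pool.Agent.MP_2a72d7_pr.Pos.Base
import Pool.Agent.MP_2a72d7_pr.Pos.R_cosh2

namespace Pool.Agent.MP_2a72d7_pr.Pos

open MeasureTheory Matrix Pool.Agent.MP_2a72d7_pr.Sm

theorem coshsum_one {H : Type*} [NormedAddCommGroup H] [InnerProductSpace ℝ H]
    (μ : Measure ℝ) (φ : ℝ → ℝ) (hφ : Continuous φ) (c t₀ : ℝ)
    (hm : ∀ t, |t| ≤ t₀ → ∫⁻ x, ENNReal.ofReal (Real.exp (t * φ x)) ∂μ ≤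
      ENNReal.ofReal (Real.exp (c * t ^ 2)))
    (a Z : H) (hZ : ‖Z‖ ≤ t₀) :
    ∫⁻ x, ENNReal.ofReal (Real.cosh ‖a + φ x • Z‖) ∂μ ≤
      ENNReal.ofReal (Real.cosh ‖a‖ * Real.exp (c * ‖Z‖ ^ 2)) := by
  obtain ⟨p, hp0, hp1, hp⟩ := cosh_add_smul a Z
  have hc0 : 0 ≤ Real.cosh ‖a‖ := (Real.cosh_pos _).le
  have hA : 0 ≤ Real.cosh ‖a‖ * p := mul_nonneg hc0 hp0
  have hB : 0 ≤ Real.cosh ‖a‖ * (1 - p) := mul_nonneg hc0 (by linarith)
  have m1 : Measurable fun x => ENNReal.ofReal (Real.exp (‖Z‖ * φ x)) := by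
    have := hφ.measurable
    fun_prop
  have m2 : Measurable fun x => ENNReal.ofReal (Real.exp (-‖Z‖ * φ x)) := by
    have := hφ.measurable
    fun_prop
  have h1 := hm ‖Z‖ (by rw [abs_of_nonneg (norm_nonneg _)]; exact hZ)
  have h2 := hm (-‖Z‖) (by rw [abs_neg, abs_of_nonneg (norm_nonneg _)]; exact hZ)
  rw [neg_sq] at h2
  calc ∫⁻ x, ENNReal.ofReal (Real.cosh ‖a + φ x • Z‖) ∂μ
      ≤ ∫⁻ x, (ENNReal.ofReal (Real.cosh ‖a‖ * p) * ENNReal.ofReal (Real.exp (‖Z‖ * φ x)) +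
          ENNReal.ofReal (Real.cosh ‖a‖ * (1 - p)) *
            ENNReal.ofReal (Real.exp (-‖Z‖ * φ x))) ∂μ := by
        refine lintegral_mono fun x => ?_
        rw [← ENNReal.ofReal_mul hA, ← ENNReal.ofReal_mul hB,
          ← ENNReal.ofReal_add (mul_nonneg hA (Real.exp_pos _).le)
            (mul_nonneg hB (Real.exp_pos _).le)]
        refine ENNReal.ofReal_le_ofReal ((hp (φ x)).trans (le_of_eq ?_))
        rw [mul_comm (φ x) ‖Z‖, ← neg_mul]
        ring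
    _ = ENNReal.ofReal (Real.cosh ‖a‖ * p) * ∫⁻ x, ENNReal.ofReal (Real.exp (‖Z‖ * φ x)) ∂μ +
          ENNReal.ofReal (Real.cosh ‖a‖ * (1 - p)) *
            ∫⁻ x, ENNReal.ofReal (Real.exp (-‖Z‖ * φ x)) ∂μ := by
        rw [lintegral_add_left (m1.const_mul _), lintegral_const_mul _ m1,
          lintegral_const_mul _ m2]
    _ ≤ ENNReal.ofReal (Real.cosh ‖a‖ * p) * ENNReal.ofReal (Real.exp (c * ‖Z‖ ^ 2)) +
          ENNReal.ofReal (Real.cosh ‖a‖ * (1 - p)) * ENNReal.ofReal (Real.exp (c * ‖Z‖ ^ 2)) :=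
        add_le_add (mul_le_mul_right h1 _) (mul_le_mul_right h2 _)
    _ = ENNReal.ofReal (Real.cosh ‖a‖ * Real.exp (c * ‖Z‖ ^ 2)) := by
        rw [← add_mul, ← ENNReal.ofReal_add hA hB, ← ENNReal.ofReal_mul (by linarith)]
        congr 1
        ring

theorem coshsum_aux {H : Type*} [NormedAddCommGroup H] [InnerProductSpace ℝ H] (c t₀ : ℝ) :
    ∀ (n : ℕ) (μ : Fin n → Measure ℝ) (_ : ∀ i, IsProbabilityMeasure (μ i))
    (φ : Fin n → ℝ → ℝ) (_ : ∀ i, Continuous (φ i))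
    (_ : ∀ i t, |t| ≤ t₀ → ∫⁻ x, ENNReal.ofReal (Real.exp (t * φ i x)) ∂(μ i) ≤
      ENNReal.ofReal (Real.exp (c * t ^ 2)))
    (a : H) (Z : Fin n → H) (_ : ∀ i, ‖Z i‖ ≤ t₀),
    ∫⁻ x, ENNReal.ofReal (Real.cosh ‖a + ∑ i, φ i (x i) • Z i‖) ∂(Measure.pi μ) ≤
      ENNReal.ofReal (Real.cosh ‖a‖ * Real.exp (c * ∑ i, ‖Z i‖ ^ 2)) := by
  intro n
  induction n with
  | zero =>
    intro μ hμ φ hφ hm a Z hZ
    simp only [Finset.univ_eq_empty, Finset.sum_empty, add_zero, mul_zero, Real.exp_zero, mul_one]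
    rw [lintegral_const, measure_univ, mul_one]
  | succ n ih =>
    intro μ hμ φ hφ hm a Z hZ
    have hmp := (measurePreserving_piFinSuccAbove μ 0).symm
    have hcont : Continuous fun x : Fin (n + 1) → ℝ => ‖a + ∑ i, φ i (x i) • Z i‖ := by
      refine (continuous_const.add (continuous_finsetSum _ fun i _ => ?_)).norm
      exact ((hφ i).comp (continuous_apply i)).smul continuous_const
    have hmeas : Measurable fun x : Fin (n + 1) → ℝ =>
        ENNReal.ofReal (Real.cosh ‖a + ∑ i, φ i (x i) • Z i‖) :=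
      (Real.continuous_cosh.comp hcont).measurable.ennreal_ofReal
    have hmeas2 := hmeas.comp hmp.measurable
    simp only [Function.comp_def] at hmeas2
    rw [← hmp.lintegral_comp hmeas, lintegral_prod _ hmeas2.aemeasurable]
    set K : ℝ := Real.exp (c * ∑ i : Fin n, ‖Z i.succ‖ ^ 2) with hK
    have hK0 : 0 ≤ K := (Real.exp_pos _).le
    calc _ ≤ ∫⁻ x, ENNReal.ofReal (Real.cosh ‖a + φ 0 x • Z 0‖) * ENNReal.ofReal K ∂(μ 0) := by
          refine lintegral_mono fun x => ?_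
          have h1 := ih (fun j => μ ((0 : Fin (n + 1)).succAbove j)) (fun j => hμ _)
            (fun i => φ i.succ) (fun i => hφ _) (fun i t ht => hm i.succ t ht)
            (a + φ 0 x • Z 0) (fun i => Z i.succ) (fun i => hZ _)
          rw [ENNReal.ofReal_mul (Real.cosh_pos _).le] at h1
          refine le_trans (le_of_eq ?_) h1
          refine lintegral_congr fun y => ?_
          have e1 : (MeasurableEquiv.piFinSuccAbove (fun _ => ℝ) 0).symm (x, y)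
              = (Fin.cons x y : Fin (n + 1) → ℝ) := by
            funext i
            refine Fin.cases ?_ (fun i => ?_) i
            · simp [MeasurableEquiv.piFinSuccAbove]
            · simp [MeasurableEquiv.piFinSuccAbove]
          rw [e1, Fin.sum_univ_succ]
          simp only [Fin.cons_zero, Fin.cons_succ]
          rw [add_assoc]
      _ = (∫⁻ x, ENNReal.ofReal (Real.cosh ‖a + φ 0 x • Z 0‖) ∂(μ 0)) * ENNReal.ofReal K := by
          refine lintegral_mul_const _ ?_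
          have h2 : Continuous fun x : ℝ => ‖a + φ 0 x • Z 0‖ :=
            (continuous_const.add ((hφ 0).smul continuous_const)).norm
          exact (Real.continuous_cosh.comp h2).measurable.ennreal_ofReal
      _ ≤ ENNReal.ofReal (Real.cosh ‖a‖ * Real.exp (c * ‖Z 0‖ ^ 2)) * ENNReal.ofReal K :=
          mul_le_mul_left (coshsum_one (μ 0) (φ 0) (hφ 0) c t₀ (hm 0) a (Z 0) (hZ 0)) _
      _ = _ := by
          rw [← ENNReal.ofReal_mul (mul_nonneg (Real.cosh_pos _).le (Real.exp_pos _).le)]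
          congr 1
          rw [hK, mul_assoc, ← Real.exp_add, Fin.sum_univ_succ]
          congr 2
          ring

/-- Sums of vectors with independent random scalar coefficients `φᵢ(xᵢ)`:
`E cosh ‖a + ∑ φᵢ(xᵢ) Zᵢ‖ ≤ cosh ‖a‖ · exp(c ∑ ‖Zᵢ‖²)` provided `E exp(t φᵢ(xᵢ)) ≤ exp(c t²)`
for `|t| ≤ t₀` and `‖Zᵢ‖ ≤ t₀`.  Proof: induction on `n`
(`MeasureTheory.measurePreserving_piFinSuccAbove`), one coordinate by `cosh_add_smul`. -/
theorem cosh_sum {H : Type*} [NormedAddCommGroup H] [InnerProductSpace ℝ H]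
    {n : ℕ} (μ : Fin n → Measure ℝ) [∀ i, IsProbabilityMeasure (μ i)]
    (φ : Fin n → ℝ → ℝ) (hφ : ∀ i, Continuous (φ i)) (c t₀ : ℝ)
    (hm : ∀ i t, |t| ≤ t₀ → ∫⁻ x, ENNReal.ofReal (Real.exp (t * φ i x)) ∂(μ i) ≤
      ENNReal.ofReal (Real.exp (c * t ^ 2)))
    (a : H) (Z : Fin n → H) (hZ : ∀ i, ‖Z i‖ ≤ t₀) :
    ∫⁻ x, ENNReal.ofReal (Real.cosh ‖a + ∑ i, φ i (x i) • Z i‖) ∂(Measure.pi μ) ≤
      ENNReal.ofReal (Real.cosh ‖a‖ * Real.exp (c * ∑ i, ‖Z i‖ ^ 2)) := by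

  exact coshsum_aux c t₀ n μ (fun i => inferInstance) φ hφ hm a Z hZ

end Pool.Agent.MP_2a72d7_pr.Pos
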