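import Mathlib
import Pool.Agent.MP_2a72d7_pr.Defs
import Pool.Agent.MP_2a72d7_pr.Sm.Base
import Pool.Agent.MP_2a72d7_pr.Pos.Base

namespace Pool.Agent.MP_2a72d7_pr.Pos

open MeasureTheory Matrix Pool.Agent.MP_2a72d7_pr.Sm

theorem cs_ofReal_exp_sq (a : ℝ) :
    ENNReal.ofReal (Real.exp a) ^ (2 : ℝ) = ENNReal.ofReal (Real.exp (2 * a)) := by
  rw [ENNReal.ofReal_rpow_of_pos (Real.exp_pos a), ← Real.exp_mul, mul_comm a 2]

theorem cs_sqrt (A : ℝ) (hA : 0 ≤ A) :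
    ENNReal.ofReal (A ^ 2) ^ (1 / (2 : ℝ)) = ENNReal.ofReal A := by
  rw [ENNReal.ofReal_rpow_of_nonneg (by positivity) (by norm_num), ← Real.sqrt_eq_rpow,
    Real.sqrt_sq hA]

/-- Cauchy-Schwarz for `lintegral` of exponentials:
`∫⁻ e^(f+g) ≤ (∫⁻ e^(2f))^(1/2) (∫⁻ e^(2g))^(1/2)`, in the form with explicit bounds. -/
theorem cs_exp {α : Type*} [MeasurableSpace α] (μ : Measure α) (f g : α → ℝ)
    (hf : Measurable f) (hg : Measurable g) (A B : ℝ) (hA : 0 ≤ A) (hB : 0 ≤ B)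
    (h1 : ∫⁻ x, ENNReal.ofReal (Real.exp (2 * f x)) ∂μ ≤ ENNReal.ofReal (A ^ 2))
    (h2 : ∫⁻ x, ENNReal.ofReal (Real.exp (2 * g x)) ∂μ ≤ ENNReal.ofReal (B ^ 2)) :
    ∫⁻ x, ENNReal.ofReal (Real.exp (f x + g x)) ∂μ ≤ ENNReal.ofReal (A * B) := by
  have key := ENNReal.lintegral_mul_le_Lp_mul_Lq μ (p := 2) (q := 2)
    (f := fun x => ENNReal.ofReal (Real.exp (f x))) (g := fun x => ENNReal.ofReal (Real.exp (g x)))
    Real.HolderConjugate.two_two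
    (by fun_prop) (by fun_prop)
  have e0 : ∀ x, ENNReal.ofReal (Real.exp (f x + g x)) =
      ((fun x => ENNReal.ofReal (Real.exp (f x))) * (fun x => ENNReal.ofReal (Real.exp (g x)))) x := by
    intro x
    simp only [Pi.mul_apply]
    rw [Real.exp_add, ENNReal.ofReal_mul (Real.exp_pos _).le]
  have e1 : ∀ x, ENNReal.ofReal (Real.exp (f x)) ^ (2 : ℝ) =
      ENNReal.ofReal (Real.exp (2 * f x)) := fun x => cs_ofReal_exp_sq _
  have e2 : ∀ x, ENNReal.ofReal (Real.exp (g x)) ^ (2 : ℝ) =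
      ENNReal.ofReal (Real.exp (2 * g x)) := fun x => cs_ofReal_exp_sq _
  simp only [e1, e2] at key
  calc ∫⁻ x, ENNReal.ofReal (Real.exp (f x + g x)) ∂μ
      = ∫⁻ x, ((fun x => ENNReal.ofReal (Real.exp (f x))) *
          (fun x => ENNReal.ofReal (Real.exp (g x)))) x ∂μ := by
        exact lintegral_congr e0
    _ ≤ _ := key
    _ ≤ ENNReal.ofReal (A ^ 2) ^ (1 / (2 : ℝ)) * ENNReal.ofReal (B ^ 2) ^ (1 / (2 : ℝ)) := by
        gcongr
    _ = ENNReal.ofReal (A * B) := by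
        rw [cs_sqrt A hA, cs_sqrt B hB, ENNReal.ofReal_mul hA]

end Pool.Agent.MP_2a72d7_pr.Pos
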