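import Mathlib
import Pool.Agent.MP_2a72d7_pr.Defs
import Pool.Agent.MP_2a72d7_pr.Sm.Base
import Pool.Agent.MP_2a72d7_pr.Pos.Base
import Pool.Agent.MP_2a72d7_pr.Sm.P_con1

namespace Pool.Agent.MP_2a72d7_pr.Pos

open MeasureTheory Matrix Pool.Agent.MP_2a72d7_pr.Sm

theorem ctrn_mul {n : ℕ} {κ : Type*} [Fintype κ] (Q : Matrix (Fin n × κ) (Fin n × κ) ℝ)
    (x : Fin n → ℝ) (v : κ → ℝ) (j : κ) :
    (con Q x *ᵥ v) j = ∑ i, x i * (Q *ᵥ fun p => x p.1 * v p.2) (i, j) := by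
  unfold con
  simp only [mulVec, dotProduct, of_apply, Finset.mul_sum, Finset.sum_mul, Fintype.sum_prod_type]
  rw [Finset.sum_comm]
  refine Finset.sum_congr rfl fun i _ => ?_
  rw [Finset.sum_comm]
  refine Finset.sum_congr rfl fun i' _ => Finset.sum_congr rfl fun j' _ => ?_
  ring

theorem ctrn_quad_smul {κ : Type*} [Fintype κ] (c : ℝ) (B : Matrix κ κ ℝ) (v : κ → ℝ) :
    quad (c • B) v = c * quad B v := by
  unfold quad
  rw [smul_mulVec, dotProduct_smul, smul_eq_mul]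

/-- The normalised contraction of a `Ctr` matrix is `Ctr`: for `x ≠ 0`, `R = VᵀQV` with the
isometry `V w = (x/‖x‖) ⊗ w`; `‖Rw‖ ≤ ‖QVw‖`, `⟨w,Rw⟩ = ⟨Vw,QVw⟩`.  For `x = 0`, `R = 0`. -/
theorem ctr_ncon {n : ℕ} {κ : Type*} [Fintype κ] [DecidableEq κ]
    (Q : Matrix (Fin n × κ) (Fin n × κ) ℝ) (hQ : Ctr Q) (x : Fin n → ℝ) : Ctr (ncon Q x) := by
  have hN0 : 0 ≤ ∑ i, x i ^ 2 := Finset.sum_nonneg fun i _ => sq_nonneg _
  constructor
  · intro j j'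
    unfold ncon
    rw [Matrix.smul_apply, Matrix.smul_apply]
    congr 1
    unfold con
    rw [of_apply, of_apply, Finset.sum_comm]
    refine Finset.sum_congr rfl fun i _ => Finset.sum_congr rfl fun i' _ => ?_
    rw [hQ.symm (i', j) (i, j')]
    ring
  · intro v
    unfold ncon
    rw [ctrn_quad_smul, quad_con]
    have h1 := hQ.le (fun p => x p.1 * v p.2)
    set u : Fin n × κ → ℝ := fun p => x p.1 * v p.2 with hu
    have h2 : ∑ j, (con Q x *ᵥ v) j ^ 2 ≤ (∑ i, x i ^ 2) * ∑ p, (Q *ᵥ u) p ^ 2 := by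
      rw [Fintype.sum_prod_type, Finset.sum_comm, Finset.mul_sum]
      refine Finset.sum_le_sum fun j _ => ?_
      rw [ctrn_mul]
      exact Finset.sum_mul_sq_le_sq_mul_sq _ _ _
    have h3 : ∀ j, (((∑ i, x i ^ 2)⁻¹ • con Q x) *ᵥ v) j ^ 2 =
        ((∑ i, x i ^ 2)⁻¹) ^ 2 * (con Q x *ᵥ v) j ^ 2 := by
      intro j
      rw [smul_mulVec, Pi.smul_apply, smul_eq_mul, mul_pow]
    rw [Finset.sum_congr rfl fun j _ => h3 j, ← Finset.mul_sum]
    rcases hN0.eq_or_lt with hN | hN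
    · rw [← hN]
      simp
    · calc ((∑ i, x i ^ 2)⁻¹) ^ 2 * ∑ j, (con Q x *ᵥ v) j ^ 2
          ≤ ((∑ i, x i ^ 2)⁻¹) ^ 2 * ((∑ i, x i ^ 2) * quad Q u) := by
            apply mul_le_mul_of_nonneg_left _ (sq_nonneg _)
            exact h2.trans (mul_le_mul_of_nonneg_left h1 hN0)
        _ = (∑ i, x i ^ 2)⁻¹ * quad Q u := by
            field_simp

end Pool.Agent.MP_2a72d7_pr.Pos
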