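import Mathlib
import Pool.Agent.MP_2a72d7_pr.Defs
import Pool.Agent.MP_2a72d7_pr.Sm.Base
import Pool.Agent.MP_2a72d7_pr.Pos.Base
import Pool.Agent.MP_2a72d7_pr.Pos.R_blk

namespace Pool.Agent.MP_2a72d7_pr.Pos

open MeasureTheory Matrix Pool.Agent.MP_2a72d7_pr.Sm

theorem cvsq_qv {n : ℕ} (hn : 0 < n) {κ : Type*} [Fintype κ] [DecidableEq κ] [Nonempty κ]
    (Q : Matrix (Fin n × κ) (Fin n × κ) ℝ) :
    ∑ i, ∑ j, ‖qv Q i j‖ ^ 2 = n * beta Q := by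
  have hk : (0 : ℝ) < Fintype.card κ := by exact_mod_cast Fintype.card_pos
  have hn' : (0 : ℝ) < n := by exact_mod_cast hn
  have h1 : ∀ i j : Fin n, ‖qv Q i j‖ ^ 2 = (∑ a : κ, ∑ b : κ, Q (i, a) (j, b) ^ 2) / Fintype.card κ := by
    intro i j
    rw [EuclideanSpace.norm_sq_eq, Fintype.sum_prod_type, Finset.sum_div]
    refine Finset.sum_congr rfl fun a _ => ?_
    rw [Finset.sum_div]
    refine Finset.sum_congr rfl fun b _ => ?_
    rw [Real.norm_eq_abs, sq_abs]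
    change (Q (i, a) (j, b) / √(Fintype.card κ : ℝ)) ^ 2 = _
    rw [div_pow, Real.sq_sqrt hk.le]
  have h2 : ∑ i : Fin n, ∑ j : Fin n, ‖qv Q i j‖ ^ 2 =
      (∑ i : Fin n, ∑ j : Fin n, ∑ a : κ, ∑ b : κ, Q (i, a) (j, b) ^ 2) / Fintype.card κ := by
    rw [Finset.sum_div]
    refine Finset.sum_congr rfl fun i _ => ?_
    rw [Finset.sum_div]
    exact Finset.sum_congr rfl fun j _ => h1 i j
  have h3 : ∑ p : Fin n × κ, ∑ q : Fin n × κ, Q p q ^ 2 =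
      ∑ i : Fin n, ∑ j : Fin n, ∑ a : κ, ∑ b : κ, Q (i, a) (j, b) ^ 2 := by
    rw [Fintype.sum_prod_type]
    refine Finset.sum_congr rfl fun i _ => ?_
    rw [Finset.sum_comm]
    rw [Fintype.sum_prod_type]
    refine Finset.sum_congr rfl fun j _ => ?_
    rw [Finset.sum_comm]
  rw [h2]
  unfold beta
  rw [h3, Fintype.card_prod, Fintype.card_fin]
  push_cast
  field_simp

/-- `∑_ij ‖c_ij‖² = n β(Q) - n ‖q̄‖²`. -/
theorem cv_sq {n : ℕ} (hn : 0 < n) {κ : Type*} [Fintype κ] [DecidableEq κ] [Nonempty κ]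
    (Q : Matrix (Fin n × κ) (Fin n × κ) ℝ) :
    ∑ i, ∑ j, ‖cv Q i j‖ ^ 2 = n * beta Q - n * ‖qb Q‖ ^ 2 := by
  have hn' : (n : ℝ) ≠ 0 := by exact_mod_cast hn.ne'
  have h1 : ∀ i j : Fin n, ‖cv Q i j‖ ^ 2 = ‖qv Q i j‖ ^ 2 +
      if i = j then (‖qb Q‖ ^ 2 - 2 * inner ℝ (qv Q i i) (qb Q)) else 0 := by
    intro i j
    unfold cv
    by_cases h : i = j
    · subst h
      rw [if_pos rfl, if_pos rfl, norm_sub_sq_real]
      ring
    · rw [if_neg h, if_neg h, sub_zero, add_zero]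
  have h2 : ∑ i, qv Q i i = (n : ℝ) • qb Q := by
    unfold qb
    rw [smul_smul, mul_one_div_cancel hn', one_smul]
  have h3 : ∑ i : Fin n, inner ℝ (qv Q i i) (qb Q) = n * ‖qb Q‖ ^ 2 := by
    rw [← sum_inner, h2, real_inner_smul_left, real_inner_self_eq_norm_sq]
  have h4 : ∑ i : Fin n, ∑ j : Fin n, ‖cv Q i j‖ ^ 2 = ∑ i, ∑ j, ‖qv Q i j‖ ^ 2 +
      ∑ i : Fin n, (‖qb Q‖ ^ 2 - 2 * inner ℝ (qv Q i i) (qb Q)) := by
    rw [← Finset.sum_add_distrib]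
    refine Finset.sum_congr rfl fun i _ => ?_
    rw [Finset.sum_congr rfl fun j _ => h1 i j, Finset.sum_add_distrib, Finset.sum_ite_eq, if_pos (Finset.mem_univ _)]
  rw [h4, cvsq_qv hn, Finset.sum_sub_distrib, Finset.sum_const, Finset.card_univ, Fintype.card_fin, ← Finset.mul_sum, h3,
    nsmul_eq_mul]
  ring

end Pool.Agent.MP_2a72d7_pr.Pos
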