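import Mathlib
import Pool.Agent.MP_2a72d7_pr.Defs
import Pool.Agent.MP_2a72d7_pr.Sm.Base
import Pool.Agent.MP_2a72d7_pr.Pos.Base
import Pool.Agent.MP_2a72d7_pr.Pos.R_blk

namespace Pool.Agent.MP_2a72d7_pr.Pos

open MeasureTheory Matrix Pool.Agent.MP_2a72d7_pr.Sm

/-- a matrix as a vector of the space with the normalised Frobenius norm -/
private noncomputable def taub_mv {κ : Type*} [Fintype κ] (R : Matrix κ κ ℝ) :
    EuclideanSpace ℝ (κ × κ) :=
  WithLp.toLp 2 fun p => R p.1 p.2 / √(Fintype.card κ : ℝ)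

private lemma taub_inner {κ : Type*} [Fintype κ] [DecidableEq κ] [Nonempty κ]
    (R : Matrix κ κ ℝ) : inner ℝ (ov κ) (taub_mv R) = tau R := by
  have hN : (0 : ℝ) < Fintype.card κ := by exact_mod_cast Fintype.card_pos
  rw [PiLp.inner_apply]
  simp only [ov, taub_mv, tau]
  rw [Fintype.sum_prod_type, Finset.sum_div]
  refine Finset.sum_congr rfl fun a _ => ?_
  rw [Finset.sum_eq_single a]
  · simp only [if_true]
    rw [real_inner_eq_re_inner]
    simp only [RCLike.inner_apply, conj_trivial, RCLike.re_to_real]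
    rw [div_mul_div_comm, mul_one, Real.mul_self_sqrt hN.le]
  · intro b _ hb
    rw [if_neg (Ne.symm hb)]
    simp
  · simp

private lemma taub_norm {κ : Type*} [Fintype κ] [DecidableEq κ] [Nonempty κ]
    (R : Matrix κ κ ℝ) : ‖taub_mv R‖ ^ 2 = beta R := by
  have hN : (0 : ℝ) < Fintype.card κ := by exact_mod_cast Fintype.card_pos
  rw [EuclideanSpace.real_norm_sq_eq]
  simp only [taub_mv, beta]
  rw [Fintype.sum_prod_type, Finset.sum_div]
  refine Finset.sum_congr rfl fun a _ => ?_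
  rw [Finset.sum_div]
  refine Finset.sum_congr rfl fun b _ => ?_
  rw [div_pow, Real.sq_sqrt hN.le]

private lemma taub_sum {n : ℕ} (hn : 0 < n) {κ : Type*} [Fintype κ] [DecidableEq κ] [Nonempty κ]
    (Q : Matrix (Fin n × κ) (Fin n × κ) ℝ) (x : Fin n → ℝ) (hx : ∑ i, x i ^ 2 ≠ 0) :
    qb Q + (n / ∑ i, x i ^ 2 : ℝ) • E0 Q x = taub_mv (ncon Q x) := by
  have hn' : (n : ℝ) ≠ 0 := by positivity
  have e1 : ∑ i, ∑ j, (x i * x j) • cv Q i j =
      (∑ i, ∑ j, (x i * x j) • qv Q i j) - (∑ i, x i ^ 2) • qb Q := by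
    rw [Finset.sum_smul, ← Finset.sum_sub_distrib]
    refine Finset.sum_congr rfl fun i _ => ?_
    have : ∀ j, (x i * x j) • cv Q i j =
        (x i * x j) • qv Q i j - if i = j then (x i ^ 2) • qb Q else 0 := by
      intro j
      unfold cv
      rw [smul_sub]
      congr 1
      split_ifs with h
      · subst h; rw [pow_two]
      · rw [smul_zero]
    simp only [this]
    rw [Finset.sum_sub_distrib, Finset.sum_ite_eq]
    simp
  have e2 : qb Q + (n / ∑ i, x i ^ 2 : ℝ) • E0 Q x =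
      (∑ i, x i ^ 2)⁻¹ • ∑ i, ∑ j, (x i * x j) • qv Q i j := by
    unfold E0
    rw [e1, smul_smul, smul_sub, smul_smul]
    have a1 : (n / ∑ i, x i ^ 2 : ℝ) * (1 / n) = (∑ i, x i ^ 2)⁻¹ := by field_simp
    rw [a1, inv_mul_cancel₀ hx, one_smul]
    abel
  rw [e2]
  ext p
  simp only [taub_mv, ncon, con, Matrix.smul_apply, Matrix.of_apply, smul_eq_mul,
    PiLp.smul_apply, WithLp.ofLp_sum, Finset.sum_apply, WithLp.ofLp_smul, Pi.smul_apply, qv]
  rw [mul_div_assoc, Finset.sum_div]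
  congr 1
  refine Finset.sum_congr rfl fun i _ => ?_
  rw [Finset.sum_div]
  refine Finset.sum_congr rfl fun j _ => ?_
  rw [mul_div_assoc]

/-- `τ(Q) = ⟨1, q̄⟩`, and for `ρ = ‖x‖² ≠ 0`, with `E = (n/ρ) E₀`:
`τ(R) = ⟨1, q̄ + E⟩`, `β(R) = ‖q̄ + E‖²` (since `∑_ij xᵢxⱼ q_ij = ρ q̄ + ∑_ij xᵢxⱼ c_ij`). -/
theorem tau_beta {n : ℕ} (hn : 0 < n) {κ : Type*} [Fintype κ] [DecidableEq κ] [Nonempty κ]
    (Q : Matrix (Fin n × κ) (Fin n × κ) ℝ) (x : Fin n → ℝ) (hx : ∑ i, x i ^ 2 ≠ 0) :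
    tau Q = inner ℝ (ov κ) (qb Q) ∧
    tau (ncon Q x) = inner ℝ (ov κ) (qb Q + (n / ∑ i, x i ^ 2 : ℝ) • E0 Q x) ∧
    beta (ncon Q x) = ‖qb Q + (n / ∑ i, x i ^ 2 : ℝ) • E0 Q x‖ ^ 2 := by
  refine ⟨?_, ?_, ?_⟩
  · unfold qb
    rw [inner_smul_right, inner_sum]
    have hq : ∀ i : Fin n, qv Q i i = taub_mv (Matrix.of fun a b => Q (i, a) (i, b)) := by
      intro i; rfl
    have : ∀ i : Fin n, inner ℝ (ov κ) (qv Q i i) = (∑ a, Q (i, a) (i, a)) / Fintype.card κ := by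
      intro i
      rw [hq, taub_inner]
      simp [tau]
    simp only [this]
    rw [← Finset.sum_div, tau, Fintype.sum_prod_type, Fintype.card_prod, Fintype.card_fin]
    push_cast
    rw [one_div, div_mul_eq_div_div_swap]
    ring
  · rw [taub_sum hn Q x hx, taub_inner]
  · rw [taub_sum hn Q x hx, taub_norm]

end Pool.Agent.MP_2a72d7_pr.Pos
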