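import Mathlib
import Pool.Agent.MP_2a72d7_pr.Defs
import Pool.Agent.MP_2a72d7_pr.Sm.Base
import Pool.Agent.MP_2a72d7_pr.Pos.Base
import Pool.Agent.MP_2a72d7_pr.Pos.R_taub
import Pool.Agent.MP_2a72d7_pr.Pos.R_blk

namespace Pool.Agent.MP_2a72d7_pr.Pos

open MeasureTheory Matrix Pool.Agent.MP_2a72d7_pr.Sm

private lemma expo_inner {n : ℕ} (hn : 0 < n) {κ : Type*} [Fintype κ] [DecidableEq κ]
    (Q : Matrix (Fin n × κ) (Fin n × κ) ℝ) (lam gam : ℝ) (x : Fin n → ℝ) :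
    (n : ℝ) * inner ℝ (-(lam • ov κ) + (2 * gam) • qb Q) (E0 Q x) =
      ∑ i, ∑ j, Bm lam gam Q i j * (x i * x j) := by
  have hn' : (n : ℝ) ≠ 0 := by positivity
  unfold E0 Bm
  rw [inner_smul_right, ← mul_assoc, mul_one_div_cancel hn', one_mul, inner_sum]
  refine Finset.sum_congr rfl fun i _ => ?_
  rw [inner_sum]
  refine Finset.sum_congr rfl fun j _ => ?_
  rw [inner_smul_right, mul_comm]

/-- The exponent on the good event.  Proof: `tau_beta`, `ρ = ‖x‖²`, `n/ρ ∈ [1/2, 2]`: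
`-λnτ(R)+γnβ(R) = -λnτ(Q) + γn‖q̄‖² + (n/ρ) n ⟨h,E₀⟩ + γn(n/ρ)²‖E₀‖²`, `h = -λ1+2γq̄`, and
`n⟨h,E₀⟩ = ∑ xᵢxⱼB_ij`. -/
theorem expo {n : ℕ} (hn : 0 < n) {κ : Type*} [Fintype κ] [DecidableEq κ] [Nonempty κ]
    (Q : Matrix (Fin n × κ) (Fin n × κ) ℝ) (lam gam : ℝ) (hl : 0 ≤ lam) (hg : 0 ≤ gam)
    (x : Fin n → ℝ) (h1 : (n : ℝ) / 2 ≤ ∑ i, x i ^ 2) (h2 : ∑ i, x i ^ 2 ≤ 2 * n) :
    -(lam * n * tau (ncon Q x)) + gam * n * beta (ncon Q x) ≤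
      -(lam * n * tau Q) + gam * n * ‖qb Q‖ ^ 2 +
        2 * |∑ i, ∑ j, Bm lam gam Q i j * (x i * x j)| + 4 * gam * n * ‖E0 Q x‖ ^ 2 := by
  have hn0 : (0 : ℝ) < n := by exact_mod_cast hn
  have hr : 0 < ∑ i, x i ^ 2 := by linarith
  obtain ⟨t1, t2, t3⟩ := tau_beta hn Q x hr.ne'
  rw [t2, t3, t1, ← expo_inner hn]
  generalize hE : E0 Q x = E
  generalize hq : qb Q = q
  generalize ho : ov κ = o
  generalize hρ : ∑ i, x i ^ 2 = ρ at *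
  have hs0 : 0 ≤ (n : ℝ) / ρ := by positivity
  have hs2 : (n : ℝ) / ρ ≤ 2 := by
    rw [div_le_iff₀ hr]; linarith
  generalize (n : ℝ) / ρ = s at *
  rw [norm_add_sq_real, inner_add_right, inner_smul_right, inner_smul_right, norm_smul,
    inner_add_left, inner_neg_left, inner_smul_left, inner_smul_left]
  simp only [RCLike.conj_to_real, Real.norm_eq_abs, mul_pow, sq_abs]
  set a : ℝ := inner ℝ o E
  set b : ℝ := inner ℝ q E
  set c : ℝ := inner ℝ o q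
  have e1 : s * (n * (-(lam * a) + 2 * gam * b)) ≤ 2 * |n * (-(lam * a) + 2 * gam * b)| := by
    have u1 : s * (n * (-(lam * a) + 2 * gam * b)) ≤ s * |n * (-(lam * a) + 2 * gam * b)| :=
      mul_le_mul_of_nonneg_left (le_abs_self _) hs0
    have u2 : s * |n * (-(lam * a) + 2 * gam * b)| ≤ 2 * |n * (-(lam * a) + 2 * gam * b)| :=
      mul_le_mul_of_nonneg_right hs2 (abs_nonneg _)
    linarith
  have e2 : s ^ 2 ≤ 4 := by nlinarith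
  have e3 : gam * n * (s ^ 2 * ‖E‖ ^ 2) ≤ 4 * gam * n * ‖E‖ ^ 2 := by
    have : 0 ≤ gam * n * ‖E‖ ^ 2 := by positivity
    nlinarith
  nlinarith

end Pool.Agent.MP_2a72d7_pr.Pos
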