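import Mathlib
import Pool.Agent.MP_2a72d7_pr.Defs
import Pool.Agent.MP_2a72d7_pr.Sm.Base
import Pool.Agent.MP_2a72d7_pr.Pos.Base

namespace Pool.Agent.MP_2a72d7_pr.Pos

open MeasureTheory Matrix Pool.Agent.MP_2a72d7_pr.Sm

/-- Chernoff: the measure of the event `κ n Y² ≥ k` in `S`. -/
theorem expsq_tail {Ω : Type*} [MeasurableSpace Ω] (μ : Measure Ω) (S : Set Ω)
    (hS : MeasurableSet S) (Y : Ω → ℝ) (hY : Measurable Y) (n : ℕ) (hn : 0 < n)
    (C2 t₀ : ℝ) (hC2 : 0 < C2) (h8 : 8 ≤ C2 * t₀) (hY0 : ∀ ω, 0 ≤ Y ω)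
    (hY4 : ∀ ω ∈ S, Y ω ≤ 4)
    (h : ∀ s : ℝ, 0 ≤ s → 4 * s / n ≤ t₀ →
      ∫⁻ ω in S, ENNReal.ofReal (Real.exp (s * Y ω)) ∂μ ≤
        ENNReal.ofReal (2 * Real.exp (C2 * s ^ 2 / n)))
    (κ : ℝ) (hκ : 0 ≤ κ) (hκ2 : 8 * C2 * κ ≤ 1) (k : ℝ) (hk : 0 < k) :
    ∫⁻ ω in S, {ω | k ≤ κ * n * Y ω ^ 2}.indicator (fun _ => (1 : ENNReal)) ω ∂μ ≤
      ENNReal.ofReal (2 * Real.exp (-(2 * k))) := by
  have hn' : (0 : ℝ) < n := by exact_mod_cast hn
  have hzero : (∀ ω ∈ S, κ * n * Y ω ^ 2 < k) →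
      ∫⁻ ω in S, {ω | k ≤ κ * n * Y ω ^ 2}.indicator (fun _ => (1 : ENNReal)) ω ∂μ ≤
      ENNReal.ofReal (2 * Real.exp (-(2 * k))) := by
    intro hz
    have : ∫⁻ ω in S, {ω | k ≤ κ * n * Y ω ^ 2}.indicator (fun _ => (1 : ENNReal)) ω ∂μ
        = ∫⁻ ω in S, 0 ∂μ := by
      refine setLIntegral_congr_fun hS ?_
      intro ω hω
      simp only [Set.indicator, Set.mem_ofPred_eq]
      rw [if_neg (not_le.mpr (hz ω hω))]
    rw [this]
    simp
  rcases hκ.eq_or_lt with hκ0 | hκ0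
  · apply hzero
    intro ω _
    rw [← hκ0]
    simpa using hk
  · by_cases h16 : κ * n * 16 < k
    · apply hzero
      intro ω hω
      have h1 : Y ω ^ 2 ≤ 16 := by
        have := hY4 ω hω
        have := hY0 ω
        nlinarith
      calc κ * n * Y ω ^ 2 ≤ κ * n * 16 := by
            apply mul_le_mul_of_nonneg_left h1 (by positivity)
        _ < k := h16
    · push Not at h16
      set r : ℝ := Real.sqrt (k / (κ * n)) with hr
      have hr0 : 0 ≤ r := Real.sqrt_nonneg _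
      have hr2 : r ^ 2 = k / (κ * n) := Real.sq_sqrt (by positivity)
      have hr4 : r ≤ 4 := by
        rw [hr, Real.sqrt_le_left (by norm_num)]
        rw [div_le_iff₀ (by positivity)]
        linarith
      set s : ℝ := n * r / (2 * C2) with hs
      have hs0 : 0 ≤ s := by positivity
      have hst : 4 * s / n ≤ t₀ := by
        have e1 : 4 * s / n = 2 * r / C2 := by
          rw [hs]; field_simp; ring
        rw [e1, div_le_iff₀ hC2]
        nlinarith
      have hb := h s hs0 hst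
      have hpt : ∀ ω, {ω | k ≤ κ * n * Y ω ^ 2}.indicator (fun _ => (1 : ENNReal)) ω ≤
          ENNReal.ofReal (Real.exp (-(s * r))) * ENNReal.ofReal (Real.exp (s * Y ω)) := by
        intro ω
        by_cases hω : k ≤ κ * n * Y ω ^ 2
        · rw [Set.indicator_of_mem (show ω ∈ {ω | k ≤ κ * n * Y ω ^ 2} from hω)]
          rw [← ENNReal.ofReal_mul (Real.exp_pos _).le, ← Real.exp_add]
          have hYr : r ≤ Y ω := by
            rw [hr]
            apply Real.sqrt_le_iff.mpr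
            refine ⟨hY0 ω, ?_⟩
            rw [div_le_iff₀ (by positivity)]
            linarith
          have : 0 ≤ -(s * r) + s * Y ω := by nlinarith
          rw [ENNReal.one_le_ofReal]
          exact Real.one_le_exp this
        · rw [Set.indicator_of_notMem (show ω ∉ {ω | k ≤ κ * n * Y ω ^ 2} from hω)]
          exact zero_le
      calc ∫⁻ ω in S, {ω | k ≤ κ * n * Y ω ^ 2}.indicator (fun _ => (1 : ENNReal)) ω ∂μ
          ≤ ∫⁻ ω in S, ENNReal.ofReal (Real.exp (-(s * r))) *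
              ENNReal.ofReal (Real.exp (s * Y ω)) ∂μ := lintegral_mono hpt
        _ = ENNReal.ofReal (Real.exp (-(s * r))) *
              ∫⁻ ω in S, ENNReal.ofReal (Real.exp (s * Y ω)) ∂μ := by
            rw [lintegral_const_mul _ (by fun_prop)]
        _ ≤ ENNReal.ofReal (Real.exp (-(s * r))) *
              ENNReal.ofReal (2 * Real.exp (C2 * s ^ 2 / n)) := by
            gcongr
        _ = ENNReal.ofReal (2 * Real.exp (-(s * r) + C2 * s ^ 2 / n)) := by
            rw [← ENNReal.ofReal_mul (Real.exp_pos _).le, Real.exp_add]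
            congr 1
            ring
        _ ≤ ENNReal.ofReal (2 * Real.exp (-(2 * k))) := by
            apply ENNReal.ofReal_le_ofReal
            have e2 : -(s * r) + C2 * s ^ 2 / n = -(k / (4 * C2 * κ)) := by
              have : -(s * r) + C2 * s ^ 2 / n = -(n * r ^ 2 / (4 * C2)) := by
                rw [hs]; field_simp; ring
              rw [this, hr2]
              field_simp
            rw [e2]
            have e3 : 2 * k ≤ k / (4 * C2 * κ) := by
              rw [le_div_iff₀ (by positivity)]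
              nlinarith
            have := Real.exp_le_exp.mpr (neg_le_neg e3)
            linarith

/-- The numerical series. -/
theorem expsq_series :
    ENNReal.ofReal (Real.exp 1) + ∑' k : ℕ, ENNReal.ofReal (Real.exp (k + 2)) *
      ENNReal.ofReal (2 * Real.exp (-(2 * ((k : ℝ) + 1)))) ≤ ENNReal.ofReal 6 := by
  have e1 : ∀ k : ℕ, ENNReal.ofReal (Real.exp (k + 2)) *
      ENNReal.ofReal (2 * Real.exp (-(2 * ((k : ℝ) + 1)))) =
      ENNReal.ofReal (2 * (Real.exp (-1)) ^ k) := by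
    intro k
    rw [← ENNReal.ofReal_mul (Real.exp_pos _).le]
    congr 1
    rw [← Real.exp_nat_mul]
    have : Real.exp (k + 2) * (2 * Real.exp (-(2 * ((k : ℝ) + 1)))) =
      2 * (Real.exp (k + 2) * Real.exp (-(2 * ((k : ℝ) + 1)))) := by ring
    rw [this, ← Real.exp_add]
    congr 2
    ring
  simp only [e1]
  have hq0 : 0 ≤ Real.exp (-1) := (Real.exp_pos _).le
  have hq1 : Real.exp (-1) < 1 := by
    rw [Real.exp_lt_one_iff]; norm_num
  have hsum : Summable (fun k : ℕ => 2 * (Real.exp (-1)) ^ k) :=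
    (summable_geometric_of_lt_one hq0 hq1).mul_left 2
  rw [← ENNReal.ofReal_tsum_of_nonneg (fun k => by positivity) hsum, tsum_mul_left,
    tsum_geometric_of_lt_one hq0 hq1, ← ENNReal.ofReal_add (Real.exp_pos _).le (by
      have : 0 < 1 - Real.exp (-1) := by linarith
      positivity)]
  apply ENNReal.ofReal_le_ofReal
  have h1 := Real.exp_one_gt_d9
  have h2 := Real.exp_one_lt_d9
  have h3 : Real.exp (-1) = (Real.exp 1)⁻¹ := Real.exp_neg 1
  have h4 : (1 - Real.exp (-1))⁻¹ ≤ 1.6 := by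
    have h5 : Real.exp (-1) ≤ 0.37 := by
      rw [h3]
      rw [inv_le_comm₀ (Real.exp_pos _) (by norm_num)]
      refine le_trans ?_ h1.le
      norm_num
    rw [inv_le_comm₀ (by linarith) (by norm_num)]
    norm_num
    linarith
  linarith

/-- From exponential moments to exponential moments of the square:
`E exp(κ n Y²) ≤ 6`.  Proof: Chernoff with `s = n r/(2 C₂)` gives
`P(Y ≥ r, S) ≤ 2 exp(-n r²/(4C₂))` for `0 ≤ r ≤ 4` (and the event is empty for `r > 4`);
pointwise `exp(κ n Y²) ≤ e + ∑_{k ≥ 1} e^(k+1) 1[κ n Y² ≥ k]`, so the integral is at most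
`e + ∑_{k ≥ 1} e^(k+1) 2 e^(-2k) ≤ 6`. -/
theorem exp_sq {Ω : Type*} [MeasurableSpace Ω] (μ : Measure Ω) (S : Set Ω)
    (hS : MeasurableSet S) (hμ : μ S ≤ 1) (Y : Ω → ℝ) (hY : Measurable Y) (n : ℕ) (hn : 0 < n)
    (C2 t₀ : ℝ) (hC2 : 0 < C2) (h8 : 8 ≤ C2 * t₀) (hY0 : ∀ ω, 0 ≤ Y ω)
    (hY4 : ∀ ω ∈ S, Y ω ≤ 4)
    (h : ∀ s : ℝ, 0 ≤ s → 4 * s / n ≤ t₀ →
      ∫⁻ ω in S, ENNReal.ofReal (Real.exp (s * Y ω)) ∂μ ≤
        ENNReal.ofReal (2 * Real.exp (C2 * s ^ 2 / n)))
    (κ : ℝ) (hκ : 0 ≤ κ) (hκ2 : 8 * C2 * κ ≤ 1) :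
    ∫⁻ ω in S, ENNReal.ofReal (Real.exp (κ * n * Y ω ^ 2)) ∂μ ≤ ENNReal.ofReal 6 := by
  have hn' : (0 : ℝ) < n := by exact_mod_cast hn
  have hmeas : ∀ k : ℕ, MeasurableSet {ω | ((k : ℝ) + 1) ≤ κ * n * Y ω ^ 2} := by
    intro k
    exact measurableSet_le measurable_const (by fun_prop)
  have hpt : ∀ ω, ENNReal.ofReal (Real.exp (κ * n * Y ω ^ 2)) ≤
      ENNReal.ofReal (Real.exp 1) + ∑' k : ℕ, ENNReal.ofReal (Real.exp (k + 2)) *
        {ω | ((k : ℝ) + 1) ≤ κ * n * Y ω ^ 2}.indicator (fun _ => (1 : ENNReal)) ω := by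
    intro ω
    set x : ℝ := κ * n * Y ω ^ 2 with hx
    have hx0 : 0 ≤ x := by positivity
    by_cases hx1 : x < 1
    · refine le_trans ?_ le_self_add
      apply ENNReal.ofReal_le_ofReal
      exact Real.exp_le_exp.mpr hx1.le
    · push Not at hx1
      refine le_trans ?_ le_add_self
      refine le_trans ?_ (ENNReal.le_tsum (⌊x⌋₊ - 1))
      have hfl : 1 ≤ ⌊x⌋₊ := Nat.one_le_floor_iff x |>.mpr hx1
      have hcast : ((⌊x⌋₊ - 1 : ℕ) : ℝ) = (⌊x⌋₊ : ℝ) - 1 := by
        push_cast [Nat.cast_sub hfl]; ring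
      have hle : (⌊x⌋₊ : ℝ) ≤ x := Nat.floor_le hx0
      have hlt : x < (⌊x⌋₊ : ℝ) + 1 := Nat.lt_floor_add_one x
      rw [Set.indicator_of_mem, mul_one]
      · apply ENNReal.ofReal_le_ofReal
        apply Real.exp_le_exp.mpr
        rw [hcast]; linarith
      · rw [Set.mem_ofPred_eq, hcast, ← hx]
        linarith
  calc ∫⁻ ω in S, ENNReal.ofReal (Real.exp (κ * n * Y ω ^ 2)) ∂μ
      ≤ ∫⁻ ω in S, (ENNReal.ofReal (Real.exp 1) + ∑' k : ℕ, ENNReal.ofReal (Real.exp (k + 2)) *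
        {ω | ((k : ℝ) + 1) ≤ κ * n * Y ω ^ 2}.indicator (fun _ => (1 : ENNReal)) ω) ∂μ :=
        lintegral_mono hpt
    _ = ENNReal.ofReal (Real.exp 1) * μ S + ∑' k : ℕ, ENNReal.ofReal (Real.exp (k + 2)) *
        ∫⁻ ω in S, {ω | ((k : ℝ) + 1) ≤ κ * n * Y ω ^ 2}.indicator
          (fun _ => (1 : ENNReal)) ω ∂μ := by
        rw [lintegral_add_left measurable_const, setLIntegral_const, lintegral_tsum]
        · congr 1
          apply tsum_congr
          intro k
          rw [lintegral_const_mul]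
          exact measurable_const.indicator (hmeas k)
        · intro k
          exact ((measurable_const.indicator (hmeas k)).const_mul _).aemeasurable
    _ ≤ ENNReal.ofReal (Real.exp 1) * 1 + ∑' k : ℕ, ENNReal.ofReal (Real.exp (k + 2)) *
        ENNReal.ofReal (2 * Real.exp (-(2 * ((k : ℝ) + 1)))) := by
        gcongr with k
        exact expsq_tail μ S hS Y hY n hn C2 t₀ hC2 h8 hY0 hY4 h κ hκ hκ2 _ (by positivity)
    _ ≤ ENNReal.ofReal 6 := by
        rw [mul_one]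
        exact expsq_series

end Pool.Agent.MP_2a72d7_pr.Pos
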