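import Mathlib
import Pool.Agent.MP_2a72d7_pr.Defs
import Pool.Agent.MP_2a72d7_pr.Sm.Base
import Pool.Agent.MP_2a72d7_pr.Pos.Base

namespace Pool.Agent.MP_2a72d7_pr.Pos

open MeasureTheory Matrix Pool.Agent.MP_2a72d7_pr.Sm

theorem exps_gen {n : ℕ} (μ : Fin n → Measure ℝ) [∀ i, IsProbabilityMeasure (μ i)]
    (φ : Fin n → ℝ → ℝ) (hφ : ∀ i, Continuous (φ i)) (c : ℝ) (a : Fin n → ℝ)
    (hm : ∀ i, ∫⁻ x, ENNReal.ofReal (Real.exp (a i * φ i x)) ∂(μ i) ≤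
      ENNReal.ofReal (Real.exp (c * a i ^ 2))) :
    ∫⁻ x, ENNReal.ofReal (Real.exp (∑ i, a i * φ i (x i))) ∂(Measure.pi μ) ≤
      ENNReal.ofReal (Real.exp (c * ∑ i, a i ^ 2)) := by
  have hmeas : ∀ i, Measurable fun y : ℝ => ENNReal.ofReal (Real.exp (a i * φ i y)) := by
    intro i
    exact (((hφ i).measurable.const_mul (a i)).exp).ennreal_ofReal
  have h1 : ∀ x : Fin n → ℝ, ENNReal.ofReal (Real.exp (∑ i, a i * φ i (x i))) =
      ∏ i, ENNReal.ofReal (Real.exp (a i * φ i (x i))) := by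
    intro x
    rw [Real.exp_sum, ENNReal.ofReal_prod_of_nonneg fun i _ => (Real.exp_pos _).le]
  have hind : ProbabilityTheory.iIndepFun
      (fun (i : Fin n) (x : Fin n → ℝ) => ENNReal.ofReal (Real.exp (a i * φ i (x i))))
      (Measure.pi μ) :=
    ProbabilityTheory.iIndepFun_pi fun i => (hmeas i).aemeasurable
  have h2 := ProbabilityTheory.lintegral_prod_eq_prod_lintegral_of_indepFun Finset.univ _ hind
    (fun i => (hmeas i).comp (measurable_pi_apply i))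
  have h3 : ∀ i, ∫⁻ x, ENNReal.ofReal (Real.exp (a i * φ i (x i))) ∂(Measure.pi μ) =
      ∫⁻ y, ENNReal.ofReal (Real.exp (a i * φ i y)) ∂(μ i) := fun i =>
    (measurePreserving_eval μ i).lintegral_comp (hmeas i)
  calc ∫⁻ x, ENNReal.ofReal (Real.exp (∑ i, a i * φ i (x i))) ∂(Measure.pi μ)
      = ∫⁻ x, ∏ i, ENNReal.ofReal (Real.exp (a i * φ i (x i))) ∂(Measure.pi μ) :=
        lintegral_congr h1
    _ = ∏ i, ∫⁻ x, ENNReal.ofReal (Real.exp (a i * φ i (x i))) ∂(Measure.pi μ) := h2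
    _ ≤ ∏ i, ENNReal.ofReal (Real.exp (c * a i ^ 2)) :=
        Finset.prod_le_prod' fun i _ => by
          rw [h3 i]
          exact hm i
    _ = ENNReal.ofReal (Real.exp (c * ∑ i, a i ^ 2)) := by
        rw [← ENNReal.ofReal_prod_of_nonneg fun i _ => (Real.exp_pos _).le, ← Real.exp_sum,
          Finset.mul_sum]

/-- Linear exponentials: `E exp(∑ aᵢ xᵢ) ≤ exp(c ∑ aᵢ²)`. -/
theorem lin_exp {n : ℕ} (μ : Fin n → Measure ℝ) [∀ i, IsProbabilityMeasure (μ i)] (c : ℝ)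
    (hm : ∀ i t, ∫⁻ x, ENNReal.ofReal (Real.exp (t * x)) ∂(μ i) ≤
      ENNReal.ofReal (Real.exp (c * t ^ 2))) (a : Fin n → ℝ) :
    ∫⁻ x, ENNReal.ofReal (Real.exp (∑ i, a i * x i)) ∂(Measure.pi μ) ≤
      ENNReal.ofReal (Real.exp (c * ∑ i, a i ^ 2)) := by
  exact exps_gen μ (fun _ x => x) (fun _ => continuous_id) c a fun i => hm i (a i)

/-- More generally for functions of the coordinates: if `E exp(t φᵢ(xᵢ)) ≤ exp(c t²)` for
`|t| ≤ t₀` and `|aᵢ| ≤ t₀`. -/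
theorem fun_exp {n : ℕ} (μ : Fin n → Measure ℝ) [∀ i, IsProbabilityMeasure (μ i)]
    (φ : Fin n → ℝ → ℝ) (hφ : ∀ i, Continuous (φ i)) (c t₀ : ℝ)
    (hm : ∀ i t, |t| ≤ t₀ → ∫⁻ x, ENNReal.ofReal (Real.exp (t * φ i x)) ∂(μ i) ≤
      ENNReal.ofReal (Real.exp (c * t ^ 2))) (a : Fin n → ℝ) (ha : ∀ i, |a i| ≤ t₀) :
    ∫⁻ x, ENNReal.ofReal (Real.exp (∑ i, a i * φ i (x i))) ∂(Measure.pi μ) ≤
      ENNReal.ofReal (Real.exp (c * ∑ i, a i ^ 2)) := by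
  exact exps_gen μ φ hφ c a fun i => hm i (a i) (ha i)

end Pool.Agent.MP_2a72d7_pr.Pos
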