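import Mathlib
import Pool.Agent.MP_2a72d7_pr.Defs
import Pool.Agent.MP_2a72d7_pr.Sm.Base
import Pool.Agent.MP_2a72d7_pr.Pos.Base
import Pool.Agent.MP_2a72d7_pr.Pos.R_exps

namespace Pool.Agent.MP_2a72d7_pr.Pos

open MeasureTheory Matrix Pool.Agent.MP_2a72d7_pr.Sm

theorem form_prod {n : ℕ} : ∀ (μ : Fin n → Measure ℝ) [∀ i, IsProbabilityMeasure (μ i)]
    (f : Fin n → ℝ → ENNReal) (_ : ∀ i, Measurable (f i)),
    ∫⁻ x, ∏ i, f i (x i) ∂(Measure.pi μ) = ∏ i, ∫⁻ x, f i x ∂(μ i) := by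
  induction n with
  | zero =>
    intro μ _ f hf
    simp
  | succ n ih =>
    intro μ _ f hf
    have hmp := measurePreserving_piFinSuccAbove μ 0
    obtain ⟨G, hG⟩ : ∃ G : ℝ × (Fin n → ℝ) → ENNReal,
        G = fun p => f 0 p.1 * ∏ i : Fin n, f i.succ (p.2 i) := ⟨_, rfl⟩
    have hm2 : Measurable fun y : Fin n → ℝ => ∏ i : Fin n, f i.succ (y i) :=
      Finset.measurable_prod _ fun i _ => (hf i.succ).comp (measurable_pi_apply i)
    have hGm : Measurable G := by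
      rw [hG]
      exact ((hf 0).comp measurable_fst).mul (hm2.comp measurable_snd)
    have h1 : ∀ x : Fin (n + 1) → ℝ, ∏ i, f i (x i) =
        G (MeasurableEquiv.piFinSuccAbove (fun _ : Fin (n + 1) => ℝ) 0 x) := by
      intro x
      rw [hG, Fin.prod_univ_succ]
      rfl
    rw [lintegral_congr h1]
    have h2 := hmp.lintegral_comp hGm
    rw [h2, hG, lintegral_prod_mul (hf 0).aemeasurable hm2.aemeasurable, Fin.prod_univ_succ]
    congr 1
    exact ih (fun i => μ i.succ) (fun i => f i.succ) fun i => hf i.succ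

theorem form_g1 (a : ℝ) :
    ∫⁻ g, ENNReal.ofReal (Real.exp (a * g)) ∂(ProbabilityTheory.gaussianReal 0 1) =
      ENNReal.ofReal (Real.exp (a ^ 2 / 2)) := by
  rw [← ofReal_integral_eq_lintegral_ofReal
    (ProbabilityTheory.integrable_exp_mul_gaussianReal a)
    (Filter.Eventually.of_forall fun x => (Real.exp_pos _).le)]
  congr 1
  have h := congrFun (ProbabilityTheory.mgf_fun_id_gaussianReal (μ := 0) (v := 1)) a
  rw [ProbabilityTheory.mgf] at h
  rw [h]
  congr 1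
  push_cast
  ring

theorem form_g2 (θ : ℝ) (h0 : 0 ≤ θ) (h1 : 4 * θ ≤ 1) :
    ∫⁻ g, ENNReal.ofReal (Real.exp (θ * g ^ 2)) ∂(ProbabilityTheory.gaussianReal 0 1) ≤
      ENNReal.ofReal (Real.exp (2 * θ)) := by
  have hb : 0 < 1 / 2 - θ := by linarith
  rw [ProbabilityTheory.gaussianReal_of_var_ne_zero 0 one_ne_zero,
    lintegral_withDensity_eq_lintegral_mul _ (ProbabilityTheory.measurable_gaussianPDF 0 1)
      (by fun_prop)]
  have h2 : ∀ g : ℝ, (ProbabilityTheory.gaussianPDF 0 1 *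
      fun g : ℝ => ENNReal.ofReal (Real.exp (θ * g ^ 2))) g =
      ENNReal.ofReal ((√(2 * Real.pi))⁻¹ * Real.exp (-(1 / 2 - θ) * g ^ 2)) := by
    intro g
    rw [Pi.mul_apply, ProbabilityTheory.gaussianPDF_def, ProbabilityTheory.gaussianPDFReal_def,
      ← ENNReal.ofReal_mul (by positivity)]
    congr 1
    dsimp only
    rw [mul_assoc, ← Real.exp_add]
    congr 2
    · rw [NNReal.coe_one, mul_one]
    · rw [NNReal.coe_one]
      ring_nf
  rw [lintegral_congr h2, ← ofReal_integral_eq_lintegral_ofReal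
    ((integrable_exp_neg_mul_sq hb).const_mul _)
    (Filter.Eventually.of_forall fun x => by positivity),
    integral_const_mul, integral_gaussian]
  refine ENNReal.ofReal_le_ofReal ?_
  rw [← Real.sqrt_inv, ← Real.sqrt_mul (by positivity)]
  refine Real.sqrt_le_iff.2 ⟨(Real.exp_pos _).le, ?_⟩
  have h3 : (2 * Real.pi)⁻¹ * (Real.pi / (1 / 2 - θ)) = 1 / (1 - 2 * θ) := by
    have hpi := Real.pi_pos
    have h4 : 1 - 2 * θ ≠ 0 := by linarith
    have h5 : (1 / 2 - θ) ≠ 0 := hb.ne'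
    have h6 : (1 / 2 - θ) = 2⁻¹ * (1 - 2 * θ) := by ring
    rw [h6]
    field_simp
  rw [h3, ← Real.exp_nat_mul]
  have h4 : 1 + 4 * θ ≤ Real.exp ((2 : ℕ) * (2 * θ)) := by
    have h5 := Real.add_one_le_exp ((2 : ℕ) * (2 * θ))
    push_cast at h5 ⊢
    linarith
  refine le_trans ?_ h4
  rw [div_le_iff₀ (by linarith)]
  nlinarith

theorem form_spec {n : ℕ} (K : Matrix (Fin n) (Fin n) ℝ) (hK : K.PosSemidef) :
    ∃ (U : Matrix (Fin n) (Fin n) ℝ) (l : Fin n → ℝ), Uᵀ * U = 1 ∧ (∀ i, 0 ≤ l i) ∧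
      ∑ i, l i = K.trace ∧ ∀ x : Fin n → ℝ, x ⬝ᵥ K.mulVec x = ∑ i, l i * ((Uᵀ *ᵥ x) i) ^ 2 := by
  have hU : (hK.1.eigenvectorUnitary : Matrix (Fin n) (Fin n) ℝ)ᵀ *
      (hK.1.eigenvectorUnitary : Matrix (Fin n) (Fin n) ℝ) = 1 := by
    rw [← Matrix.conjTranspose_eq_transpose_of_trivial]
    exact Unitary.coe_star_mul_self hK.1.eigenvectorUnitary
  have hspec : K = (hK.1.eigenvectorUnitary : Matrix (Fin n) (Fin n) ℝ) *
      diagonal hK.1.eigenvalues * (hK.1.eigenvectorUnitary : Matrix (Fin n) (Fin n) ℝ)ᵀ := by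
    have h := hK.1.spectral_theorem
    rw [Unitary.conjStarAlgAut_apply] at h
    rw [← Matrix.conjTranspose_eq_transpose_of_trivial]
    exact h
  refine ⟨_, hK.1.eigenvalues, hU, hK.eigenvalues_nonneg, ?_, fun x => ?_⟩
  · have h := hK.1.trace_eq_sum_eigenvalues
    rw [h]
    rfl
  · conv_lhs => rw [hspec]
    rw [← mulVec_mulVec, ← mulVec_mulVec, dotProduct_mulVec, ← mulVec_transpose]
    unfold dotProduct
    refine Finset.sum_congr rfl fun i _ => ?_
    rw [mulVec_diagonal]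
    ring

/-- `E exp(s xᵀKx) ≤ exp(4 c s tr K)` if `8 c s b ≤ 1`, for independent coordinates with
`E exp(t xᵢ) ≤ exp(c t²)` and `0 ≤ K ≤ b`.
Proof: spectral theorem `xᵀKx = ∑ μᵢ ⟨vᵢ,x⟩²` with an orthonormal basis `vᵢ`;
`exp(s ∑ μᵢ⟨vᵢ,x⟩²) = E_g exp(∑ √(2sμᵢ) gᵢ ⟨vᵢ,x⟩)` with `g` standard Gaussian (product of
`gaussianReal 0 1`, one-dimensional identity `exp(a²/2) = E exp(a g)`); Tonelli;
`E_x exp(⟨w,x⟩) ≤ exp(c‖w‖²)`, `‖w‖² = 2s∑μᵢgᵢ²`; `E exp(2csμ g²) = (1-4csμ)^(-1/2) ≤ exp(4csμ)`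
as `4csμ ≤ 1/2`. -/
theorem psd_form {n : ℕ} (K : Matrix (Fin n) (Fin n) ℝ) (hK : K.PosSemidef)
    (μ : Fin n → Measure ℝ) [∀ i, IsProbabilityMeasure (μ i)] (c : ℝ) (hc : 0 < c)
    (hm : ∀ i t, ∫⁻ x, ENNReal.ofReal (Real.exp (t * x)) ∂(μ i) ≤
      ENNReal.ofReal (Real.exp (c * t ^ 2)))
    (b : ℝ) (hb : ∀ v : Fin n → ℝ, v ⬝ᵥ K.mulVec v ≤ b * (v ⬝ᵥ v))
    (s : ℝ) (hs : 0 ≤ s) (hsb : 8 * c * s * b ≤ 1) :
    ∫⁻ x, ENNReal.ofReal (Real.exp (s * (x ⬝ᵥ K.mulVec x))) ∂(Measure.pi μ) ≤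
      ENNReal.ofReal (Real.exp (4 * c * s * K.trace)) := by
  obtain ⟨U, l, hU, hl, htr, hquad⟩ := form_spec K hK
  -- norms are preserved
  have hnorm : ∀ w : Fin n → ℝ, ∑ j, (U *ᵥ w) j ^ 2 = ∑ i, w i ^ 2 := by
    intro w
    have h1 : (U *ᵥ w) ⬝ᵥ (U *ᵥ w) = w ⬝ᵥ w := by
      rw [dotProduct_mulVec, ← mulVec_transpose, mulVec_mulVec, hU, one_mulVec]
    unfold dotProduct at h1
    simpa only [sq] using h1
  have hlb : ∀ i, 8 * c * s * l i ≤ 1 := by
    intro i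
    have h1 := hb (U *ᵥ Pi.single i 1)
    rw [hquad, mulVec_mulVec, hU, one_mulVec] at h1
    have h2 : ∑ j, l j * (Pi.single i 1 : Fin n → ℝ) j ^ 2 = l i := by
      rw [Finset.sum_eq_single i]
      · rw [Pi.single_eq_same]
        ring
      · intro j _ hj
        rw [Pi.single_eq_of_ne hj]
        ring
      · intro h0
        exact absurd (Finset.mem_univ i) h0
    have h3 : (U *ᵥ Pi.single i 1) ⬝ᵥ (U *ᵥ Pi.single i 1) = 1 := by
      have h4 := hnorm (Pi.single i 1)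
      unfold dotProduct
      simp only [← sq]
      rw [h4, Finset.sum_eq_single i]
      · rw [Pi.single_eq_same]
        ring
      · intro j _ hj
        rw [Pi.single_eq_of_ne hj]
        ring
      · intro h0
        exact absurd (Finset.mem_univ i) h0
    rw [h2, h3, mul_one] at h1
    have h5 : 8 * c * s * l i ≤ 8 * c * s * b := mul_le_mul_of_nonneg_left h1 (by positivity)
    linarith
  obtain ⟨r, hr⟩ : ∃ r : Fin n → ℝ, ∀ i, r i ^ 2 = 2 * s * l i :=
    ⟨fun i => √(2 * s * l i), fun i => Real.sq_sqrt (by have := hl i; positivity)⟩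
  -- the linear form
  have hlin : ∀ (x g : Fin n → ℝ), ∑ i, (r i * (Uᵀ *ᵥ x) i) * g i =
      ∑ j, (U *ᵥ fun i => r i * g i) j * x j := by
    intro x g
    have h1 : ∑ i, (r i * (Uᵀ *ᵥ x) i) * g i = (Uᵀ *ᵥ x) ⬝ᵥ (fun i => r i * g i) := by
      unfold dotProduct
      exact Finset.sum_congr rfl fun i _ => by ring
    have h2 : ∑ j, (U *ᵥ fun i => r i * g i) j * x j = x ⬝ᵥ (U *ᵥ fun i => r i * g i) := by
      unfold dotProduct
      exact Finset.sum_congr rfl fun i _ => by ring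
    rw [h1, h2, dotProduct_mulVec, mulVec_transpose]
  have key : ∀ x : Fin n → ℝ, ENNReal.ofReal (Real.exp (s * (x ⬝ᵥ K.mulVec x))) =
      ∫⁻ g, ENNReal.ofReal (Real.exp (∑ j, (U *ᵥ fun i => r i * g i) j * x j))
        ∂(Measure.pi fun _ : Fin n => ProbabilityTheory.gaussianReal 0 1) := by
    intro x
    have h1 : s * (x ⬝ᵥ K.mulVec x) = ∑ i, (r i * (Uᵀ *ᵥ x) i) ^ 2 / 2 := by
      rw [hquad, Finset.mul_sum]
      refine Finset.sum_congr rfl fun i _ => ?_
      rw [mul_pow, hr]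
      ring
    rw [h1, Real.exp_sum, ENNReal.ofReal_prod_of_nonneg fun i _ => (Real.exp_pos _).le,
      ← Finset.prod_congr rfl fun i _ => form_g1 (r i * (Uᵀ *ᵥ x) i),
      ← form_prod (fun _ => ProbabilityTheory.gaussianReal 0 1)
        (fun i g => ENNReal.ofReal (Real.exp (r i * (Uᵀ *ᵥ x) i * g))) fun i => by fun_prop]
    refine lintegral_congr fun g => ?_
    rw [← hlin, Real.exp_sum, ENNReal.ofReal_prod_of_nonneg fun i _ => (Real.exp_pos _).le]
  have hcont : Continuous fun p : (Fin n → ℝ) × (Fin n → ℝ) =>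
      ∑ j, (U *ᵥ fun i => r i * p.2 i) j * p.1 j := by
    unfold mulVec dotProduct
    fun_prop
  calc ∫⁻ x, ENNReal.ofReal (Real.exp (s * (x ⬝ᵥ K.mulVec x))) ∂(Measure.pi μ)
      = ∫⁻ x, ∫⁻ g, ENNReal.ofReal (Real.exp (∑ j, (U *ᵥ fun i => r i * g i) j * x j))
        ∂(Measure.pi fun _ : Fin n => ProbabilityTheory.gaussianReal 0 1) ∂(Measure.pi μ) :=
        lintegral_congr key
    _ = ∫⁻ g, ∫⁻ x, ENNReal.ofReal (Real.exp (∑ j, (U *ᵥ fun i => r i * g i) j * x j))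
        ∂(Measure.pi μ) ∂(Measure.pi fun _ : Fin n => ProbabilityTheory.gaussianReal 0 1) :=
        lintegral_lintegral_swap
          (ENNReal.measurable_ofReal.comp (Real.measurable_exp.comp hcont.measurable)).aemeasurable
    _ ≤ ∫⁻ g : Fin n → ℝ, ∏ i, ENNReal.ofReal (Real.exp (c * (2 * s * l i) * g i ^ 2))
        ∂(Measure.pi fun _ : Fin n => ProbabilityTheory.gaussianReal 0 1) := by
        refine lintegral_mono fun g => ?_
        refine (lin_exp μ c hm _).trans (le_of_eq ?_)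
        rw [hnorm, Finset.mul_sum, Real.exp_sum,
          ENNReal.ofReal_prod_of_nonneg fun i _ => (Real.exp_pos _).le]
        refine Finset.prod_congr rfl fun i _ => ?_
        rw [mul_pow, hr]
        congr 2
        ring
    _ = ∏ i, ∫⁻ g, ENNReal.ofReal (Real.exp (c * (2 * s * l i) * g ^ 2))
        ∂(ProbabilityTheory.gaussianReal 0 1) :=
        form_prod (fun _ => ProbabilityTheory.gaussianReal 0 1)
          (fun i g => ENNReal.ofReal (Real.exp (c * (2 * s * l i) * g ^ 2))) fun i => by fun_prop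
    _ ≤ ∏ i, ENNReal.ofReal (Real.exp (2 * (c * (2 * s * l i)))) := by
        refine Finset.prod_le_prod' fun i _ => form_g2 _ ?_ ?_
        · have := hl i
          positivity
        · have := hlb i
          linarith
    _ = ENNReal.ofReal (Real.exp (4 * c * s * K.trace)) := by
        rw [← ENNReal.ofReal_prod_of_nonneg fun i _ => (Real.exp_pos _).le, ← Real.exp_sum, ← htr,
          Finset.mul_sum]
        congr 2
        exact Finset.sum_congr rfl fun i _ => by ring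

end Pool.Agent.MP_2a72d7_pr.Pos
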