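import Mathlib
import Pool.Agent.MP_2a72d7_pr.Defs
import Pool.Agent.MP_2a72d7_pr.Sm.Base
import Pool.Agent.MP_2a72d7_pr.Pos.Base

namespace Pool.Agent.MP_2a72d7_pr.Pos

open MeasureTheory Matrix Pool.Agent.MP_2a72d7_pr.Sm

/-- Resampling: if `y, z` are independent with law `π = ⊗ μᵢ`, the vector with coordinates `yᵢ`
for `i ∈ I` and `zᵢ` for `i ∉ I` has law `π`.  (Uniqueness of product measures,
`Measure.pi_eq`.) -/
theorem piecewise_mp {n : ℕ} (μ : Fin n → Measure ℝ) [∀ i, IsProbabilityMeasure (μ i)]
    (I : Finset (Fin n)) :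
    MeasurePreserving (fun p : (Fin n → ℝ) × (Fin n → ℝ) => I.piecewise p.1 p.2)
      ((Measure.pi μ).prod (Measure.pi μ)) (Measure.pi μ) := by
  classical
  have hm : Measurable (fun p : (Fin n → ℝ) × (Fin n → ℝ) => I.piecewise p.1 p.2) := by
    refine measurable_pi_lambda _ fun i => ?_
    by_cases hi : i ∈ I
    · simp only [Finset.piecewise_eq_of_mem _ _ _ hi]
      exact (measurable_pi_apply i).comp measurable_fst
    · simp only [Finset.piecewise_eq_of_notMem _ _ _ hi]
      exact (measurable_pi_apply i).comp measurable_snd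
  refine ⟨hm, ?_⟩
  symm
  refine Measure.pi_eq fun s hs => ?_
  rw [Measure.map_apply hm (MeasurableSet.univ_pi hs)]
  have h1 : (fun p : (Fin n → ℝ) × (Fin n → ℝ) => I.piecewise p.1 p.2) ⁻¹' Set.univ.pi s =
      (Set.univ.pi fun i => if i ∈ I then s i else Set.univ) ×ˢ
        (Set.univ.pi fun i => if i ∈ I then Set.univ else s i) := by
    ext p
    simp only [Set.mem_preimage, Set.mem_univ_pi, Set.mem_prod]
    constructor
    · intro h
      refine ⟨fun i => ?_, fun i => ?_⟩
      · by_cases hi : i ∈ I
        · have := h i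
          rw [Finset.piecewise_eq_of_mem _ _ _ hi] at this
          rwa [if_pos hi]
        · rw [if_neg hi]
          exact Set.mem_univ _
      · by_cases hi : i ∈ I
        · rw [if_pos hi]
          exact Set.mem_univ _
        · have := h i
          rw [Finset.piecewise_eq_of_notMem _ _ _ hi] at this
          rwa [if_neg hi]
    · rintro ⟨h2, h3⟩ i
      by_cases hi : i ∈ I
      · rw [Finset.piecewise_eq_of_mem _ _ _ hi]
        have := h2 i
        rwa [if_pos hi] at this
      · rw [Finset.piecewise_eq_of_notMem _ _ _ hi]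
        have := h3 i
        rwa [if_neg hi] at this
  rw [h1, Measure.prod_prod, Measure.pi_pi, Measure.pi_pi, ← Finset.prod_mul_distrib]
  refine Finset.prod_congr rfl fun i _ => ?_
  by_cases hi : i ∈ I
  · rw [if_pos hi, if_pos hi, measure_univ, mul_one]
  · rw [if_neg hi, if_neg hi, measure_univ, one_mul]

end Pool.Agent.MP_2a72d7_pr.Pos
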