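import Mathlib
import Pool.Agent.MP_2a72d7_pr.Defs
import Pool.Agent.MP_2a72d7_pr.Sm.Base
import Pool.Agent.MP_2a72d7_pr.Pos.Base
import Pool.Agent.MP_2a72d7_pr.Pos.R_form
import Pool.Agent.MP_2a72d7_pr.Pos.R_piece
import Pool.Agent.MP_2a72d7_pr.Pos.R_exps
import Pool.Agent.MP_2a72d7_pr.Pos.R_avg
import Pool.Agent.MP_2a72d7_pr.Pos.R_cs

namespace Pool.Agent.MP_2a72d7_pr.Pos

open MeasureTheory Matrix Pool.Agent.MP_2a72d7_pr.Sm

/-- the block of `B` with rows in `I` and columns outside `I` -/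
noncomputable def hw_BI {n : ℕ} (B : Matrix (Fin n) (Fin n) ℝ) (I : Finset (Fin n)) :
    Matrix (Fin n) (Fin n) ℝ :=
  Matrix.of fun i j => if i ∈ I ∧ j ∉ I then B i j else 0

theorem hw_BI_apply {n : ℕ} (B : Matrix (Fin n) (Fin n) ℝ) (I : Finset (Fin n)) (i j : Fin n) :
    hw_BI B I i j = if i ∈ I ∧ j ∉ I then B i j else 0 := rfl

theorem hw_sum {n : ℕ} (B : Matrix (Fin n) (Fin n) ℝ) (I : Finset (Fin n)) (x : Fin n → ℝ) :
    ∑ i ∈ I, ∑ j ∈ Iᶜ, B i j * (x i * x j) = ∑ i, ∑ j, hw_BI B I i j * (x i * x j) := by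
  rw [← Finset.sum_subset (Finset.subset_univ I)]
  · refine Finset.sum_congr rfl fun i hi => ?_
    rw [← Finset.sum_subset (Finset.subset_univ Iᶜ)]
    · refine Finset.sum_congr rfl fun j hj => ?_
      rw [hw_BI_apply, if_pos ⟨hi, Finset.mem_compl.mp hj⟩]
    · intro j _ hj
      rw [hw_BI_apply, if_neg, zero_mul]
      rintro ⟨-, h⟩
      exact hj (Finset.mem_compl.mpr h)
  · intro i _ hi
    refine Finset.sum_eq_zero fun j _ => ?_
    rw [hw_BI_apply, if_neg, zero_mul]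
    rintro ⟨h, -⟩
    exact hi h

theorem hw_quad {n : ℕ} (M : Matrix (Fin n) (Fin n) ℝ) (v : Fin n → ℝ) :
    v ⬝ᵥ (Mᵀ * M).mulVec v = ∑ i, (∑ j, M i j * v j) ^ 2 := by
  rw [← Matrix.mulVec_mulVec, Matrix.dotProduct_mulVec, Matrix.vecMul_transpose]
  simp only [dotProduct, Matrix.mulVec, sq]

theorem hw_bound {n : ℕ} (B : Matrix (Fin n) (Fin n) ℝ) (b : ℝ)
    (hb : ∀ v : Fin n → ℝ, ∑ i, (∑ j, B i j * v j) ^ 2 ≤ b ^ 2 * ∑ i, v i ^ 2)
    (I : Finset (Fin n)) (v : Fin n → ℝ) :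
    v ⬝ᵥ ((hw_BI B I)ᵀ * hw_BI B I).mulVec v ≤ b ^ 2 * (v ⬝ᵥ v) := by
  rw [hw_quad]
  set v' : Fin n → ℝ := fun j => if j ∈ I then 0 else v j with hv'
  have h1 : ∑ i, (∑ j, hw_BI B I i j * v j) ^ 2 ≤ ∑ i, (∑ j, B i j * v' j) ^ 2 := by
    refine Finset.sum_le_sum fun i _ => ?_
    by_cases hi : i ∈ I
    · refine le_of_eq ?_
      congr 1
      refine Finset.sum_congr rfl fun j _ => ?_
      rw [hw_BI_apply, hv']
      by_cases hj : j ∈ I
      · simp [hj]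
      · simp [hi, hj]
    · have : ∑ j, hw_BI B I i j * v j = 0 := by
        refine Finset.sum_eq_zero fun j _ => ?_
        rw [hw_BI_apply, if_neg (fun h => hi h.1), zero_mul]
      rw [this, sq, zero_mul]
      exact sq_nonneg _
  have h2 : ∑ i, v' i ^ 2 ≤ v ⬝ᵥ v := by
    unfold dotProduct
    refine Finset.sum_le_sum fun i _ => ?_
    rw [hv']
    by_cases hi : i ∈ I
    · simp only [hi, if_true]
      nlinarith [mul_self_nonneg (v i)]
    · simp only [hi, if_false]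
      rw [sq]
  calc _ ≤ _ := h1
    _ ≤ _ := hb v'
    _ ≤ _ := mul_le_mul_of_nonneg_left h2 (sq_nonneg b)

theorem hw_trace {n : ℕ} (B : Matrix (Fin n) (Fin n) ℝ) (I : Finset (Fin n)) :
    ((hw_BI B I)ᵀ * hw_BI B I).trace ≤ ∑ i, ∑ j, B i j ^ 2 - ∑ i, B i i ^ 2 := by
  have h1 : ((hw_BI B I)ᵀ * hw_BI B I).trace = ∑ i, ∑ j, hw_BI B I i j ^ 2 := by
    rw [Finset.sum_comm]
    simp only [Matrix.trace, Matrix.diag, Matrix.mul_apply, Matrix.transpose_apply, sq]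
  rw [h1, ← Finset.sum_sub_distrib]
  refine Finset.sum_le_sum fun i _ => ?_
  have h2 : B i i ^ 2 = ∑ j, if j = i then B i j ^ 2 else 0 := by
    rw [Finset.sum_ite_eq' Finset.univ i]
    simp
  rw [h2, ← Finset.sum_sub_distrib]
  refine Finset.sum_le_sum fun j _ => ?_
  rw [hw_BI_apply]
  by_cases hj : j = i
  · rw [if_neg, if_pos hj]
    · simp
    · rintro ⟨h3, h4⟩
      exact h4 (hj ▸ h3)
  · rw [if_neg hj, sub_zero]
    split_ifs
    · exact le_rfl
    · rw [sq, zero_mul]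
      exact sq_nonneg _

theorem hw_piece {n : ℕ} (B : Matrix (Fin n) (Fin n) ℝ) (I : Finset (Fin n))
    (y z : Fin n → ℝ) :
    ∑ i, ∑ j, hw_BI B I i j * (I.piecewise y z i * I.piecewise y z j) =
      ∑ i, (∑ j, hw_BI B I i j * z j) * y i := by
  refine Finset.sum_congr rfl fun i _ => ?_
  rw [Finset.sum_mul]
  refine Finset.sum_congr rfl fun j _ => ?_
  rw [hw_BI_apply]
  by_cases h : i ∈ I ∧ j ∉ I
  · rw [if_pos h, Finset.piecewise_eq_of_mem _ _ _ h.1, Finset.piecewise_eq_of_notMem _ _ _ h.2]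
    ring
  · rw [if_neg h]
    ring

theorem hw_fixed {n : ℕ} (μ : Fin n → Measure ℝ) [∀ i, IsProbabilityMeasure (μ i)]
    (c : ℝ) (hc : 0 < c)
    (hm : ∀ i t, ∫⁻ x, ENNReal.ofReal (Real.exp (t * x)) ∂(μ i) ≤
      ENNReal.ofReal (Real.exp (c * t ^ 2)))
    (B : Matrix (Fin n) (Fin n) ℝ) (b : ℝ)
    (hb : ∀ v : Fin n → ℝ, ∑ i, (∑ j, B i j * v j) ^ 2 ≤ b ^ 2 * ∑ i, v i ^ 2)
    (h2 : 512 * c ^ 2 * b ^ 2 ≤ 1) (I : Finset (Fin n)) :
    ∫⁻ x, ENNReal.ofReal (Real.exp (8 * ∑ i, ∑ j, hw_BI B I i j * (x i * x j)))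
      ∂(Measure.pi μ) ≤
      ENNReal.ofReal (Real.exp (256 * c ^ 2 * (∑ i, ∑ j, B i j ^ 2 - ∑ i, B i i ^ 2))) := by
  set K : Matrix (Fin n) (Fin n) ℝ := (hw_BI B I)ᵀ * hw_BI B I with hK
  have hmeas : Measurable fun x : Fin n → ℝ =>
      ENNReal.ofReal (Real.exp (8 * ∑ i, ∑ j, hw_BI B I i j * (x i * x j))) := by
    refine Measurable.ennreal_ofReal (Real.measurable_exp.comp (Measurable.const_mul ?_ _))
    refine Finset.measurable_sum _ fun i _ => Finset.measurable_sum _ fun j _ => ?_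
    exact ((measurable_pi_apply i).mul (measurable_pi_apply j)).const_mul _
  have hmeas2 : Measurable fun p : (Fin n → ℝ) × (Fin n → ℝ) =>
      ENNReal.ofReal (Real.exp (∑ i, (8 * ∑ j, hw_BI B I i j * p.2 j) * p.1 i)) := by
    refine Measurable.ennreal_ofReal (Real.measurable_exp.comp ?_)
    refine Finset.measurable_sum _ fun i _ => ?_
    refine Measurable.mul (Measurable.const_mul (Finset.measurable_sum _ fun j _ => ?_) _) ?_
    · exact ((measurable_pi_apply j).comp measurable_snd).const_mul _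
    · exact (measurable_pi_apply i).comp measurable_fst
  have hpsd : K.PosSemidef := by
    have := Matrix.posSemidef_conjTranspose_mul_self (hw_BI B I)
    rwa [Matrix.conjTranspose_eq_transpose_of_trivial] at this
  calc ∫⁻ x, ENNReal.ofReal (Real.exp (8 * ∑ i, ∑ j, hw_BI B I i j * (x i * x j)))
        ∂(Measure.pi μ)
      = ∫⁻ p, ENNReal.ofReal (Real.exp (8 * ∑ i, ∑ j, hw_BI B I i j *
          (I.piecewise p.1 p.2 i * I.piecewise p.1 p.2 j)))
          ∂((Measure.pi μ).prod (Measure.pi μ)) :=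
        ((piecewise_mp μ I).lintegral_comp hmeas).symm
    _ = ∫⁻ p, ENNReal.ofReal (Real.exp (∑ i, (8 * ∑ j, hw_BI B I i j * p.2 j) * p.1 i))
          ∂((Measure.pi μ).prod (Measure.pi μ)) := by
        refine lintegral_congr fun p => ?_
        rw [hw_piece, Finset.mul_sum]
        congr 2
        refine Finset.sum_congr rfl fun i _ => ?_
        ring
    _ = ∫⁻ z, ∫⁻ y, ENNReal.ofReal (Real.exp (∑ i, (8 * ∑ j, hw_BI B I i j * z j) * y i))
          ∂(Measure.pi μ) ∂(Measure.pi μ) :=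
        lintegral_prod_symm _ hmeas2.aemeasurable
    _ ≤ ∫⁻ z, ENNReal.ofReal (Real.exp ((64 * c) * (z ⬝ᵥ K.mulVec z))) ∂(Measure.pi μ) := by
        refine lintegral_mono fun z => ?_
        refine le_trans (lin_exp μ c hm fun i => 8 * ∑ j, hw_BI B I i j * z j) (le_of_eq ?_)
        rw [hK, hw_quad]
        congr 2
        rw [Finset.mul_sum, Finset.mul_sum]
        refine Finset.sum_congr rfl fun i _ => ?_
        ring
    _ ≤ ENNReal.ofReal (Real.exp (4 * c * (64 * c) * K.trace)) := by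
        refine psd_form K hpsd μ c hc hm (b ^ 2) (hw_bound B b hb I) (64 * c) (by positivity) ?_
        calc 8 * c * (64 * c) * b ^ 2 = 512 * c ^ 2 * b ^ 2 := by ring
          _ ≤ 1 := h2
    _ ≤ _ := by
        refine ENNReal.ofReal_le_ofReal (Real.exp_le_exp.mpr ?_)
        have h3 := hw_trace B I
        have h4 : 4 * c * (64 * c) = 256 * c ^ 2 := by ring
        rw [h4]
        exact mul_le_mul_of_nonneg_left h3 (by positivity)

theorem hw_off {n : ℕ} (μ : Fin n → Measure ℝ) [∀ i, IsProbabilityMeasure (μ i)]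
    (c : ℝ) (hc : 0 < c)
    (hm : ∀ i t, ∫⁻ x, ENNReal.ofReal (Real.exp (t * x)) ∂(μ i) ≤
      ENNReal.ofReal (Real.exp (c * t ^ 2)))
    (B : Matrix (Fin n) (Fin n) ℝ) (b : ℝ)
    (hb : ∀ v : Fin n → ℝ, ∑ i, (∑ j, B i j * v j) ^ 2 ≤ b ^ 2 * ∑ i, v i ^ 2)
    (h2 : 512 * c ^ 2 * b ^ 2 ≤ 1) :
    ∫⁻ x, ENNReal.ofReal (Real.exp (2 * ∑ i, ∑ j ∈ Finset.univ.filter (· ≠ i),
        B i j * (x i * x j))) ∂(Measure.pi μ) ≤
      ENNReal.ofReal (Real.exp (256 * c ^ 2 * (∑ i, ∑ j, B i j ^ 2 - ∑ i, B i i ^ 2))) := by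
  set M : ℝ := Real.exp (256 * c ^ 2 * (∑ i, ∑ j, B i j ^ 2 - ∑ i, B i i ^ 2)) with hM
  have hn : (0 : ℝ) < 1 / 2 ^ n := by positivity
  have hmeas : ∀ I : Finset (Fin n), Measurable fun x : Fin n → ℝ =>
      ENNReal.ofReal (Real.exp (8 * ∑ i, ∑ j, hw_BI B I i j * (x i * x j))) := by
    intro I
    refine Measurable.ennreal_ofReal (Real.measurable_exp.comp (Measurable.const_mul ?_ _))
    refine Finset.measurable_sum _ fun i _ => Finset.measurable_sum _ fun j _ => ?_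
    exact ((measurable_pi_apply i).mul (measurable_pi_apply j)).const_mul _
  have hpt : ∀ x : Fin n → ℝ,
      ENNReal.ofReal (Real.exp (2 * ∑ i, ∑ j ∈ Finset.univ.filter (· ≠ i), B i j * (x i * x j))) ≤
      ∑ I : Finset (Fin n), ENNReal.ofReal (1 / 2 ^ n) *
        ENNReal.ofReal (Real.exp (8 * ∑ i, ∑ j, hw_BI B I i j * (x i * x j))) := by
    intro x
    have e1 : 2 * ∑ i, ∑ j ∈ Finset.univ.filter (· ≠ i), B i j * (x i * x j) =
        (1 / 2 ^ n : ℝ) * ∑ I : Finset (Fin n), (8 * ∑ i, ∑ j, hw_BI B I i j * (x i * x j)) := by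
      rw [subset_avg (fun i j => B i j * (x i * x j))]
      simp only [hw_sum, smul_eq_mul]
      rw [← Finset.mul_sum]
      ring
    have e2 := exp_avg (fun I : Finset (Fin n) => 8 * ∑ i, ∑ j, hw_BI B I i j * (x i * x j))
    rw [e1]
    refine le_trans (ENNReal.ofReal_le_ofReal e2) (le_of_eq ?_)
    rw [ENNReal.ofReal_mul hn.le, ENNReal.ofReal_sum_of_nonneg (fun I _ => (Real.exp_pos _).le),
      Finset.mul_sum]
  calc ∫⁻ x, ENNReal.ofReal (Real.exp (2 * ∑ i, ∑ j ∈ Finset.univ.filter (· ≠ i),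
        B i j * (x i * x j))) ∂(Measure.pi μ)
      ≤ ∫⁻ x, ∑ I : Finset (Fin n), ENNReal.ofReal (1 / 2 ^ n) *
        ENNReal.ofReal (Real.exp (8 * ∑ i, ∑ j, hw_BI B I i j * (x i * x j))) ∂(Measure.pi μ) :=
        lintegral_mono hpt
    _ = ∑ I : Finset (Fin n), ENNReal.ofReal (1 / 2 ^ n) *
        ∫⁻ x, ENNReal.ofReal (Real.exp (8 * ∑ i, ∑ j, hw_BI B I i j * (x i * x j)))
          ∂(Measure.pi μ) := by
        rw [lintegral_finsetSum _ fun I _ => (hmeas I).const_mul _]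
        refine Finset.sum_congr rfl fun I _ => ?_
        rw [lintegral_const_mul _ (hmeas I)]
    _ ≤ ∑ I : Finset (Fin n), ENNReal.ofReal (1 / 2 ^ n) * ENNReal.ofReal M :=
        Finset.sum_le_sum fun I _ => mul_le_mul' le_rfl (hw_fixed μ c hc hm B b hb h2 I)
    _ = ENNReal.ofReal M := by
        rw [Finset.sum_const, Finset.card_univ, Fintype.card_finset, Fintype.card_fin,
          nsmul_eq_mul, ← mul_assoc]
        have h5 : ((2 ^ n : ℕ) : ENNReal) * ENNReal.ofReal (1 / 2 ^ n) = 1 := by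
          have h6 : ((2 ^ n : ℕ) : ENNReal) = ENNReal.ofReal (2 ^ n) := by
            rw [← ENNReal.ofReal_natCast]
            push_cast
            rfl
          rw [h6, ← ENNReal.ofReal_mul (by positivity), mul_one_div_cancel (by positivity),
            ENNReal.ofReal_one]
        rw [h5, one_mul]

/-- **Hanson-Wright.** `E exp(xᵀBx - tr B) ≤ exp((2C+128c²)‖B‖_F²)` for `‖B‖ ≤ b`,
`2b ≤ t₀`, `512c²b² ≤ 1`.
Proof: Cauchy-Schwarz (`cs_exp`) separates the diagonal `∑ Bᵢᵢ(xᵢ²-1)` (`fun_exp` with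
`φ x = x²-1`, `a i = 2 Bᵢᵢ`, `|Bᵢᵢ| ≤ b` by `hb` at `eᵢ`) from
`∑_{i≠j} B_ij xᵢxⱼ = 4·avg_I ∑_{i∈I,j∉I} B_ij xᵢxⱼ`
(`subset_avg`, `exp_avg`); for fixed `I` resample (`piecewise_mp`), integrate over `y`
(`lin_exp`): `E exp(8 ∑_{i∈I,j∉I}) ≤ E_z exp(64c ∑_{i∈I}(∑_{j∉I}B_ij zⱼ)²)`, and `psd_form` with
`K = B_IᵀB_I`, `s = 64c`, bound `b²`, `tr K ≤ ‖B‖_F²` (off-diagonal part). -/
theorem hanson_wright {n : ℕ} (μ : Fin n → Measure ℝ) [∀ i, IsProbabilityMeasure (μ i)]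
    (c C t₀ : ℝ) (hc : 0 < c) (hC : 0 ≤ C)
    (hm : ∀ i t, ∫⁻ x, ENNReal.ofReal (Real.exp (t * x)) ∂(μ i) ≤
      ENNReal.ofReal (Real.exp (c * t ^ 2)))
    (hq : ∀ i t, |t| ≤ t₀ → ∫⁻ x, ENNReal.ofReal (Real.exp (t * (x ^ 2 - 1))) ∂(μ i) ≤
      ENNReal.ofReal (Real.exp (C * t ^ 2)))
    (B : Matrix (Fin n) (Fin n) ℝ) (b : ℝ) (hb0 : 0 ≤ b)
    (hb : ∀ v : Fin n → ℝ, ∑ i, (∑ j, B i j * v j) ^ 2 ≤ b ^ 2 * ∑ i, v i ^ 2)
    (h1 : 2 * b ≤ t₀) (h2 : 512 * c ^ 2 * b ^ 2 ≤ 1) :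
    ∫⁻ x, ENNReal.ofReal (Real.exp (∑ i, ∑ j, B i j * (x i * x j) - ∑ i, B i i))
      ∂(Measure.pi μ) ≤
      ENNReal.ofReal (Real.exp ((2 * C + 128 * c ^ 2) * ∑ i, ∑ j, B i j ^ 2)) := by
  set F : ℝ := ∑ i, ∑ j, B i j ^ 2 with hF
  set D : ℝ := ∑ i, B i i ^ 2 with hD
  have hDF : D ≤ F := by
    refine Finset.sum_le_sum fun i _ => ?_
    exact Finset.single_le_sum (f := fun j => B i j ^ 2) (fun j _ => sq_nonneg _)
      (Finset.mem_univ i)
  have hBii : ∀ i, |2 * B i i| ≤ t₀ := by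
    intro i
    have h3 := hb (Pi.single i 1)
    have h4 : ∑ k, (Pi.single i (1 : ℝ) : Fin n → ℝ) k ^ 2 = 1 := by
      rw [Finset.sum_eq_single i]
      · simp
      · intro k _ hk
        rw [Pi.single_eq_of_ne hk]
        ring
      · intro h
        exact absurd (Finset.mem_univ i) h
    have h5 : B i i ^ 2 ≤ ∑ k, (∑ j, B k j * (Pi.single i (1 : ℝ) : Fin n → ℝ) j) ^ 2 := by
      have h6 : ∑ j, B i j * (Pi.single i (1 : ℝ) : Fin n → ℝ) j = B i i := by
        rw [Finset.sum_eq_single i]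
        · simp
        · intro k _ hk
          rw [Pi.single_eq_of_ne hk]
          ring
        · intro h
          exact absurd (Finset.mem_univ i) h
      calc B i i ^ 2 = (∑ j, B i j * (Pi.single i (1 : ℝ) : Fin n → ℝ) j) ^ 2 := by rw [h6]
        _ ≤ _ := Finset.single_le_sum
          (f := fun k => (∑ j, B k j * (Pi.single i (1 : ℝ) : Fin n → ℝ) j) ^ 2)
          (fun k _ => sq_nonneg _) (Finset.mem_univ i)
    have h7 : B i i ^ 2 ≤ b ^ 2 := by
      rw [h4, mul_one] at h3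
      exact h5.trans h3
    have h8 : |B i i| ≤ b := abs_le_of_sq_le_sq h7 hb0
    rw [abs_mul, abs_of_pos (by norm_num : (0 : ℝ) < 2)]
    linarith
  set f : (Fin n → ℝ) → ℝ := fun x => ∑ i, B i i * (x i ^ 2 - 1) with hf
  set g : (Fin n → ℝ) → ℝ := fun x => ∑ i, ∑ j ∈ Finset.univ.filter (· ≠ i),
    B i j * (x i * x j) with hg
  have hfm : Measurable f := Finset.measurable_sum _ fun i _ =>
    (((measurable_pi_apply i).pow_const 2).sub_const 1).const_mul _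
  have hgm : Measurable g := Finset.measurable_sum _ fun i _ => Finset.measurable_sum _ fun j _ =>
    ((measurable_pi_apply i).mul (measurable_pi_apply j)).const_mul _
  have hsplit : ∀ x : Fin n → ℝ, ∑ i, ∑ j, B i j * (x i * x j) - ∑ i, B i i = f x + g x := by
    intro x
    rw [hf, hg]
    simp only
    rw [← Finset.sum_sub_distrib, ← Finset.sum_add_distrib]
    refine Finset.sum_congr rfl fun i _ => ?_
    have h3 : ∑ j, B i j * (x i * x j) = B i i * (x i * x i) +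
        ∑ j ∈ Finset.univ.filter (· ≠ i), B i j * (x i * x j) := by
      rw [← Finset.sum_filter_add_sum_filter_not Finset.univ (· = i)]
      congr 1
      rw [Finset.filter_eq' Finset.univ i, if_pos (Finset.mem_univ i), Finset.sum_singleton]
    rw [h3]
    ring
  have hA : ∫⁻ x, ENNReal.ofReal (Real.exp (2 * f x)) ∂(Measure.pi μ) ≤
      ENNReal.ofReal ((Real.exp (2 * C * D)) ^ 2) := by
    have h3 := fun_exp μ (fun _ x => x ^ 2 - 1) (fun _ => by fun_prop) C t₀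
      (fun i t ht => hq i t ht) (fun i => 2 * B i i) hBii
    refine le_trans (le_of_eq ?_) (le_trans h3 (le_of_eq ?_))
    · refine lintegral_congr fun x => ?_
      congr 2
      rw [hf]
      simp only
      rw [Finset.mul_sum]
      refine Finset.sum_congr rfl fun i _ => ?_
      ring
    · rw [← Real.exp_nat_mul]
      congr 2
      rw [hD, Finset.mul_sum, Finset.mul_sum, Finset.mul_sum]
      refine Finset.sum_congr rfl fun i _ => ?_
      push_cast
      ring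
  have hB' : ∫⁻ x, ENNReal.ofReal (Real.exp (2 * g x)) ∂(Measure.pi μ) ≤
      ENNReal.ofReal ((Real.exp (128 * c ^ 2 * (F - D))) ^ 2) := by
    refine le_trans (hw_off μ c hc hm B b hb h2) (le_of_eq ?_)
    rw [← Real.exp_nat_mul]
    congr 2
    push_cast
    ring
  have hcs := cs_exp (Measure.pi μ) f g hfm hgm _ _ (Real.exp_pos _).le (Real.exp_pos _).le hA hB'
  refine le_trans (le_of_eq ?_) (le_trans hcs ?_)
  · refine lintegral_congr fun x => ?_
    rw [hsplit]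
  · rw [← Real.exp_add]
    refine ENNReal.ofReal_le_ofReal (Real.exp_le_exp.mpr ?_)
    have hD0 : 0 ≤ D := Finset.sum_nonneg fun i _ => sq_nonneg _
    have h3 : 2 * C * D ≤ 2 * C * F := mul_le_mul_of_nonneg_left hDF (by positivity)
    have h4 : 128 * c ^ 2 * (F - D) ≤ 128 * c ^ 2 * F :=
      mul_le_mul_of_nonneg_left (by linarith) (by positivity)
    calc 2 * C * D + 128 * c ^ 2 * (F - D) ≤ 2 * C * F + 128 * c ^ 2 * F := add_le_add h3 h4
      _ = (2 * C + 128 * c ^ 2) * F := by ring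

end Pool.Agent.MP_2a72d7_pr.Pos
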