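import Mathlib
import Pool.Agent.MP_2a72d7_pr.Defs
import Pool.Agent.MP_2a72d7_pr.Sm.Base
import Pool.Agent.MP_2a72d7_pr.Pos.Base
import Pool.Agent.MP_2a72d7_pr.Sm.P_mom1
import Pool.Agent.MP_2a72d7_pr.Pos.R_adm
import Pool.Agent.MP_2a72d7_pr.Pos.R_exps

namespace Pool.Agent.MP_2a72d7_pr.Pos

open MeasureTheory Matrix Pool.Agent.MP_2a72d7_pr.Sm

theorem normtail_chernoff {α : Type*} [MeasurableSpace α] (μ : Measure α) (f : α → ℝ)
    (hf : Measurable f) (b c : ℝ)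
    (h : ∫⁻ x, ENNReal.ofReal (Real.exp (f x)) ∂μ ≤ ENNReal.ofReal (Real.exp c)) :
    μ {x | b ≤ f x} ≤ ENNReal.ofReal (Real.exp (c - b)) := by
  have h1 : {x | b ≤ f x} ⊆ {x | ENNReal.ofReal (Real.exp b) ≤ ENNReal.ofReal (Real.exp (f x))} := by
    intro x hx
    exact ENNReal.ofReal_le_ofReal (Real.exp_le_exp.2 hx)
  have hm : Measurable fun x => ENNReal.ofReal (Real.exp (f x)) :=
    ENNReal.measurable_ofReal.comp (Real.measurable_exp.comp hf)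
  have h0 : ENNReal.ofReal (Real.exp b) ≠ 0 := by
    rw [Ne, ENNReal.ofReal_eq_zero, not_le]
    exact Real.exp_pos b
  calc μ {x | b ≤ f x}
      ≤ μ {x | ENNReal.ofReal (Real.exp b) ≤ ENNReal.ofReal (Real.exp (f x))} := measure_mono h1
    _ ≤ (∫⁻ x, ENNReal.ofReal (Real.exp (f x)) ∂μ) / ENNReal.ofReal (Real.exp b) :=
        meas_ge_le_lintegral_div hm.aemeasurable h0 ENNReal.ofReal_ne_top
    _ ≤ ENNReal.ofReal (Real.exp c) / ENNReal.ofReal (Real.exp b) := by gcongr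
    _ = ENNReal.ofReal (Real.exp (c - b)) := by
        rw [← ENNReal.ofReal_div_of_pos (Real.exp_pos b), Real.exp_sub]

/-- Concentration of `‖x‖²`: Chernoff with `fun_exp`, `φ x = x² - 1`, `C = 16L⁴`,
`t₀ = 1/(2L²)` (`mgf_sq`, `one_le_L`): upper tail `t = 1/(32L⁴)`, lower tail
`t = 1/(64L⁴)`. -/
theorem norm_tail {L : ℝ} {n : ℕ} (ν : Fin n → Measure ℝ)
    (h : ∀ i, Admissible L (ν i)) :
    Measure.pi ν {x : Fin n → ℝ | ¬ ((n : ℝ) / 2 ≤ ∑ i, x i ^ 2 ∧ ∑ i, x i ^ 2 ≤ 2 * n)} ≤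
      ENNReal.ofReal (2 * Real.exp (-(n / (256 * L ^ 4)))) := by
  have hp : ∀ i, IsProbabilityMeasure (ν i) := fun i => (h i).prob
  rcases Nat.eq_zero_or_pos n with hn | hn
  · subst hn
    have h1 : {x : Fin 0 → ℝ | ¬ (((0 : ℕ) : ℝ) / 2 ≤ ∑ i, x i ^ 2 ∧
        ∑ i, x i ^ 2 ≤ 2 * ((0 : ℕ) : ℝ))} = ∅ := by
      ext x
      simp
    rw [h1, measure_empty]
    exact bot_le
  have i0 : Fin n := ⟨0, hn⟩
  have hL1 := one_le_L (h i0)
  have hL4 : 1 ≤ L ^ 4 := by nlinarith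
  have hL2 : L ^ 2 ≤ L ^ 4 := by nlinarith
  have hn' : (0 : ℝ) < n := Nat.cast_pos.2 hn
  have key : ∀ a : ℝ, |a| ≤ 1 / (2 * L ^ 2) →
      ∫⁻ x : Fin n → ℝ, ENNReal.ofReal (Real.exp (a * ∑ i, (x i ^ 2 - 1))) ∂(Measure.pi ν) ≤
        ENNReal.ofReal (Real.exp (16 * L ^ 4 * (n * a ^ 2))) := by
    intro a ha
    have h1 := fun_exp ν (fun _ x => x ^ 2 - 1) (fun i => by fun_prop) (16 * L ^ 4)
      (1 / (2 * L ^ 2)) (fun i t ht => mgf_sq (h i) t ht) (fun _ => a) (fun _ => ha)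
    simp only [← Finset.mul_sum, Finset.sum_const, Finset.card_univ, Fintype.card_fin,
      nsmul_eq_mul] at h1
    exact h1
  have hS : ∀ x : Fin n → ℝ, ∑ i, (x i ^ 2 - 1) = ∑ i, x i ^ 2 - n := by
    intro x
    rw [Finset.sum_sub_distrib, Finset.sum_const, Finset.card_univ, Fintype.card_fin,
      nsmul_eq_mul, mul_one]
  have hmeas : ∀ a : ℝ, Measurable fun x : Fin n → ℝ => a * ∑ i, (x i ^ 2 - 1) := by
    intro a
    exact (Continuous.measurable (by fun_prop))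
  -- upper tail
  have ht1 : |1 / (32 * L ^ 4)| ≤ 1 / (2 * L ^ 2) := by
    rw [abs_of_nonneg (by positivity)]
    apply one_div_le_one_div_of_le (by positivity)
    nlinarith
  have ht2 : |-(1 / (64 * L ^ 4))| ≤ 1 / (2 * L ^ 2) := by
    rw [abs_neg, abs_of_nonneg (by positivity)]
    apply one_div_le_one_div_of_le (by positivity)
    nlinarith
  have hup := normtail_chernoff (Measure.pi ν) _ (hmeas (1 / (32 * L ^ 4)))
    (1 / (32 * L ^ 4) * n) _ (key _ ht1)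
  have hlo := normtail_chernoff (Measure.pi ν) _ (hmeas (-(1 / (64 * L ^ 4))))
    (1 / (64 * L ^ 4) * (n / 2)) _ (key _ ht2)
  have hsub : {x : Fin n → ℝ | ¬ ((n : ℝ) / 2 ≤ ∑ i, x i ^ 2 ∧ ∑ i, x i ^ 2 ≤ 2 * n)} ⊆
      {x : Fin n → ℝ | 1 / (32 * L ^ 4) * n ≤ 1 / (32 * L ^ 4) * ∑ i, (x i ^ 2 - 1)} ∪
      {x : Fin n → ℝ | 1 / (64 * L ^ 4) * (n / 2) ≤ -(1 / (64 * L ^ 4)) * ∑ i, (x i ^ 2 - 1)} := by
    intro x hx
    rw [Set.mem_ofPred, not_and_or, not_le, not_le] at hx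
    rcases hx with hx | hx
    · right
      rw [Set.mem_ofPred, hS]
      have h1 : (0 : ℝ) < 1 / (64 * L ^ 4) := by positivity
      nlinarith
    · left
      rw [Set.mem_ofPred, hS]
      have h1 : (0 : ℝ) < 1 / (32 * L ^ 4) := by positivity
      nlinarith
  refine (measure_mono hsub).trans ((measure_union_le _ _).trans ?_)
  have e1 : 16 * L ^ 4 * (n * (1 / (32 * L ^ 4)) ^ 2) - 1 / (32 * L ^ 4) * n ≤
      -(n / (256 * L ^ 4)) := by
    have h1 : 16 * L ^ 4 * (n * (1 / (32 * L ^ 4)) ^ 2) - 1 / (32 * L ^ 4) * n =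
        -(n / (64 * L ^ 4)) := by
      field_simp
      ring
    rw [h1]
    apply neg_le_neg
    apply div_le_div_of_nonneg_left hn'.le (by positivity)
    nlinarith
  have e2 : 16 * L ^ 4 * (n * (-(1 / (64 * L ^ 4))) ^ 2) - 1 / (64 * L ^ 4) * (n / 2) =
      -(n / (256 * L ^ 4)) := by
    field_simp
    ring
  rw [e2] at hlo
  have hup' := hup.trans (ENNReal.ofReal_le_ofReal (Real.exp_le_exp.2 e1))
  refine (add_le_add hup' hlo).trans (le_of_eq ?_)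
  rw [← ENNReal.ofReal_add (Real.exp_pos _).le (Real.exp_pos _).le]
  congr 1
  ring

end Pool.Agent.MP_2a72d7_pr.Pos
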