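import Mathlib
import Pool.Agent.MP_2a72d7_pr.Defs
import Pool.Agent.MP_2a72d7_pr.Sm.Base
import Pool.Agent.MP_2a72d7_pr.Pos.Base
import Pool.Agent.MP_2a72d7_pr.Pos.R_coshsum
import Pool.Agent.MP_2a72d7_pr.Pos.R_piece
import Pool.Agent.MP_2a72d7_pr.Pos.R_avg
import Pool.Agent.MP_2a72d7_pr.Pos.R_cs

namespace Pool.Agent.MP_2a72d7_pr.Pos

open MeasureTheory Matrix Pool.Agent.MP_2a72d7_pr.Sm

theorem vec_exp_cosh (x : ℝ) : Real.exp x ≤ 2 * Real.cosh x := by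
  rw [Real.cosh_eq]
  linarith [Real.exp_pos (-x)]

/-- the diagonal part -/
theorem vec_diag {H : Type*} [NormedAddCommGroup H] [InnerProductSpace ℝ H]
    {n : ℕ} (hn : 0 < n) (μ : Fin n → Measure ℝ) [∀ i, IsProbabilityMeasure (μ i)]
    (C t₀ : ℝ) (hC : 0 ≤ C)
    (hq : ∀ i t, |t| ≤ t₀ → ∫⁻ x, ENNReal.ofReal (Real.exp (t * (x ^ 2 - 1))) ∂(μ i) ≤
      ENNReal.ofReal (Real.exp (C * t ^ 2)))
    (w : Fin n → H) (hw : ∀ i, ‖w i‖ ≤ 2)
    (s : ℝ) (hs : 0 ≤ s) (hst : 4 * s / n ≤ t₀) :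
    ∫⁻ x, ENNReal.ofReal (Real.exp (2 * (s * ‖(1 / n : ℝ) • ∑ i, (x i ^ 2 - 1) • w i‖)))
      ∂(Measure.pi μ) ≤
      ENNReal.ofReal (2 * Real.exp (16 * C * s ^ 2 / n)) := by
  have hn' : (0 : ℝ) < n := by exact_mod_cast hn
  have hZ : ∀ i, ‖(2 * s / n) • w i‖ ≤ 4 * s / n := by
    intro i
    rw [norm_smul, Real.norm_eq_abs, abs_of_nonneg (by positivity)]
    calc 2 * s / n * ‖w i‖ ≤ 2 * s / n * 2 := by
          apply mul_le_mul_of_nonneg_left (hw i) (by positivity)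
      _ = 4 * s / n := by ring
  have key := cosh_sum μ (fun _ x => x ^ 2 - 1) (fun _ => by fun_prop) C t₀ hq 0
    (fun i => (2 * s / n) • w i) (fun i => (hZ i).trans hst)
  have hsum : ∑ i, ‖(2 * s / n) • w i‖ ^ 2 ≤ 16 * s ^ 2 / n := by
    calc ∑ i, ‖(2 * s / n) • w i‖ ^ 2 ≤ ∑ _i : Fin n, (4 * s / n) ^ 2 := by
          refine Finset.sum_le_sum fun i _ => ?_
          exact pow_le_pow_left₀ (norm_nonneg _) (hZ i) 2
      _ = 16 * s ^ 2 / n := by
          rw [Finset.sum_const, Finset.card_univ, Fintype.card_fin, nsmul_eq_mul]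
          field_simp
          ring
  have hpt : ∀ x : Fin n → ℝ,
      ENNReal.ofReal (Real.exp (2 * (s * ‖(1 / n : ℝ) • ∑ i, (x i ^ 2 - 1) • w i‖))) ≤
      ENNReal.ofReal 2 * ENNReal.ofReal
        (Real.cosh ‖(0 : H) + ∑ i, (x i ^ 2 - 1) • ((2 * s / n) • w i)‖) := by
    intro x
    rw [← ENNReal.ofReal_mul (by norm_num)]
    apply ENNReal.ofReal_le_ofReal
    have e1 : (0 : H) + ∑ i, (x i ^ 2 - 1) • ((2 * s / n) • w i) =
        (2 * s) • ((1 / n : ℝ) • ∑ i, (x i ^ 2 - 1) • w i) := by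
      rw [zero_add, smul_smul, Finset.smul_sum]
      refine Finset.sum_congr rfl fun i _ => ?_
      rw [smul_smul, smul_smul]
      congr 1
      ring
    rw [e1, norm_smul (2 * s), Real.norm_eq_abs, abs_of_nonneg (by positivity), ← mul_assoc]
    exact vec_exp_cosh _
  calc ∫⁻ x, ENNReal.ofReal (Real.exp (2 * (s * ‖(1 / n : ℝ) • ∑ i, (x i ^ 2 - 1) • w i‖)))
      ∂(Measure.pi μ)
      ≤ ∫⁻ x, ENNReal.ofReal 2 * ENNReal.ofReal
        (Real.cosh ‖(0 : H) + ∑ i, (x i ^ 2 - 1) • ((2 * s / n) • w i)‖) ∂(Measure.pi μ) :=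
        lintegral_mono hpt
    _ = ENNReal.ofReal 2 * ∫⁻ x, ENNReal.ofReal
        (Real.cosh ‖(0 : H) + ∑ i, (x i ^ 2 - 1) • ((2 * s / n) • w i)‖) ∂(Measure.pi μ) := by
        rw [lintegral_const_mul' _ _ ENNReal.ofReal_ne_top]
    _ ≤ ENNReal.ofReal 2 * ENNReal.ofReal (Real.cosh ‖(0 : H)‖ *
        Real.exp (C * ∑ i, ‖(2 * s / n) • w i‖ ^ 2)) := by
        gcongr
    _ ≤ ENNReal.ofReal (2 * Real.exp (16 * C * s ^ 2 / n)) := by
        rw [← ENNReal.ofReal_mul (by norm_num)]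
        apply ENNReal.ofReal_le_ofReal
        rw [norm_zero, Real.cosh_zero, one_mul]
        apply mul_le_mul_of_nonneg_left _ (by norm_num)
        apply Real.exp_le_exp.mpr
        calc C * ∑ i, ‖(2 * s / n) • w i‖ ^ 2 ≤ C * (16 * s ^ 2 / n) :=
              mul_le_mul_of_nonneg_left hsum hC
          _ = 16 * C * s ^ 2 / n := by ring

/-- linear forms with a fixed vector `v` -/
theorem vec_lin {H : Type*} [NormedAddCommGroup H] [InnerProductSpace ℝ H]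
    {n : ℕ} (hn : 0 < n) (μ : Fin n → Measure ℝ) [∀ i, IsProbabilityMeasure (μ i)]
    (c : ℝ) (hc : 0 < c)
    (hm : ∀ i t, ∫⁻ x, ENNReal.ofReal (Real.exp (t * x)) ∂(μ i) ≤
      ENNReal.ofReal (Real.exp (c * t ^ 2)))
    (w : Fin n → Fin n → H)
    (hw : ∀ v : Fin n → ℝ, ∑ i, ‖∑ j, v j • w i j‖ ^ 2 ≤ 4 * ∑ i, v i ^ 2)
    (s : ℝ) (hs : 0 ≤ s) (I : Finset (Fin n)) (z : Fin n → ℝ)
    (hz : ∑ j ∈ Iᶜ, z j ^ 2 ≤ 2 * n) :
    ∫⁻ y, ENNReal.ofReal (Real.exp ((8 * s / n) * ‖∑ i ∈ I, ∑ j ∈ Iᶜ, (y i * z j) • w i j‖))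
      ∂(Measure.pi μ) ≤
      ENNReal.ofReal (2 * Real.exp (512 * c * s ^ 2 / n)) := by
  have hn' : (0 : ℝ) < n := by exact_mod_cast hn
  obtain ⟨v, hv⟩ : ∃ v : Fin n → ℝ, v = fun j => if j ∈ Iᶜ then z j else 0 := ⟨_, rfl⟩
  obtain ⟨U, hU⟩ : ∃ U : Fin n → H, U = fun i => ∑ j, v j • w i j := ⟨_, rfl⟩
  obtain ⟨Z, hZ⟩ : ∃ Z : Fin n → H, Z = fun i => if i ∈ I then (8 * s / n) • U i else 0 :=
    ⟨_, rfl⟩
  have hUsum : ∑ i, ‖U i‖ ^ 2 ≤ 8 * n := by
    have h1 := hw v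
    have h2 : ∑ i, v i ^ 2 = ∑ j ∈ Iᶜ, z j ^ 2 := by
      have h3 : ∀ i, v i ^ 2 = if i ∈ Iᶜ then z i ^ 2 else 0 := by
        intro i
        rw [hv]
        by_cases h : i ∈ Iᶜ
        · simp only [if_pos h]
        · simp only [if_neg h]
          norm_num
      rw [Finset.sum_congr rfl fun i _ => h3 i]
      rw [← Finset.sum_filter]
      congr 1
      ext i
      simp
    rw [h2] at h1
    rw [hU]
    calc ∑ i, ‖∑ j, v j • w i j‖ ^ 2 ≤ 4 * ∑ j ∈ Iᶜ, z j ^ 2 := h1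
      _ ≤ 4 * (2 * n) := by linarith
      _ = 8 * n := by ring
  have hZsum : ∑ i, ‖Z i‖ ^ 2 ≤ 512 * s ^ 2 / n := by
    have h1 : ∀ i, ‖Z i‖ ^ 2 ≤ (8 * s / n) ^ 2 * ‖U i‖ ^ 2 := by
      intro i
      rw [hZ]
      by_cases h : i ∈ I
      · simp only [if_pos h]
        rw [norm_smul, Real.norm_eq_abs, mul_pow, sq_abs]
      · simp only [if_neg h]
        rw [norm_zero, zero_pow two_ne_zero]
        positivity
    calc ∑ i, ‖Z i‖ ^ 2 ≤ ∑ i, (8 * s / n) ^ 2 * ‖U i‖ ^ 2 := Finset.sum_le_sum fun i _ => h1 i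
      _ = (8 * s / n) ^ 2 * ∑ i, ‖U i‖ ^ 2 := by rw [Finset.mul_sum]
      _ ≤ (8 * s / n) ^ 2 * (8 * n) := mul_le_mul_of_nonneg_left hUsum (by positivity)
      _ = 512 * s ^ 2 / n := by
        field_simp
        ring
  have key := cosh_sum μ (fun _ x => x) (fun _ => continuous_id) c (∑ i, ‖Z i‖)
    (fun i t _ => hm i t) 0 Z
    (fun i => Finset.single_le_sum (f := fun i => ‖Z i‖) (fun i _ => norm_nonneg _)
      (Finset.mem_univ i))
  have hpt : ∀ y : Fin n → ℝ,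
      ENNReal.ofReal (Real.exp ((8 * s / n) * ‖∑ i ∈ I, ∑ j ∈ Iᶜ, (y i * z j) • w i j‖)) ≤
      ENNReal.ofReal 2 * ENNReal.ofReal (Real.cosh ‖(0 : H) + ∑ i, y i • Z i‖) := by
    intro y
    rw [← ENNReal.ofReal_mul (by norm_num)]
    apply ENNReal.ofReal_le_ofReal
    have e1 : (0 : H) + ∑ i, y i • Z i =
        (8 * s / n) • ∑ i ∈ I, ∑ j ∈ Iᶜ, (y i * z j) • w i j := by
      rw [zero_add, Finset.smul_sum]
      have h3 : ∀ i, y i • Z i = if i ∈ I then y i • ((8 * s / n) • U i) else 0 := by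
        intro i
        rw [hZ]
        by_cases h : i ∈ I
        · simp only [if_pos h]
        · simp only [if_neg h, smul_zero]
      rw [Finset.sum_congr rfl fun i _ => h3 i, ← Finset.sum_filter]
      have h4 : Finset.univ.filter (fun i => i ∈ I) = I := by
        ext i
        simp
      rw [h4]
      refine Finset.sum_congr rfl fun i _ => ?_
      have h5 : U i = ∑ j ∈ Iᶜ, z j • w i j := by
        rw [hU, hv]
        have h6 : ∀ j, (if j ∈ Iᶜ then z j else 0) • w i j =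
            if j ∈ Iᶜ then z j • w i j else 0 := by
          intro j
          by_cases h : j ∈ Iᶜ
          · simp only [if_pos h]
          · simp only [if_neg h, zero_smul]
        have h7 : Finset.univ.filter (fun j => j ∈ Iᶜ) = Iᶜ := by
          ext j
          simp
        calc ∑ j, (if j ∈ Iᶜ then z j else 0) • w i j
            = ∑ j, if j ∈ Iᶜ then z j • w i j else 0 := Finset.sum_congr rfl fun j _ => h6 j
          _ = ∑ j ∈ Iᶜ, z j • w i j := by rw [← Finset.sum_filter, h7]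
      rw [h5, Finset.smul_sum, Finset.smul_sum, Finset.smul_sum]
      refine Finset.sum_congr rfl fun j _ => ?_
      rw [smul_smul, smul_smul, smul_smul]
      congr 1
      ring
    rw [e1, norm_smul (8 * s / n), Real.norm_eq_abs, abs_of_nonneg (by positivity)]
    exact vec_exp_cosh _
  calc ∫⁻ y, ENNReal.ofReal (Real.exp ((8 * s / n) * ‖∑ i ∈ I, ∑ j ∈ Iᶜ, (y i * z j) • w i j‖))
      ∂(Measure.pi μ)
      ≤ ∫⁻ y, ENNReal.ofReal 2 * ENNReal.ofReal (Real.cosh ‖(0 : H) + ∑ i, y i • Z i‖)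
        ∂(Measure.pi μ) := lintegral_mono hpt
    _ = ENNReal.ofReal 2 * ∫⁻ y, ENNReal.ofReal (Real.cosh ‖(0 : H) + ∑ i, y i • Z i‖)
        ∂(Measure.pi μ) := by
        rw [lintegral_const_mul' _ _ ENNReal.ofReal_ne_top]
    _ ≤ ENNReal.ofReal 2 * ENNReal.ofReal (Real.cosh ‖(0 : H)‖ *
        Real.exp (c * ∑ i, ‖Z i‖ ^ 2)) := by
        gcongr
    _ ≤ ENNReal.ofReal (2 * Real.exp (512 * c * s ^ 2 / n)) := by
        rw [← ENNReal.ofReal_mul (by norm_num)]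
        apply ENNReal.ofReal_le_ofReal
        rw [norm_zero, Real.cosh_zero, one_mul]
        apply mul_le_mul_of_nonneg_left _ (by norm_num)
        apply Real.exp_le_exp.mpr
        calc c * ∑ i, ‖Z i‖ ^ 2 ≤ c * (512 * s ^ 2 / n) :=
              mul_le_mul_of_nonneg_left hZsum hc.le
          _ = 512 * c * s ^ 2 / n := by ring

/-- the off-diagonal part for a fixed subset -/
theorem vec_offI {H : Type*} [NormedAddCommGroup H] [InnerProductSpace ℝ H]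
    {n : ℕ} (hn : 0 < n) (μ : Fin n → Measure ℝ) [∀ i, IsProbabilityMeasure (μ i)]
    (c : ℝ) (hc : 0 < c)
    (hm : ∀ i t, ∫⁻ x, ENNReal.ofReal (Real.exp (t * x)) ∂(μ i) ≤
      ENNReal.ofReal (Real.exp (c * t ^ 2)))
    (w : Fin n → Fin n → H)
    (hw : ∀ v : Fin n → ℝ, ∑ i, ‖∑ j, v j • w i j‖ ^ 2 ≤ 4 * ∑ i, v i ^ 2)
    (s : ℝ) (hs : 0 ≤ s) (I : Finset (Fin n)) :
    ∫⁻ x in {x : Fin n → ℝ | ∑ i, x i ^ 2 ≤ 2 * n},
      ENNReal.ofReal (Real.exp ((8 * s / n) * ‖∑ i ∈ I, ∑ j ∈ Iᶜ, (x i * x j) • w i j‖))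
      ∂(Measure.pi μ) ≤
      ENNReal.ofReal (2 * Real.exp (512 * c * s ^ 2 / n)) := by
  obtain ⟨S, hS⟩ : ∃ S : Set (Fin n → ℝ), S = {x : Fin n → ℝ | ∑ i, x i ^ 2 ≤ 2 * n} :=
    ⟨_, rfl⟩
  have hSm : MeasurableSet S := by
    rw [hS]
    exact measurableSet_le (by fun_prop) measurable_const
  obtain ⟨F, hF⟩ : ∃ F : (Fin n → ℝ) → ENNReal, F = fun x => ENNReal.ofReal
    (Real.exp ((8 * s / n) * ‖∑ i ∈ I, ∑ j ∈ Iᶜ, (x i * x j) • w i j‖)) := ⟨_, rfl⟩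
  have hFm : Measurable F := by
    rw [hF]
    have hc : Continuous fun x : Fin n → ℝ =>
        Real.exp ((8 * s / n) * ‖∑ i ∈ I, ∑ j ∈ Iᶜ, (x i * x j) • w i j‖) := by fun_prop
    exact ENNReal.measurable_ofReal.comp hc.measurable
  have hGm : Measurable (S.indicator F) := hFm.indicator hSm
  have hmp := piecewise_mp μ I
  rw [← hS]
  calc ∫⁻ x in S, ENNReal.ofReal
        (Real.exp ((8 * s / n) * ‖∑ i ∈ I, ∑ j ∈ Iᶜ, (x i * x j) • w i j‖)) ∂(Measure.pi μ)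
      = ∫⁻ x in S, F x ∂(Measure.pi μ) := by rw [hF]
    _ = ∫⁻ x, S.indicator F x ∂(Measure.pi μ) := (lintegral_indicator hSm F).symm
    _ = ∫⁻ p, S.indicator F (I.piecewise p.1 p.2) ∂((Measure.pi μ).prod (Measure.pi μ)) :=
        (hmp.lintegral_comp hGm).symm
    _ = ∫⁻ z, ∫⁻ y, S.indicator F (I.piecewise y z) ∂(Measure.pi μ) ∂(Measure.pi μ) :=
        lintegral_prod_symm _ (hGm.comp hmp.measurable).aemeasurable
    _ ≤ ∫⁻ _z : Fin n → ℝ, ENNReal.ofReal (2 * Real.exp (512 * c * s ^ 2 / n))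
        ∂(Measure.pi μ) := by
        refine lintegral_mono fun z => ?_
        by_cases hz : ∑ j ∈ Iᶜ, z j ^ 2 ≤ 2 * n
        · refine le_trans (lintegral_mono fun y => ?_) (vec_lin hn μ c hc hm w hw s hs I z hz)
          refine le_trans (Set.indicator_le_self S F _) (le_of_eq ?_)
          rw [hF]
          have h1 : ∑ i ∈ I, ∑ j ∈ Iᶜ, (I.piecewise y z i * I.piecewise y z j) • w i j =
              ∑ i ∈ I, ∑ j ∈ Iᶜ, (y i * z j) • w i j := by
            refine Finset.sum_congr rfl fun i hi => Finset.sum_congr rfl fun j hj => ?_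
            rw [Finset.piecewise_eq_of_mem _ _ _ hi,
              Finset.piecewise_eq_of_notMem _ _ _ (Finset.mem_compl.mp hj)]
          simp only [h1]
        · have h0 : ∀ y : Fin n → ℝ, S.indicator F (I.piecewise y z) = 0 := by
            intro y
            refine Set.indicator_of_notMem ?_ F
            rw [hS]
            intro hmem
            apply hz
            refine le_trans ?_ hmem
            calc ∑ j ∈ Iᶜ, z j ^ 2 = ∑ j ∈ Iᶜ, I.piecewise y z j ^ 2 := by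
                  refine Finset.sum_congr rfl fun j hj => ?_
                  rw [Finset.piecewise_eq_of_notMem _ _ _ (Finset.mem_compl.mp hj)]
              _ ≤ ∑ j, I.piecewise y z j ^ 2 :=
                  Finset.sum_le_sum_of_subset_of_nonneg (Finset.subset_univ _)
                    fun j _ _ => sq_nonneg _
          simp only [h0, lintegral_zero]
          exact bot_le
    _ = ENNReal.ofReal (2 * Real.exp (512 * c * s ^ 2 / n)) := by
        rw [lintegral_const, measure_univ, mul_one]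

/-- the off-diagonal part -/
theorem vec_off {H : Type*} [NormedAddCommGroup H] [InnerProductSpace ℝ H]
    {n : ℕ} (hn : 0 < n) (μ : Fin n → Measure ℝ) [∀ i, IsProbabilityMeasure (μ i)]
    (c : ℝ) (hc : 0 < c)
    (hm : ∀ i t, ∫⁻ x, ENNReal.ofReal (Real.exp (t * x)) ∂(μ i) ≤
      ENNReal.ofReal (Real.exp (c * t ^ 2)))
    (w : Fin n → Fin n → H)
    (hw : ∀ v : Fin n → ℝ, ∑ i, ‖∑ j, v j • w i j‖ ^ 2 ≤ 4 * ∑ i, v i ^ 2)
    (s : ℝ) (hs : 0 ≤ s) :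
    ∫⁻ x in {x : Fin n → ℝ | ∑ i, x i ^ 2 ≤ 2 * n},
      ENNReal.ofReal (Real.exp (2 * (s * ‖(1 / n : ℝ) • ∑ i,
        ∑ j ∈ Finset.univ.filter (· ≠ i), (x i * x j) • w i j‖)))
      ∂(Measure.pi μ) ≤
      ENNReal.ofReal (2 * Real.exp (512 * c * s ^ 2 / n)) := by
  have hn' : (0 : ℝ) < n := by exact_mod_cast hn
  have h2n : (0 : ℝ) < 2 ^ n := by positivity
  have hpt : ∀ x : Fin n → ℝ, ENNReal.ofReal (Real.exp (2 * (s * ‖(1 / n : ℝ) • ∑ i,
        ∑ j ∈ Finset.univ.filter (· ≠ i), (x i * x j) • w i j‖))) ≤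
      ENNReal.ofReal (1 / 2 ^ n) * ∑ I : Finset (Fin n), ENNReal.ofReal
        (Real.exp ((8 * s / n) * ‖∑ i ∈ I, ∑ j ∈ Iᶜ, (x i * x j) • w i j‖)) := by
    intro x
    rw [← ENNReal.ofReal_sum_of_nonneg fun I _ => (Real.exp_pos _).le,
      ← ENNReal.ofReal_mul (by positivity)]
    apply ENNReal.ofReal_le_ofReal
    refine le_trans (Real.exp_le_exp.mpr ?_) (exp_avg _)
    rw [subset_avg (fun i j => (x i * x j) • w i j), smul_smul, norm_smul, Real.norm_eq_abs,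
      abs_of_nonneg (by positivity)]
    calc 2 * (s * (1 / n * (4 / 2 ^ n) *
          ‖∑ I : Finset (Fin n), ∑ i ∈ I, ∑ j ∈ Iᶜ, (x i * x j) • w i j‖))
        ≤ 2 * (s * (1 / n * (4 / 2 ^ n) *
          ∑ I : Finset (Fin n), ‖∑ i ∈ I, ∑ j ∈ Iᶜ, (x i * x j) • w i j‖)) := by
          gcongr
          exact norm_sum_le _ _
      _ = 1 / 2 ^ n * ∑ I : Finset (Fin n),
          (8 * s / n) * ‖∑ i ∈ I, ∑ j ∈ Iᶜ, (x i * x j) • w i j‖ := by
          rw [← Finset.mul_sum]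
          ring
  have hmeas : ∀ I : Finset (Fin n), Measurable fun x : Fin n → ℝ => ENNReal.ofReal
        (Real.exp ((8 * s / n) * ‖∑ i ∈ I, ∑ j ∈ Iᶜ, (x i * x j) • w i j‖)) := by
    intro I
    have hc : Continuous fun x : Fin n → ℝ =>
        Real.exp ((8 * s / n) * ‖∑ i ∈ I, ∑ j ∈ Iᶜ, (x i * x j) • w i j‖) := by fun_prop
    exact ENNReal.measurable_ofReal.comp hc.measurable
  refine le_trans (lintegral_mono hpt) ?_
  rw [lintegral_const_mul' _ _ ENNReal.ofReal_ne_top, lintegral_finsetSum _ fun I _ => hmeas I]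
  calc ENNReal.ofReal (1 / 2 ^ n) * ∑ I : Finset (Fin n),
        ∫⁻ x in {x : Fin n → ℝ | ∑ i, x i ^ 2 ≤ 2 * n}, ENNReal.ofReal
        (Real.exp ((8 * s / n) * ‖∑ i ∈ I, ∑ j ∈ Iᶜ, (x i * x j) • w i j‖)) ∂(Measure.pi μ)
      ≤ ENNReal.ofReal (1 / 2 ^ n) * ∑ _I : Finset (Fin n),
        ENNReal.ofReal (2 * Real.exp (512 * c * s ^ 2 / n)) := by
        refine mul_le_mul_right (Finset.sum_le_sum fun I _ => ?_) _
        exact vec_offI hn μ c hc hm w hw s hs I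
    _ = ENNReal.ofReal (2 * Real.exp (512 * c * s ^ 2 / n)) := by
        rw [← ENNReal.ofReal_sum_of_nonneg fun I _ => by positivity,
          ← ENNReal.ofReal_mul (by positivity)]
        congr 1
        rw [Finset.sum_const, Finset.card_univ, Fintype.card_finset, Fintype.card_fin,
          nsmul_eq_mul]
        push_cast
        field_simp

/-- The exponential moment of the norm of a traceless vector valued quadratic form
`E₀ = (1/n) ∑_{ij} xᵢxⱼ w_ij` with `∑ w_ii = 0` and `∑ᵢ‖∑ⱼ vⱼ w_ij‖² ≤ 4‖v‖²`, on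
`{‖x‖² ≤ 2n}`: `E exp(s‖E₀‖) ≤ 2 exp((8C+256c)s²/n)` for `0 ≤ s`, `4s/n ≤ t₀`.
Proof: `E₀ = (1/n)∑(xᵢ²-1)w_ii + (1/n)∑_{i≠j}xᵢxⱼw_ij`, `cs_exp`.  Diagonal part:
`exp ≤ 2 cosh`, `cosh_sum` with `φ x = x²-1`, `Zᵢ = (2s/n)w_ii`, `‖w_ii‖ ≤ 2` (take `v = eᵢ`),
`∑‖Zᵢ‖² ≤ 16s²/n`.  Off-diagonal part `O = 4·avg_I O_I`, `exp(2s‖O‖) ≤ avg_I exp(8s‖O_I‖)`;
resample with `piecewise_mp`; for fixed `z` (with `∑_{j∉I}zⱼ² ≤ 2n`) `cosh_sum` with `φ x = x`,
`Zᵢ = (8s/n)∑_{j∉I}zⱼw_ij` for `i ∈ I`, `0` for `i ∉ I`: `∑‖Zᵢ‖² ≤ 512 s²/n` (the linear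
moment bound holds for all `t`). -/
theorem vec_mgf {H : Type*} [NormedAddCommGroup H] [InnerProductSpace ℝ H]
    {n : ℕ} (hn : 0 < n) (μ : Fin n → Measure ℝ) [∀ i, IsProbabilityMeasure (μ i)]
    (c C t₀ : ℝ) (hc : 0 < c) (hC : 0 ≤ C)
    (hm : ∀ i t, ∫⁻ x, ENNReal.ofReal (Real.exp (t * x)) ∂(μ i) ≤
      ENNReal.ofReal (Real.exp (c * t ^ 2)))
    (hq : ∀ i t, |t| ≤ t₀ → ∫⁻ x, ENNReal.ofReal (Real.exp (t * (x ^ 2 - 1))) ∂(μ i) ≤
      ENNReal.ofReal (Real.exp (C * t ^ 2)))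
    (w : Fin n → Fin n → H) (hw0 : ∑ i, w i i = 0)
    (hw : ∀ v : Fin n → ℝ, ∑ i, ‖∑ j, v j • w i j‖ ^ 2 ≤ 4 * ∑ i, v i ^ 2)
    (s : ℝ) (hs : 0 ≤ s) (hst : 4 * s / n ≤ t₀) :
    ∫⁻ x in {x : Fin n → ℝ | ∑ i, x i ^ 2 ≤ 2 * n},
      ENNReal.ofReal (Real.exp (s * ‖(1 / n : ℝ) • ∑ i, ∑ j, (x i * x j) • w i j‖))
      ∂(Measure.pi μ) ≤
      ENNReal.ofReal (2 * Real.exp ((8 * C + 256 * c) * s ^ 2 / n)) := by
  have hn' : (0 : ℝ) < n := by exact_mod_cast hn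
  have hw2 : ∀ i, ‖w i i‖ ≤ 2 := by
    intro i
    have h1 := hw (Pi.single i 1)
    have h2 : ∑ k, (Pi.single i (1 : ℝ) : Fin n → ℝ) k ^ 2 = 1 := by
      rw [Finset.sum_eq_single_of_mem i (Finset.mem_univ i)]
      · rw [Pi.single_eq_same]
        norm_num
      · intro k _ hk
        rw [Pi.single_eq_of_ne hk]
        norm_num
    have h3 : ∀ k, ∑ j, (Pi.single i (1 : ℝ) : Fin n → ℝ) j • w k j = w k i := by
      intro k
      rw [Finset.sum_eq_single_of_mem i (Finset.mem_univ i)]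
      · rw [Pi.single_eq_same, one_smul]
      · intro j _ hj
        rw [Pi.single_eq_of_ne hj, zero_smul]
    rw [h2, Finset.sum_congr rfl fun k _ => by rw [h3 k]] at h1
    have h4 : ‖w i i‖ ^ 2 ≤ ∑ k, ‖w k i‖ ^ 2 :=
      Finset.single_le_sum (f := fun k => ‖w k i‖ ^ 2) (fun k _ => sq_nonneg _)
        (Finset.mem_univ i)
    have h5 : ‖w i i‖ ^ 2 ≤ 2 ^ 2 := by linarith
    exact le_of_sq_le_sq h5 (by norm_num)
  have hdec : ∀ x : Fin n → ℝ, (1 / n : ℝ) • ∑ i, ∑ j, (x i * x j) • w i j =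
      (1 / n : ℝ) • ∑ i, (x i ^ 2 - 1) • w i i + (1 / n : ℝ) • ∑ i,
        ∑ j ∈ Finset.univ.filter (· ≠ i), (x i * x j) • w i j := by
    intro x
    rw [← smul_add]
    congr 1
    have h1 : ∑ i, (x i ^ 2 - 1) • w i i = ∑ i, (x i * x i) • w i i := by
      have h2 : ∀ i, (x i ^ 2 - 1) • w i i = (x i * x i) • w i i - w i i := by
        intro i
        rw [sub_smul, one_smul, sq]
      rw [Finset.sum_congr rfl fun i _ => h2 i, Finset.sum_sub_distrib, hw0, sub_zero]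
    rw [h1, ← Finset.sum_add_distrib]
    refine Finset.sum_congr rfl fun i _ => ?_
    have h3 := Finset.sum_filter_add_sum_filter_not Finset.univ (fun j => j ≠ i)
      (fun j => (x i * x j) • w i j)
    have h4 : Finset.univ.filter (fun j => ¬ j ≠ i) = {i} := by
      ext j
      simp
    rw [h4, Finset.sum_singleton] at h3
    rw [← h3, add_comm]
  have hA : (0 : ℝ) ≤ √2 * Real.exp (8 * C * s ^ 2 / n) := by positivity
  have hB : (0 : ℝ) ≤ √2 * Real.exp (256 * c * s ^ 2 / n) := by positivity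
  have hA2 : (√2 * Real.exp (8 * C * s ^ 2 / n)) ^ 2 = 2 * Real.exp (16 * C * s ^ 2 / n) := by
    rw [mul_pow, Real.sq_sqrt (by norm_num), ← Real.exp_nat_mul]
    congr 2
    push_cast
    ring
  have hB2 : (√2 * Real.exp (256 * c * s ^ 2 / n)) ^ 2 = 2 * Real.exp (512 * c * s ^ 2 / n) := by
    rw [mul_pow, Real.sq_sqrt (by norm_num), ← Real.exp_nat_mul]
    congr 2
    push_cast
    ring
  have hf : Measurable fun x : Fin n → ℝ => s * ‖(1 / n : ℝ) • ∑ i, (x i ^ 2 - 1) • w i i‖ := by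
    have hc : Continuous fun x : Fin n → ℝ =>
      s * ‖(1 / n : ℝ) • ∑ i, (x i ^ 2 - 1) • w i i‖ := by fun_prop
    exact hc.measurable
  have hg : Measurable fun x : Fin n → ℝ => s * ‖(1 / n : ℝ) • ∑ i,
        ∑ j ∈ Finset.univ.filter (· ≠ i), (x i * x j) • w i j‖ := by
    have hc : Continuous fun x : Fin n → ℝ => s * ‖(1 / n : ℝ) • ∑ i,
        ∑ j ∈ Finset.univ.filter (· ≠ i), (x i * x j) • w i j‖ := by fun_prop
    exact hc.measurable
  have key := cs_exp ((Measure.pi μ).restrict {x : Fin n → ℝ | ∑ i, x i ^ 2 ≤ 2 * n})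
    _ _ hf hg _ _ hA hB (by
      rw [hA2]
      refine le_trans (lintegral_mono' Measure.restrict_le_self le_rfl) ?_
      exact vec_diag hn μ C t₀ hC hq (fun i => w i i) hw2 s hs hst) (by
      rw [hB2]
      exact vec_off hn μ c hc hm w hw s hs)
  refine le_trans (lintegral_mono fun x => ?_) (le_trans key (le_of_eq ?_))
  · apply ENNReal.ofReal_le_ofReal
    apply Real.exp_le_exp.mpr
    rw [hdec x, ← mul_add]
    exact mul_le_mul_of_nonneg_left (norm_add_le _ _) hs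
  · congr 1
    have h2 : √2 * √2 = 2 := Real.mul_self_sqrt (by norm_num)
    calc √2 * Real.exp (8 * C * s ^ 2 / n) * (√2 * Real.exp (256 * c * s ^ 2 / n))
        = (√2 * √2) * (Real.exp (8 * C * s ^ 2 / n) * Real.exp (256 * c * s ^ 2 / n)) := by ring
      _ = 2 * Real.exp ((8 * C + 256 * c) * s ^ 2 / n) := by
          rw [h2, ← Real.exp_add]
          congr 2
          ring

end Pool.Agent.MP_2a72d7_pr.Pos
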