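import Mathlib
import Pool.Agent.MP_2a72d7_pr.Defs
import Pool.Agent.MP_2a72d7_pr.Sm.Base
import Pool.Agent.MP_2a72d7_pr.Pos.Base
import Pool.Agent.MP_2a72d7_pr.Sm.P_mom1
import Pool.Agent.MP_2a72d7_pr.Pos.R_adm
import Pool.Agent.MP_2a72d7_pr.Pos.R_hw
import Pool.Agent.MP_2a72d7_pr.Pos.R_vec
import Pool.Agent.MP_2a72d7_pr.Pos.R_expsq
import Pool.Agent.MP_2a72d7_pr.Pos.R_normtail
import Pool.Agent.MP_2a72d7_pr.Pos.R_ctrn
import Pool.Agent.MP_2a72d7_pr.Pos.R_ctrb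
import Pool.Agent.MP_2a72d7_pr.Pos.R_cvsq
import Pool.Agent.MP_2a72d7_pr.Pos.R_expo
import Pool.Agent.MP_2a72d7_pr.Pos.R_E0
import Pool.Agent.MP_2a72d7_pr.Pos.R_Bm
import Pool.Agent.MP_2a72d7_pr.Pos.R_cs
import Pool.Agent.MP_2a72d7_pr.Pos.R_blk
import Pool.Agent.MP_2a72d7_pr.Pos.R_K1

namespace Pool.Agent.MP_2a72d7_pr.Pos

open MeasureTheory Matrix Pool.Agent.MP_2a72d7_pr.Sm

theorem osl_scal1 {L lam : ℝ} (hL : 1 ≤ L ^ 2)
    (hl1 : lam ≤ 1 / (20000 * L ^ 4)) : 20000 * (L ^ 4 * lam) ≤ 1 := by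
  have h4 : 0 < L ^ 4 := by nlinarith [hL, sq_nonneg (L ^ 2)]
  rw [le_div_iff₀ (by positivity)] at hl1
  nlinarith [hl1]

theorem osl_L4 {L : ℝ} (hL : 1 ≤ L ^ 2) : L ^ 2 ≤ L ^ 4 := by
  have h : L ^ 4 = L ^ 2 * L ^ 2 := by ring
  rw [h]
  nlinarith [hL]

/-- quadratic part: `E exp(4|xᵀBx|) ≤ 2 exp(2560 L⁴ ‖B‖²)` -/
theorem osl_quad {L : ℝ} (hL : 1 ≤ L ^ 2) (lam : ℝ) (hl0 : 0 < lam)
    (hl1 : lam ≤ 1 / (20000 * L ^ 4)) {n : ℕ} (ν : Fin n → Measure ℝ)
    (h : ∀ i, Admissible L (ν i)) (B : Fin n → Fin n → ℝ) (htr : ∑ i, B i i = 0)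
    (hb : ∀ v : Fin n → ℝ, ∑ i, (∑ j, B i j * v j) ^ 2 ≤ (4 * lam) ^ 2 * ∑ i, v i ^ 2) :
    ∫⁻ x, ENNReal.ofReal (Real.exp (2 * (2 * |∑ i, ∑ j, B i j * (x i * x j)|)))
      ∂(Measure.pi ν) ≤
      ENNReal.ofReal (2 * Real.exp (2560 * L ^ 4 * ∑ i, ∑ j, B i j ^ 2)) := by
  have hp : ∀ i, IsProbabilityMeasure (ν i) := fun i => (h i).prob
  have hs := osl_scal1 hL hl1
  have hL4 := osl_L4 hL
  have hL2 : 0 < L ^ 2 := by linarith
  have hL40 : 0 < L ^ 4 := by linarith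
  have hlam1 : 20000 * (L ^ 2 * lam) ≤ 1 := by
    have : L ^ 2 * lam ≤ L ^ 4 * lam := mul_le_mul_of_nonneg_right hL4 hl0.le
    linarith
  have key : ∀ ε : ℝ, ε ^ 2 = 1 →
      ∫⁻ x, ENNReal.ofReal (Real.exp (4 * ε * ∑ i, ∑ j, B i j * (x i * x j)))
      ∂(Measure.pi ν) ≤ ENNReal.ofReal (Real.exp (2560 * L ^ 4 * ∑ i, ∑ j, B i j ^ 2)) := by
    intro ε hε
    have h1 := hanson_wright ν (L ^ 2) (16 * L ^ 4) (1 / (2 * L ^ 2)) hL2 (by positivity)
      (fun i t => mgf_lin (h i) t) (fun i t ht => mgf_sq (h i) t ht)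
      (Matrix.of fun i j => 4 * ε * B i j) (16 * lam) (by positivity)
      (by
        intro v
        have h2 := hb v
        have h3 : ∀ i, (∑ j, (Matrix.of fun i j => 4 * ε * B i j) i j * v j) ^ 2 =
            16 * (∑ j, B i j * v j) ^ 2 := by
          intro i
          have h4 : ∑ j, (Matrix.of fun i j => 4 * ε * B i j) i j * v j =
              4 * ε * ∑ j, B i j * v j := by
            rw [Finset.mul_sum]
            refine Finset.sum_congr rfl fun j _ => ?_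
            simp only [Matrix.of_apply]
            ring
          rw [h4]
          calc (4 * ε * ∑ j, B i j * v j) ^ 2 = 16 * ε ^ 2 * (∑ j, B i j * v j) ^ 2 := by ring
            _ = 16 * (∑ j, B i j * v j) ^ 2 := by rw [hε]; ring
        simp_rw [h3]
        rw [← Finset.mul_sum]
        nlinarith [h2])
      (by
        rw [le_div_iff₀ (by positivity)]
        nlinarith [hlam1])
      (by
        have h5 : (L ^ 2 * lam) ^ 2 ≤ (1 / 20000) ^ 2 := by
          apply pow_le_pow_left₀ (by positivity)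
          linarith
        have h6 : 512 * (L ^ 2) ^ 2 * (16 * lam) ^ 2 = 131072 * (L ^ 2 * lam) ^ 2 := by ring
        rw [h6]
        nlinarith [h5])
    refine le_trans (le_of_eq ?_) (h1.trans (le_of_eq ?_))
    · refine lintegral_congr fun x => ?_
      congr 2
      have h7 : ∑ i, (Matrix.of fun i j => 4 * ε * B i j) i i = 4 * ε * ∑ i, B i i := by
        rw [Finset.mul_sum]
        simp only [Matrix.of_apply]
      rw [h7, htr, mul_zero, sub_zero, Finset.mul_sum]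
      refine Finset.sum_congr rfl fun i _ => ?_
      rw [Finset.mul_sum]
      refine Finset.sum_congr rfl fun j _ => ?_
      simp only [Matrix.of_apply]
      ring
    · congr 2
      have h8 : ∑ i, ∑ j, (Matrix.of fun i j => 4 * ε * B i j) i j ^ 2 =
          16 * ∑ i, ∑ j, B i j ^ 2 := by
        rw [Finset.mul_sum]
        refine Finset.sum_congr rfl fun i _ => ?_
        rw [Finset.mul_sum]
        refine Finset.sum_congr rfl fun j _ => ?_
        simp only [Matrix.of_apply]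
        calc (4 * ε * B i j) ^ 2 = 16 * ε ^ 2 * B i j ^ 2 := by ring
          _ = 16 * B i j ^ 2 := by rw [hε]; ring
      rw [h8]
      ring
  have hpt : ∀ x : Fin n → ℝ,
      ENNReal.ofReal (Real.exp (2 * (2 * |∑ i, ∑ j, B i j * (x i * x j)|))) ≤
      ENNReal.ofReal (Real.exp (4 * 1 * ∑ i, ∑ j, B i j * (x i * x j))) +
      ENNReal.ofReal (Real.exp (4 * (-1) * ∑ i, ∑ j, B i j * (x i * x j))) := by
    intro x
    rw [← ENNReal.ofReal_add (Real.exp_pos _).le (Real.exp_pos _).le]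
    apply ENNReal.ofReal_le_ofReal
    rcases le_total 0 (∑ i, ∑ j, B i j * (x i * x j)) with h0 | h0
    · rw [abs_of_nonneg h0]
      have e1 : 2 * (2 * ∑ i, ∑ j, B i j * (x i * x j)) =
        4 * 1 * ∑ i, ∑ j, B i j * (x i * x j) := by ring
      rw [e1]
      linarith [Real.exp_pos (4 * (-1) * ∑ i, ∑ j, B i j * (x i * x j))]
    · rw [abs_of_nonpos h0]
      have e1 : 2 * (2 * -∑ i, ∑ j, B i j * (x i * x j)) =
        4 * (-1) * ∑ i, ∑ j, B i j * (x i * x j) := by ring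
      rw [e1]
      linarith [Real.exp_pos (4 * 1 * ∑ i, ∑ j, B i j * (x i * x j))]
  refine (lintegral_mono hpt).trans ?_
  rw [lintegral_add_left (by fun_prop)]
  refine (add_le_add (key 1 (by norm_num)) (key (-1) (by norm_num))).trans (le_of_eq ?_)
  rw [← ENNReal.ofReal_add (Real.exp_pos _).le (Real.exp_pos _).le]
  congr 1
  ring

theorem osl_E0_meas {n : ℕ} {κ : Type*} [Fintype κ] [DecidableEq κ]
    (Q : Matrix (Fin n × κ) (Fin n × κ) ℝ) : Measurable fun x : Fin n → ℝ => ‖E0 Q x‖ := by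
  apply Continuous.measurable
  unfold E0
  fun_prop

/-- the part of the centred blocks -/
theorem osl_E0 {L : ℝ} (hL : 1 ≤ L ^ 2) (lam : ℝ) (hl0 : 0 < lam)
    (hl1 : lam ≤ 1 / (20000 * L ^ 4)) {n : ℕ} (hn : 0 < n) (ν : Fin n → Measure ℝ)
    (h : ∀ i, Admissible L (ν i)) {κ : Type*} [Fintype κ] [DecidableEq κ] [Nonempty κ]
    (Q : Matrix (Fin n × κ) (Fin n × κ) ℝ) (hQ : Ctr Q) :
    ∫⁻ x in {x : Fin n → ℝ | ∑ i, x i ^ 2 ≤ 2 * n},
      ENNReal.ofReal (Real.exp (8 * (5120 * L ^ 4 * lam ^ 2) * n * ‖E0 Q x‖ ^ 2))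
      ∂(Measure.pi ν) ≤ ENNReal.ofReal 6 := by
  have hp : ∀ i, IsProbabilityMeasure (ν i) := fun i => (h i).prob
  have hs := osl_scal1 hL hl1
  have hL4 := osl_L4 hL
  have hL2 : 0 < L ^ 2 := by linarith
  have hL40 : 0 < L ^ 4 := by linarith
  have hS : MeasurableSet {x : Fin n → ℝ | ∑ i, x i ^ 2 ≤ 2 * n} := by
    apply measurableSet_le <;> fun_prop
  refine exp_sq (Measure.pi ν) _ hS prob_le_one (fun x => ‖E0 Q x‖) (osl_E0_meas Q) n hn
    (8 * (16 * L ^ 4) + 256 * L ^ 2) (1 / (2 * L ^ 2)) (by positivity) ?_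
    (fun x => norm_nonneg _) (fun x hx => E0_le hn Q hQ x hx) ?_
    (8 * (5120 * L ^ 4 * lam ^ 2)) (by positivity) ?_
  · have e1 : (8 * (16 * L ^ 4) + 256 * L ^ 2) * (1 / (2 * L ^ 2)) = 64 * L ^ 2 + 128 := by
      have hL0 : L ≠ 0 := by
        rintro rfl
        norm_num at hL2
      field_simp
      ring
    rw [e1]
    linarith
  · intro s hs0 hst
    exact vec_mgf hn ν (L ^ 2) (16 * L ^ 4) (1 / (2 * L ^ 2)) hL2 (by positivity)
      (fun i t => mgf_lin (h i) t) (fun i t ht => mgf_sq (h i) t ht) (cv Q) (cv_sum hn Q)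
      (cv_K1 Q hQ) s hs0 hst
  · have h1 : (L ^ 4 * lam) ^ 2 ≤ (1 / 20000) ^ 2 := by
      apply pow_le_pow_left₀ (by positivity)
      linarith
    have h2 : 8 * (8 * (16 * L ^ 4) + 256 * L ^ 2) * (8 * (5120 * L ^ 4 * lam ^ 2)) ≤
        8 * (8 * (16 * L ^ 4) + 256 * L ^ 4) * (8 * (5120 * L ^ 4 * lam ^ 2)) := by
      apply mul_le_mul_of_nonneg_right _ (by positivity)
      linarith
    have h3 : 8 * (8 * (16 * L ^ 4) + 256 * L ^ 4) * (8 * (5120 * L ^ 4 * lam ^ 2)) =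
      125829120 * (L ^ 4 * lam) ^ 2 := by ring
    rw [h3] at h2
    refine h2.trans ?_
    nlinarith [h1]

/-- **One step.** `E Ψ(R(x)) ≤ 12 Ψ(Q)` for `0 < λ ≤ 1/(20000 L⁴)`, `γ = 5120 L⁴ λ²`.
Proof.  Good event `G = {n/2 ≤ ‖x‖² ≤ 2n}`.  On `G` (`expo`):
`Ψ(R) ≤ exp(-λnτ(Q)+γn‖q̄‖²) exp(2|xᵀBx| + 4γn‖E₀‖²)`.  `cs_exp` on `G`:
`E exp(4|xᵀBx|) ≤ E e^{4xᵀBx} + E e^{-4xᵀBx} ≤ 2 exp(16·160L⁴‖B‖_F²)` (`hanson_wright` with
`c = L²`, `C = 16L⁴`, `t₀ = 1/(2L²)`, matrix `±4B`, `b = 16λ`, `tr B = 0`, `2C+128c² = 160L⁴`);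
`E exp(8γn‖E₀‖²) 1_G ≤ 6` (`exp_sq` with `κ = 8γ`, `C₂ = 128L⁴+256L²`, `vec_mgf` with `w = cv Q`,
`cv_sum`, `cv_K1`, `E0_le`).  So the good part is at most
`√12 exp(-λnτ(Q) + γn‖q̄‖² + 8·160L⁴·4λ²α)`, `α = ∑‖c_ij‖² = nβ(Q) - n‖q̄‖²` (`cv_sq`,
`Bm_bounds`), which is `√12 Ψ(Q)` since `γ = 32·160 L⁴λ²`.  Bad part: `Ψ(R) ≤ e^{γn}`
(`ctr_ncon`, `ctr_bounds`), `Ψ(Q) ≥ e^{-λn}`, `norm_tail`, `γ + λ ≤ 1/(256L⁴)`: at most
`2Ψ(Q)`.  `mgf_lin`, `mgf_sq`, `one_le_L`. -/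
theorem osl {L : ℝ} (hL : 1 ≤ L ^ 2) (lam : ℝ) (hl0 : 0 < lam)
    (hl1 : lam ≤ 1 / (20000 * L ^ 4)) {n : ℕ} (hn : 0 < n) (ν : Fin n → Measure ℝ)
    (h : ∀ i, Admissible L (ν i)) {κ : Type*} [Fintype κ] [DecidableEq κ] [Nonempty κ]
    (Q : Matrix (Fin n × κ) (Fin n × κ) ℝ) (hQ : Ctr Q) :
    ∫⁻ x, ENNReal.ofReal (Psi lam (5120 * L ^ 4 * lam ^ 2) n (ncon Q x)) ∂(Measure.pi ν) ≤
      ENNReal.ofReal (12 * Psi lam (5120 * L ^ 4 * lam ^ 2) n Q) := by
  have hp : ∀ i, IsProbabilityMeasure (ν i) := fun i => (h i).prob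
  have hs := osl_scal1 hL hl1
  have hL4 := osl_L4 hL
  have hL2 : 0 < L ^ 2 := by linarith
  have hL40 : 0 < L ^ 4 := by linarith
  set gam : ℝ := 5120 * L ^ 4 * lam ^ 2 with hgam
  have hg0 : 0 ≤ gam := by positivity
  have hgl : 2 * gam ≤ lam := by
    have e1 : 2 * gam = 10240 * (L ^ 4 * lam) * lam := by rw [hgam]; ring
    rw [e1]
    nlinarith [hs, hl0]
  have hn' : (0 : ℝ) < n := by exact_mod_cast hn
  obtain ⟨hB1, hB2, hB3⟩ := Bm_bounds hn Q hQ lam gam hl0.le hg0 hgl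
  set G : Set (Fin n → ℝ) := {x | (n : ℝ) / 2 ≤ ∑ i, x i ^ 2 ∧ ∑ i, x i ^ 2 ≤ 2 * n} with hG
  have hGm : MeasurableSet G := by
    rw [hG]
    have hm : Measurable fun x : Fin n → ℝ => ∑ i, x i ^ 2 := by fun_prop
    exact (measurableSet_le measurable_const hm).inter (measurableSet_le hm measurable_const)
  have hsplit := lintegral_add_compl (μ := Measure.pi ν)
    (fun x => ENNReal.ofReal (Psi lam gam n (ncon Q x))) hGm
  rw [← hsplit]
  set F2 : ℝ := ∑ i, ∑ j, Bm lam gam Q i j ^ 2 with hF2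
  set E : ℝ := -(lam * n * tau Q) + gam * n * ‖qb Q‖ ^ 2 with hE
  -- the good part
  have hgood : ∫⁻ x in G, ENNReal.ofReal (Psi lam gam n (ncon Q x)) ∂(Measure.pi ν) ≤
      ENNReal.ofReal (√12 * Psi lam gam n Q) := by
    have h1 : ∫⁻ x in G, ENNReal.ofReal (Psi lam gam n (ncon Q x)) ∂(Measure.pi ν) ≤
        ∫⁻ x in G, ENNReal.ofReal (Real.exp E) * ENNReal.ofReal (Real.exp
          (2 * |∑ i, ∑ j, Bm lam gam Q i j * (x i * x j)| + 4 * gam * n * ‖E0 Q x‖ ^ 2))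
          ∂(Measure.pi ν) := by
      refine setLIntegral_mono' hGm fun x hx => ?_
      rw [← ENNReal.ofReal_mul (Real.exp_pos _).le, ← Real.exp_add]
      apply ENNReal.ofReal_le_ofReal
      unfold Psi
      apply Real.exp_le_exp.mpr
      have := expo hn Q lam gam hl0.le hg0 x hx.1 hx.2
      rw [hE]
      linarith
    refine h1.trans ?_
    have hmf : Measurable fun x : Fin n → ℝ =>
        2 * |∑ i, ∑ j, Bm lam gam Q i j * (x i * x j)| := by
      apply Continuous.measurable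
      fun_prop
    have hmg : Measurable fun x : Fin n → ℝ => 4 * gam * n * ‖E0 Q x‖ ^ 2 :=
      ((osl_E0_meas Q).pow_const 2).const_mul _
    rw [lintegral_const_mul _ (by
      exact ENNReal.measurable_ofReal.comp (Real.measurable_exp.comp (hmf.add hmg)))]
    have h2 := cs_exp ((Measure.pi ν).restrict G)
      (fun x => 2 * |∑ i, ∑ j, Bm lam gam Q i j * (x i * x j)|)
      (fun x => 4 * gam * n * ‖E0 Q x‖ ^ 2) hmf hmg
      (√2 * Real.exp (1280 * L ^ 4 * F2)) (√6) (by positivity) (by positivity)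
      (by
        refine (setLIntegral_le_lintegral _ _).trans ?_
        refine (osl_quad hL lam hl0 hl1 ν h (Bm lam gam Q) hB1 hB3).trans (le_of_eq ?_)
        congr 1
        rw [mul_pow, Real.sq_sqrt (by norm_num), ← Real.exp_nat_mul]
        congr 2
        push_cast
        ring)
      (by
        have h3 : ∫⁻ x in G, ENNReal.ofReal (Real.exp (2 * (4 * gam * n * ‖E0 Q x‖ ^ 2)))
            ∂(Measure.pi ν) ≤ ∫⁻ x in {x : Fin n → ℝ | ∑ i, x i ^ 2 ≤ 2 * n},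
            ENNReal.ofReal (Real.exp (8 * gam * n * ‖E0 Q x‖ ^ 2)) ∂(Measure.pi ν) := by
          refine le_trans (le_of_eq ?_) (lintegral_mono_set (fun x (hx : x ∈ G) => hx.2))
          refine lintegral_congr fun x => ?_
          congr 2
          ring
        refine h3.trans ?_
        rw [Real.sq_sqrt (by norm_num)]
        exact osl_E0 hL lam hl0 hl1 hn ν h Q hQ)
    refine (mul_le_mul_right h2 _).trans ?_
    rw [← ENNReal.ofReal_mul (Real.exp_pos _).le]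
    apply ENNReal.ofReal_le_ofReal
    have hsq : √2 * √6 = √12 := by
      rw [← Real.sqrt_mul (by norm_num)]
      norm_num
    have hcv := cv_sq hn Q
    have hF : 1280 * L ^ 4 * F2 ≤ gam * (n * beta Q - n * ‖qb Q‖ ^ 2) := by
      rw [← hcv, hgam]
      have : 1280 * L ^ 4 * F2 ≤ 1280 * L ^ 4 * (4 * lam ^ 2 * ∑ i, ∑ j, ‖cv Q i j‖ ^ 2) :=
        mul_le_mul_of_nonneg_left hB2 (by positivity)
      refine this.trans (le_of_eq ?_)
      ring
    calc Real.exp E * (√2 * Real.exp (1280 * L ^ 4 * F2) * √6)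
        = √12 * Real.exp (E + 1280 * L ^ 4 * F2) := by
          rw [← hsq, Real.exp_add E (1280 * L ^ 4 * F2)]
          ring
      _ ≤ √12 * Real.exp (-(lam * n * tau Q) + gam * n * beta Q) := by
          apply mul_le_mul_of_nonneg_left _ (by positivity)
          apply Real.exp_le_exp.mpr
          rw [hE]
          linarith
      _ = √12 * Psi lam gam n Q := rfl
  -- the bad part
  have hPQ : Real.exp (-(lam * n)) ≤ Psi lam gam n Q := by
    obtain ⟨ht0, ht1, hb0, hb1⟩ := ctr_bounds Q hQ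
    unfold Psi
    apply Real.exp_le_exp.mpr
    have h1 : lam * n * tau Q ≤ lam * n * 1 := mul_le_mul_of_nonneg_left ht1 (by positivity)
    have h2 : 0 ≤ gam * n * beta Q := by positivity
    linarith
  have hbad : ∫⁻ x in Gᶜ, ENNReal.ofReal (Psi lam gam n (ncon Q x)) ∂(Measure.pi ν) ≤
      ENNReal.ofReal (2 * Psi lam gam n Q) := by
    have h1 : ∫⁻ x in Gᶜ, ENNReal.ofReal (Psi lam gam n (ncon Q x)) ∂(Measure.pi ν) ≤
        ∫⁻ x in Gᶜ, ENNReal.ofReal (Real.exp (gam * n)) ∂(Measure.pi ν) := by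
      refine lintegral_mono fun x => ?_
      apply ENNReal.ofReal_le_ofReal
      obtain ⟨ht0, ht1, hb0, hb1⟩ := ctr_bounds (ncon Q x) (ctr_ncon Q hQ x)
      unfold Psi
      apply Real.exp_le_exp.mpr
      have h1 : gam * n * beta (ncon Q x) ≤ gam * n * 1 :=
        mul_le_mul_of_nonneg_left (hb1.trans ht1) (by positivity)
      have h2 : 0 ≤ lam * n * tau (ncon Q x) := by positivity
      linarith
    refine h1.trans ?_
    rw [setLIntegral_const]
    have h2 : Measure.pi ν Gᶜ ≤ ENNReal.ofReal (2 * Real.exp (-(n / (256 * L ^ 4)))) :=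
      norm_tail ν h
    refine (mul_le_mul_right h2 _).trans ?_
    rw [← ENNReal.ofReal_mul (Real.exp_pos _).le]
    apply ENNReal.ofReal_le_ofReal
    have h3 : Real.exp (gam * n) * (2 * Real.exp (-(n / (256 * L ^ 4)))) =
        2 * Real.exp (gam * n - n / (256 * L ^ 4)) := by
      rw [sub_eq_add_neg, Real.exp_add]
      ring
    rw [h3]
    refine mul_le_mul_of_nonneg_left (le_trans ?_ hPQ) (by norm_num)
    apply Real.exp_le_exp.mpr
    have h4 : gam + lam ≤ 1 / (256 * L ^ 4) := by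
      rw [le_div_iff₀ (by positivity)]
      have e1 : (gam + lam) * (256 * L ^ 4) =
        1310720 * (L ^ 4 * lam) ^ 2 + 256 * (L ^ 4 * lam) := by rw [hgam]; ring
      rw [e1]
      have h5 : (L ^ 4 * lam) ^ 2 ≤ (1 / 20000) ^ 2 := by
        apply pow_le_pow_left₀ (by positivity)
        linarith
      nlinarith [h5, hs]
    have h6 : (gam + lam) * n ≤ 1 / (256 * L ^ 4) * n := mul_le_mul_of_nonneg_right h4 hn'.le
    have h7 : 1 / (256 * L ^ 4) * n = n / (256 * L ^ 4) := by ring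
    rw [h7] at h6
    linarith
  refine (add_le_add hgood hbad).trans ?_
  have hP0 : 0 ≤ Psi lam gam n Q := (Real.exp_pos _).le
  rw [← ENNReal.ofReal_add (by positivity) (by positivity)]
  apply ENNReal.ofReal_le_ofReal
  have h12 : √12 ≤ 10 := by
    rw [Real.sqrt_le_left (by norm_num)]
    norm_num
  nlinarith [hP0, h12]

end Pool.Agent.MP_2a72d7_pr.Pos
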