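import Mathlib
import Pool.Agent.MP_2a72d7_pr.Defs
import Pool.Agent.MP_2a72d7_pr.Sm.Base
import Pool.Agent.MP_2a72d7_pr.Pos.Base
import Pool.Agent.MP_2a72d7_pr.Sm.P_con1
import Pool.Agent.MP_2a72d7_pr.Sm.P_iter
import Pool.Agent.MP_2a72d7_pr.Pos.R_osl
import Pool.Agent.MP_2a72d7_pr.Pos.R_ctrn
import Pool.Agent.MP_2a72d7_pr.Pos.R_ctrb

namespace Pool.Agent.MP_2a72d7_pr.Pos

open MeasureTheory Matrix Pool.Agent.MP_2a72d7_pr.Sm

theorem ct_quad_smul {ι : Type*} [Fintype ι] (c : ℝ) (A : Matrix ι ι ℝ) (v : ι → ℝ) :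
    quad (c • A) v = c * quad A v := by
  unfold quad
  rw [smul_mulVec, dotProduct_smul, smul_eq_mul]

theorem ct_ctr {ι κ : Type*} [Fintype ι] [Fintype κ] (e : κ ≃ ι) (A : Matrix ι ι ℝ)
    (hA : Ctr A) : Ctr (A.submatrix e e) := by
  refine ⟨fun i j => hA.symm _ _, fun v => ?_⟩
  have h1 := hA.le (fun i => v (e.symm i))
  have h2 : quad A (fun i => v (e.symm i)) = quad (A.submatrix e e) v := by
    rw [iter_quad_equiv e A]
    simp
  rw [h2] at h1
  refine le_trans (le_of_eq ?_) h1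
  rw [← Equiv.sum_comp e]
  refine Finset.sum_congr rfl fun i _ => ?_
  congr 1
  simp only [mulVec, dotProduct, Matrix.submatrix_apply]
  rw [← Equiv.sum_comp e (fun j => A (e i) j * v (e.symm j))]
  simp

theorem ct_tau {ι κ : Type*} [Fintype ι] [Fintype κ] (e : κ ≃ ι) (A : Matrix ι ι ℝ) :
    tau (A.submatrix e e) = tau A := by
  unfold tau
  rw [Fintype.card_congr e, ← Equiv.sum_comp e]
  rfl

theorem ct_beta {ι κ : Type*} [Fintype ι] [Fintype κ] (e : κ ≃ ι) (A : Matrix ι ι ℝ) :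
    beta (A.submatrix e e) = beta A := by
  unfold beta
  rw [Fintype.card_congr e, ← Equiv.sum_comp e]
  congr 1
  refine Finset.sum_congr rfl fun i _ => ?_
  rw [← Equiv.sum_comp e (fun j => A (e i) j ^ 2)]
  rfl

theorem ct_meas {n d : ℕ} (c : ℝ) (A : Matrix (Fin d → Fin n) (Fin d → Fin n) ℝ) :
    Measurable fun x : Fin d → Fin n → ℝ =>
      ENNReal.ofReal (Real.exp (-(c * (quad A (ten x) / ∑ J, ten x J ^ 2)))) := by
  have h : Continuous fun x : Fin d → Fin n → ℝ => quad A (ten x) := by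
    unfold quad ten
    simp only [dotProduct, mulVec]
    fun_prop
  have h2 : Continuous fun x : Fin d → Fin n → ℝ => ∑ J, ten x J ^ 2 := by
    unfold ten
    fun_prop
  exact ENNReal.measurable_ofReal.comp
    (Real.measurable_exp.comp (((h.measurable.div h2.measurable).const_mul c).neg))

theorem ct_sum {n d : ℕ} (x0 : Fin n → ℝ) (y : Fin d → Fin n → ℝ) :
    ∑ J, ten (Fin.cons x0 y : Fin (d + 1) → Fin n → ℝ) J ^ 2 =
      (∑ i, x0 i ^ 2) * ∑ J, ten y J ^ 2 := by
  rw [← Equiv.sum_comp (Fin.consEquiv (fun _ : Fin (d + 1) => Fin n)), Fintype.sum_prod_type,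
    Finset.sum_mul]
  refine Finset.sum_congr rfl fun i _ => ?_
  rw [Finset.mul_sum]
  refine Finset.sum_congr rfl fun J _ => ?_
  rw [iter_ten_cons, mul_pow]

theorem ct_ratio {n d : ℕ} (Q : Matrix (Fin (d + 1) → Fin n) (Fin (d + 1) → Fin n) ℝ)
    (x0 : Fin n → ℝ) (y : Fin d → Fin n → ℝ) :
    quad Q (ten (Fin.cons x0 y : Fin (d + 1) → Fin n → ℝ)) /
        ∑ J, ten (Fin.cons x0 y : Fin (d + 1) → Fin n → ℝ) J ^ 2 =
      quad (ncon (Q.submatrix (Fin.consEquiv (fun _ : Fin (d + 1) => Fin n))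
        (Fin.consEquiv (fun _ : Fin (d + 1) => Fin n))) x0) (ten y) / ∑ J, ten y J ^ 2 := by
  have hq : quad Q (ten (Fin.cons x0 y : Fin (d + 1) → Fin n → ℝ)) =
      quad (con (Q.submatrix (Fin.consEquiv (fun _ : Fin (d + 1) => Fin n))
        (Fin.consEquiv (fun _ : Fin (d + 1) => Fin n))) x0) (ten y) := by
    rw [iter_quad_equiv (Fin.consEquiv (fun _ : Fin (d + 1) => Fin n)) Q, quad_con]
    congr 1
    funext p
    exact iter_ten_cons x0 y p
  rw [hq, ct_sum, ncon, ct_quad_smul, div_mul_eq_div_div, div_eq_inv_mul (quad _ _)]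

/-- **All factors.** Induction on `d`, the factor `0` split off as in `iter`
(Sm/P_iter.lean, copy its transport and Tonelli argument):
`⟨X,QX⟩/‖X‖² = ⟨X',R X'⟩/‖X'‖²` with `R = ncon Q' (x 0)`, `X = x₀ ⊗ X'`
(also if `x₀ = 0`, both sides are `0` then); `osl`, `ctr_ncon`.  `d = 0`: `Q` is a number
`q ∈ [0,1]`, `e^{-λnq} ≤ Ψ(Q)`. -/
theorem ct {L : ℝ} (hL : 1 ≤ L ^ 2) (lam : ℝ) (hl0 : 0 < lam)
    (hl1 : lam ≤ 1 / (20000 * L ^ 4)) {n : ℕ} (hn : 0 < n) (d : ℕ)
    (ν : Fin d → Fin n → Measure ℝ) (h : ∀ k i, Admissible L (ν k i))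
    (Q : Matrix (Fin d → Fin n) (Fin d → Fin n) ℝ) (hQ : Ctr Q) :
    ∫⁻ x, ENNReal.ofReal (Real.exp (-(lam * n * (quad Q (ten x) / ∑ J, ten x J ^ 2))))
      ∂(tenLaw ν) ≤
      ENNReal.ofReal (12 ^ d * Psi lam (5120 * L ^ 4 * lam ^ 2) n Q) := by
  have : Nonempty (Fin n) := ⟨⟨0, hn⟩⟩
  have hg0 : 0 ≤ 5120 * L ^ 4 * lam ^ 2 := by positivity
  induction d with
  | zero =>
    have hq : ∀ x : Fin 0 → Fin n → ℝ, quad Q (ten x) / ∑ J, ten x J ^ 2 = Q default default := by
      intro x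
      unfold quad ten
      simp [dotProduct, mulVec]
    have hp0 : ∀ k, SigmaFinite (Measure.pi (ν k)) := fun k => k.elim0
    have hprob : (tenLaw ν) Set.univ = 1 := by
      unfold tenLaw
      rw [Measure.pi_univ]
      simp
    simp only [hq, lintegral_const, hprob, mul_one]
    refine ENNReal.ofReal_le_ofReal ?_
    rw [pow_zero, one_mul]
    unfold Psi
    refine Real.exp_le_exp.2 ?_
    have ht : tau Q = Q default default := by
      unfold tau
      simp
    rw [ht]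
    have hb : 0 ≤ beta Q := by
      unfold beta
      positivity
    have := mul_nonneg (mul_nonneg hg0 (Nat.cast_nonneg n : (0 : ℝ) ≤ n)) hb
    linarith
  | succ d ih =>
    set e : Fin n × (Fin d → Fin n) ≃ (Fin (d + 1) → Fin n) :=
      Fin.consEquiv (fun _ : Fin (d + 1) => Fin n) with he
    set Q' : Matrix (Fin n × (Fin d → Fin n)) (Fin n × (Fin d → Fin n)) ℝ :=
      Q.submatrix e e with hQ'
    have hC : Ctr Q' := ct_ctr e Q hQ
    have hPsi : Psi lam (5120 * L ^ 4 * lam ^ 2) n Q' = Psi lam (5120 * L ^ 4 * lam ^ 2) n Q := by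
      unfold Psi
      rw [hQ', ct_tau, ct_beta]
    have hp : ∀ k i, IsProbabilityMeasure (ν k i) := fun k i => (h k i).prob
    set F : (Fin (d + 1) → Fin n → ℝ) → ENNReal := fun x =>
      ENNReal.ofReal (Real.exp (-(lam * n * (quad Q (ten x) / ∑ J, ten x J ^ 2)))) with hF
    have hFm : Measurable F := ct_meas (lam * n) Q
    have hmp := measurePreserving_piFinSuccAbove (fun k => Measure.pi (ν k)) 0
    have hstep : ∫⁻ x, F x ∂(tenLaw ν) =
        ∫⁻ x0, ∫⁻ y, F (Fin.cons x0 y) ∂(tenLaw fun j => ν (Fin.succAbove 0 j))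
          ∂(Measure.pi (ν 0)) := by
      have h3 := hmp.symm
      unfold tenLaw
      rw [← h3.lintegral_comp hFm, lintegral_prod _ (by
        exact (hFm.comp (MeasurableEquiv.measurable _)).aemeasurable)]
      refine lintegral_congr fun x0 => lintegral_congr fun y => ?_
      congr 1
      funext k
      refine Fin.cases ?_ (fun j => ?_) k
      · rfl
      · rfl
    rw [hstep]
    have hin : ∀ x0, ∫⁻ y, F (Fin.cons x0 y) ∂(tenLaw fun j => ν (Fin.succAbove 0 j)) ≤
        ENNReal.ofReal (12 ^ d) *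
          ENNReal.ofReal (Psi lam (5120 * L ^ 4 * lam ^ 2) n (ncon Q' x0)) := by
      intro x0
      have h6 := ih (fun j => ν (Fin.succAbove 0 j)) (fun k i => h _ i) (ncon Q' x0)
        (ctr_ncon Q' hC x0)
      rw [← ENNReal.ofReal_mul (by positivity)]
      refine le_trans (le_of_eq ?_) h6
      refine lintegral_congr fun y => ?_
      simp only [hF]
      rw [ct_ratio]
    refine (lintegral_mono hin).trans ?_
    rw [lintegral_const_mul' _ _ ENNReal.ofReal_ne_top]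
    have hos := osl hL lam hl0 hl1 hn (ν 0) (h 0) Q' hC
    refine (mul_le_mul_right hos _).trans (le_of_eq ?_)
    rw [← ENNReal.ofReal_mul (by positivity), hPsi, ← mul_assoc, ← pow_succ]

end Pool.Agent.MP_2a72d7_pr.Pos
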