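import Mathlib
import Pool.Agent.MP_2a72d7_pr.Defs
import Pool.Agent.MP_2a72d7_pr.Sm.Base
import Pool.Agent.MP_2a72d7_pr.Pos.Base
import Pool.Agent.MP_2a72d7_pr.Sm.P_schur
import Pool.Agent.MP_2a72d7_pr.Sm.P_meas
import Pool.Agent.MP_2a72d7_pr.Sm.P_reg1

namespace Pool.Agent.MP_2a72d7_pr.Pos

open MeasureTheory Matrix Pool.Agent.MP_2a72d7_pr.Sm

theorem udiag_one {n d : ℕ} (P : Measure (Fin d → Fin n → ℝ)) [IsProbabilityMeasure P]
    (θ η : ℝ) (hθ : 0 < θ) (hη : 0 < η) (δ : ENNReal) (m : ℕ)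
    (h : ∀ Y : Matrix (Fin m) (Fin d → Fin n) ℝ,
      P {x | η + quad (Pe Y η) (ten x) < θ} ≤ δ) (i : Fin (m + 1)) :
    (Measure.pi fun _ : Fin (m + 1) => P) {X | θ⁻¹ < (Rg (Zm X) η)⁻¹ i i} ≤ δ := by
  set s : Set ((Fin d → Fin n → ℝ) × (Fin m → Fin d → Fin n → ℝ)) :=
    {p | η + quad (Pe (Zm p.2) η) (ten p.1) < θ} with hs
  have hsm : MeasurableSet s :=
    measurableSet_lt (measurable_const.add (measurable_quad_Pe η)) measurable_const
  have hmp := measurePreserving_piFinSuccAbove (fun _ : Fin (m + 1) => P) i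
  have hsub : {X : Fin (m + 1) → Fin d → Fin n → ℝ | θ⁻¹ < (Rg (Zm X) η)⁻¹ i i} ⊆
      (MeasurableEquiv.piFinSuccAbove (fun _ => Fin d → Fin n → ℝ) i) ⁻¹' s := by
    intro X hX
    have hX1 : θ⁻¹ < (Rg (Zm X) η)⁻¹ i i := hX
    rw [schur_diag (Zm X) η hη i] at hX1
    have h0 := Pe_nonneg (Matrix.of fun j => Zm X (i.succAbove j)) η hη (Zm X i)
    have h1 : 0 < η + quad (Pe (Matrix.of fun j => Zm X (i.succAbove j)) η) (Zm X i) := by
      linarith
    exact (inv_lt_inv₀ hθ h1).1 hX1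
  calc (Measure.pi fun _ : Fin (m + 1) => P) {X | θ⁻¹ < (Rg (Zm X) η)⁻¹ i i}
      ≤ (Measure.pi fun _ : Fin (m + 1) => P)
        ((MeasurableEquiv.piFinSuccAbove (fun _ => Fin d → Fin n → ℝ) i) ⁻¹' s) :=
        measure_mono hsub
    _ = (P.prod (Measure.pi fun _ : Fin m => P)) s :=
        hmp.measure_preimage hsm.nullMeasurableSet
    _ = ∫⁻ y, P ((fun x => (x, y)) ⁻¹' s) ∂(Measure.pi fun _ : Fin m => P) :=
        Measure.prod_apply_symm hsm
    _ ≤ ∫⁻ _, δ ∂(Measure.pi fun _ : Fin m => P) := lintegral_mono fun y => h (Zm y)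
    _ = δ := by rw [lintegral_const, measure_univ, mul_one]

/-- All diagonal entries of the inverse are `≤ 1/θ` outside an event of probability `≤ mδ`
(`schur_diag`, splitting the coordinate `i`, Tonelli; union bound). -/
theorem u_diag {n d : ℕ} (P : Measure (Fin d → Fin n → ℝ)) [IsProbabilityMeasure P]
    (θ η : ℝ) (hθ : 0 < θ) (hη : 0 < η) (δ : ENNReal) (m : ℕ)
    (h : ∀ m' : ℕ, m' + 1 ≤ m → ∀ Y : Matrix (Fin m') (Fin d → Fin n) ℝ,
      P {x | η + quad (Pe Y η) (ten x) < θ} ≤ δ) :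
    (Measure.pi fun _ : Fin m => P) {X | ∃ i, θ⁻¹ < (Rg (Zm X) η)⁻¹ i i} ≤ m * δ := by
  have hU : {X : Fin m → Fin d → Fin n → ℝ | ∃ i, θ⁻¹ < (Rg (Zm X) η)⁻¹ i i} =
      ⋃ i : Fin m, {X | θ⁻¹ < (Rg (Zm X) η)⁻¹ i i} := by
    ext X
    simp
  rw [hU]
  refine (measure_iUnion_fintype_le _ _).trans ?_
  have h1 : ∀ i : Fin m, (Measure.pi fun _ : Fin m => P)
      {X : Fin m → Fin d → Fin n → ℝ | θ⁻¹ < (Rg (Zm X) η)⁻¹ i i} ≤ δ := by
    cases m with
    | zero => intro i; exact i.elim0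
    | succ m' => exact fun i => udiag_one P θ η hθ hη δ m' (h m' le_rfl) i
  refine (Finset.sum_le_sum fun i _ => h1 i).trans ?_
  rw [Finset.sum_const, Finset.card_univ, Fintype.card_fin, nsmul_eq_mul]

/-- The same for all systems with one column removed (`u_diag` for the marginal of the other
columns, union bound over the removed index). -/
theorem u_diag2 {n d : ℕ} (P : Measure (Fin d → Fin n → ℝ)) [IsProbabilityMeasure P]
    (θ η : ℝ) (hθ : 0 < θ) (hη : 0 < η) (δ : ENNReal) (m : ℕ)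
    (h : ∀ m' : ℕ, m' + 1 ≤ m → ∀ Y : Matrix (Fin m') (Fin d → Fin n) ℝ,
      P {x | η + quad (Pe Y η) (ten x) < θ} ≤ δ) :
    (Measure.pi fun _ : Fin (m + 1) => P)
      {X | ∃ (i : Fin (m + 1)) (j : Fin m),
        θ⁻¹ < (Rg (Zm fun k => X (i.succAbove k)) η)⁻¹ j j} ≤ (m + 1) * (m * δ) := by
  have hU : {X : Fin (m + 1) → Fin d → Fin n → ℝ | ∃ (i : Fin (m + 1)) (j : Fin m),
        θ⁻¹ < (Rg (Zm fun k => X (i.succAbove k)) η)⁻¹ j j} =
      ⋃ i : Fin (m + 1), {X | ∃ j : Fin m,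
        θ⁻¹ < (Rg (Zm fun k => X (i.succAbove k)) η)⁻¹ j j} := by
    ext X
    simp
  rw [hU]
  refine (measure_iUnion_fintype_le _ _).trans ?_
  set S : Set (Fin m → Fin d → Fin n → ℝ) := {X | ∃ j, θ⁻¹ < (Rg (Zm X) η)⁻¹ j j} with hS
  have hSm : MeasurableSet S := by
    have : S = ⋃ j : Fin m, {X | θ⁻¹ < (Rg (Zm X) η)⁻¹ j j} := by
      ext X
      simp [hS]
    rw [this]
    exact MeasurableSet.iUnion fun j =>
      measurableSet_lt measurable_const (measurable_Rg_inv η j j)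
  have h1 : ∀ i : Fin (m + 1), (Measure.pi fun _ : Fin (m + 1) => P)
      {X : Fin (m + 1) → Fin d → Fin n → ℝ | ∃ j : Fin m,
        θ⁻¹ < (Rg (Zm fun k => X (i.succAbove k)) η)⁻¹ j j} ≤ m * δ := by
    intro i
    have hmp := measurePreserving_piFinSuccAbove (fun _ : Fin (m + 1) => P) i
    have hmp2 : MeasurePreserving Prod.snd (P.prod (Measure.pi fun _ : Fin m => P))
        (Measure.pi fun _ : Fin m => P) := measurePreserving_snd
    have hmp3 := hmp2.comp hmp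
    have heq : {X : Fin (m + 1) → Fin d → Fin n → ℝ | ∃ j : Fin m,
        θ⁻¹ < (Rg (Zm fun k => X (i.succAbove k)) η)⁻¹ j j} =
        (Prod.snd ∘ (MeasurableEquiv.piFinSuccAbove (fun _ => Fin d → Fin n → ℝ) i)) ⁻¹' S := rfl
    rw [heq, hmp3.measure_preimage hSm.nullMeasurableSet]
    exact u_diag P θ η hθ hη δ m h
  refine (Finset.sum_le_sum fun i _ => h1 i).trans ?_
  rw [Finset.sum_const, Finset.card_univ, Fintype.card_fin, nsmul_eq_mul]
  push_cast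
  exact le_rfl

end Pool.Agent.MP_2a72d7_pr.Pos
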