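import Mathlib
import Pool.Agent.MP_2a72d7_pr.Defs
import Pool.Agent.MP_2a72d7_pr.Sm.Base
import Pool.Agent.MP_2a72d7_pr.Pos.Base
import Pool.Agent.MP_2a72d7_pr.Sm.P_schur
import Pool.Agent.MP_2a72d7_pr.Sm.P_bvec
import Pool.Agent.MP_2a72d7_pr.Sm.P_meas
import Pool.Agent.MP_2a72d7_pr.Sm.P_reg1

namespace Pool.Agent.MP_2a72d7_pr.Pos

open MeasureTheory Matrix Pool.Agent.MP_2a72d7_pr.Sm

theorem uoff_measurable_ip {n d m : ℕ} (η : ℝ) (j : Fin m) :
    Measurable fun p : (Fin d → Fin n → ℝ) × (Fin m → Fin d → Fin n → ℝ) =>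
      ∑ J, bvec (Zm p.2) η j J * ten p.1 J := by
  refine Finset.measurable_sum _ fun J _ => ?_
  refine Measurable.mul ?_ ((measurable_ten J).comp measurable_fst)
  unfold bvec
  refine Finset.measurable_sum _ fun k _ => ?_
  refine Measurable.mul ((measurable_Rg_inv η j k).comp measurable_snd) ?_
  have : Measurable fun X : Fin m → Fin d → Fin n → ℝ => ten (X k) J :=
    (measurable_ten J).comp (measurable_pi_apply k)
  exact this.comp measurable_snd

theorem u_off {n d : ℕ} (P : Measure (Fin d → Fin n → ℝ)) [IsProbabilityMeasure P]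
    (h2 : ∀ b : (Fin d → Fin n) → ℝ, ∫⁻ x, ENNReal.ofReal ((∑ J, b J * ten x J) ^ 2) ∂P ≤
      ENNReal.ofReal (∑ J, b J ^ 2))
    (θ η : ℝ) (hθ : 0 < θ) (hη : 0 < η) (m : ℕ) (i : Fin (m + 1)) (j : Fin m) :
    ∫⁻ X in {X : Fin (m + 1) → Fin d → Fin n → ℝ | (Rg (Zm X) η)⁻¹ i i ≤ θ⁻¹ ∧
        (Rg (Zm fun k => X (i.succAbove k)) η)⁻¹ j j ≤ θ⁻¹},
      ENNReal.ofReal (((Rg (Zm X) η)⁻¹ (i.succAbove j) i) ^ 2)
      ∂(Measure.pi fun _ : Fin (m + 1) => P) ≤ ENNReal.ofReal ((θ ^ 3)⁻¹) := by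
  set T : Set ((Fin d → Fin n → ℝ) × (Fin m → Fin d → Fin n → ℝ)) :=
    {p | (Rg (Zm p.2) η)⁻¹ j j ≤ θ⁻¹} with hT
  have hTm : MeasurableSet T :=
    measurableSet_le ((measurable_Rg_inv η j j).comp measurable_snd) measurable_const
  set G : (Fin d → Fin n → ℝ) × (Fin m → Fin d → Fin n → ℝ) → ENNReal :=
    T.indicator fun p => ENNReal.ofReal ((θ⁻¹) ^ 2 * (∑ J, bvec (Zm p.2) η j J * ten p.1 J) ^ 2)
    with hG
  have hGm : Measurable G := by
    refine Measurable.indicator ?_ hTm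
    exact (((uoff_measurable_ip η j).pow_const 2).const_mul _).ennreal_ofReal
  have hmp := measurePreserving_piFinSuccAbove (fun _ : Fin (m + 1) => P) i
  have hS : MeasurableSet {X : Fin (m + 1) → Fin d → Fin n → ℝ | (Rg (Zm X) η)⁻¹ i i ≤ θ⁻¹ ∧
        (Rg (Zm fun k => X (i.succAbove k)) η)⁻¹ j j ≤ θ⁻¹} := by
    apply MeasurableSet.inter
    · exact measurableSet_le (measurable_Rg_inv η i i) measurable_const
    · have h3 : Measurable fun X : Fin (m + 1) → Fin d → Fin n → ℝ =>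
          fun k : Fin m => X (i.succAbove k) :=
        measurable_pi_lambda _ fun k => measurable_pi_apply _
      exact measurableSet_le ((measurable_Rg_inv η j j).comp h3) measurable_const
  rw [← lintegral_indicator hS]
  have hle : ∀ X : Fin (m + 1) → Fin d → Fin n → ℝ,
      ({X : Fin (m + 1) → Fin d → Fin n → ℝ | (Rg (Zm X) η)⁻¹ i i ≤ θ⁻¹ ∧
        (Rg (Zm fun k => X (i.succAbove k)) η)⁻¹ j j ≤ θ⁻¹}.indicator
        (fun X => ENNReal.ofReal (((Rg (Zm X) η)⁻¹ (i.succAbove j) i) ^ 2)) X) ≤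
      G (MeasurableEquiv.piFinSuccAbove (fun _ => Fin d → Fin n → ℝ) i X) := by
    intro X
    by_cases hX : (Rg (Zm X) η)⁻¹ i i ≤ θ⁻¹ ∧
        (Rg (Zm fun k => X (i.succAbove k)) η)⁻¹ j j ≤ θ⁻¹
    · have hX' : X ∈ {X : Fin (m + 1) → Fin d → Fin n → ℝ | (Rg (Zm X) η)⁻¹ i i ≤ θ⁻¹ ∧
        (Rg (Zm fun k => X (i.succAbove k)) η)⁻¹ j j ≤ θ⁻¹} := hX
      rw [Set.indicator_of_mem hX']
      have hXT : MeasurableEquiv.piFinSuccAbove (fun _ => Fin d → Fin n → ℝ) i X ∈ T := hX.2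
      rw [hG, Set.indicator_of_mem hXT]
      apply ENNReal.ofReal_le_ofReal
      have e1 := schur_off (Zm X) η hη i j
      have e2 := schur_diag (Zm X) η hη i
      rw [e1, ← e2, mul_pow, neg_sq, mul_comm]
      have h0 : 0 ≤ (Rg (Zm X) η)⁻¹ i i := by
        rw [e2]
        have h0 := Pe_nonneg (Matrix.of fun j => Zm X (i.succAbove j)) η hη (Zm X i)
        positivity
      have h5 : ((Rg (Zm X) η)⁻¹ i i) ^ 2 ≤ (θ⁻¹) ^ 2 := pow_le_pow_left₀ h0 hX.1 2
      exact mul_le_mul_of_nonneg_right h5 (sq_nonneg _)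
    · have hX' : X ∉ {X : Fin (m + 1) → Fin d → Fin n → ℝ | (Rg (Zm X) η)⁻¹ i i ≤ θ⁻¹ ∧
        (Rg (Zm fun k => X (i.succAbove k)) η)⁻¹ j j ≤ θ⁻¹} := hX
      rw [Set.indicator_of_notMem hX']
      exact bot_le
  calc ∫⁻ X, _ ∂(Measure.pi fun _ : Fin (m + 1) => P)
      ≤ ∫⁻ X, G (MeasurableEquiv.piFinSuccAbove (fun _ => Fin d → Fin n → ℝ) i X)
        ∂(Measure.pi fun _ : Fin (m + 1) => P) := lintegral_mono hle
    _ = ∫⁻ p, G p ∂(P.prod (Measure.pi fun _ : Fin m => P)) := hmp.lintegral_comp hGm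
    _ = ∫⁻ y, ∫⁻ x, G (x, y) ∂P ∂(Measure.pi fun _ : Fin m => P) :=
        lintegral_prod_symm _ hGm.aemeasurable
    _ ≤ ∫⁻ _, ENNReal.ofReal ((θ ^ 3)⁻¹) ∂(Measure.pi fun _ : Fin m => P) := by
        refine lintegral_mono fun y => ?_
        by_cases hy : (Rg (Zm y) η)⁻¹ j j ≤ θ⁻¹
        · have e3 : ∀ x, G (x, y) = ENNReal.ofReal ((θ⁻¹) ^ 2) *
              ENNReal.ofReal ((∑ J, bvec (Zm y) η j J * ten x J) ^ 2) := by
            intro x
            have hxT : (x, y) ∈ T := hy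
            rw [hG, Set.indicator_of_mem hxT, ENNReal.ofReal_mul (by positivity)]
          simp_rw [e3]
          rw [lintegral_const_mul' _ _ ENNReal.ofReal_ne_top]
          calc ENNReal.ofReal ((θ⁻¹) ^ 2) *
              ∫⁻ x, ENNReal.ofReal ((∑ J, bvec (Zm y) η j J * ten x J) ^ 2) ∂P
              ≤ ENNReal.ofReal ((θ⁻¹) ^ 2) * ENNReal.ofReal (∑ J, bvec (Zm y) η j J ^ 2) :=
                mul_le_mul_right (h2 _) _
            _ = ENNReal.ofReal ((θ⁻¹) ^ 2 * ∑ J, bvec (Zm y) η j J ^ 2) := by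
                rw [ENNReal.ofReal_mul (by positivity)]
            _ ≤ ENNReal.ofReal ((θ ^ 3)⁻¹) := by
                apply ENNReal.ofReal_le_ofReal
                have h6 := (bvec_sq (Zm y) η hη j).trans hy
                calc (θ⁻¹) ^ 2 * ∑ J, bvec (Zm y) η j J ^ 2 ≤ (θ⁻¹) ^ 2 * θ⁻¹ :=
                      mul_le_mul_of_nonneg_left h6 (by positivity)
                  _ = (θ ^ 3)⁻¹ := by rw [← pow_succ, inv_pow]
        · have e3 : ∀ x, G (x, y) = 0 := by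
            intro x
            have hxT : (x, y) ∉ T := hy
            rw [hG, Set.indicator_of_notMem hxT]
          simp_rw [e3]
          simp
    _ = ENNReal.ofReal ((θ ^ 3)⁻¹) := by rw [lintegral_const, measure_univ, mul_one]

end Pool.Agent.MP_2a72d7_pr.Pos
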