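import Mathlib
import Pool.Agent.MP_2a72d7_pr.Defs
import Pool.Agent.MP_2a72d7_pr.Sm.Base
import Pool.Agent.MP_2a72d7_pr.Pos.Base
import Pool.Agent.MP_2a72d7_pr.Sm.P_frobge
import Pool.Agent.MP_2a72d7_pr.Sm.P_meas
import Pool.Agent.MP_2a72d7_pr.Sm.P_reg1
import Pool.Agent.MP_2a72d7_pr.Pos.R_udiag
import Pool.Agent.MP_2a72d7_pr.Pos.R_uoff

namespace Pool.Agent.MP_2a72d7_pr.Pos

open MeasureTheory Matrix Pool.Agent.MP_2a72d7_pr.Sm

theorem gprob_diag_nonneg {m : ℕ} {ι : Type*} [Fintype ι] [DecidableEq ι]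
    (Y : Matrix (Fin m) ι ℝ) (η : ℝ) (hη : 0 < η) (i : Fin m) : 0 ≤ (Rg Y η)⁻¹ i i := by
  have h1 := (Rg_posDef Y η hη).inv
  exact h1.diag_pos.le

theorem gprob_sum {m : ℕ} (H : Matrix (Fin (m + 1)) (Fin (m + 1)) ℝ) :
    ∑ i, ∑ j, H i j ^ 2 = ∑ j, (H j j ^ 2 + ∑ k : Fin m, H (j.succAbove k) j ^ 2) := by
  rw [Finset.sum_comm]
  exact Finset.sum_congr rfl fun j _ => Fin.sum_univ_succAbove (fun i => H i j ^ 2) j

theorem gprob_ofReal {p q : ℕ} (c : ℝ) (hc : 0 ≤ c) (f : Fin p → ℝ) (g : Fin p → Fin q → ℝ)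
    (hf : ∀ j, 0 ≤ f j) (hg : ∀ j k, 0 ≤ g j k) :
    ENNReal.ofReal (c * ∑ j, (f j + ∑ k, g j k)) =
      ENNReal.ofReal c * ∑ j, (ENNReal.ofReal (f j) + ∑ k, ENNReal.ofReal (g j k)) := by
  rw [ENNReal.ofReal_mul hc, ENNReal.ofReal_sum_of_nonneg
    (fun j _ => add_nonneg (hf j) (Finset.sum_nonneg fun k _ => hg j k))]
  congr 1
  refine Finset.sum_congr rfl fun j _ => ?_
  rw [ENNReal.ofReal_add (hf j) (Finset.sum_nonneg fun k _ => hg j k),
    ENNReal.ofReal_sum_of_nonneg (fun k _ => hg j k)]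

theorem gprob_lint {α : Type*} [MeasurableSpace α] (μ : Measure α) {p q : ℕ} (c : ENNReal)
    (f : Fin p → α → ENNReal) (g : Fin p → Fin q → α → ENNReal)
    (hf : ∀ j, Measurable (f j)) (hg : ∀ j k, Measurable (g j k)) :
    ∫⁻ x, c * ∑ j, (f j x + ∑ k, g j k x) ∂μ =
      c * ∑ j, (∫⁻ x, f j x ∂μ + ∑ k, ∫⁻ x, g j k x ∂μ) := by
  have h1 : ∀ j, Measurable fun x => ∑ k, g j k x := fun j =>
    Finset.measurable_sum _ fun k _ => hg j k
  have h2 : ∀ j, Measurable fun x => f j x + ∑ k, g j k x := fun j => (hf j).add (h1 j)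
  rw [lintegral_const_mul _ (Finset.measurable_sum _ fun j _ => h2 j)]
  congr 1
  rw [lintegral_finsetSum _ (fun j _ => h2 j)]
  refine Finset.sum_congr rfl fun j _ => ?_
  rw [lintegral_add_left (hf j)]
  congr 1
  rw [lintegral_finsetSum _ (fun k _ => hg j k)]

/-- `P(σ_min < σ) ≤ (m + m²)δ + 4σ⁴(m/θ² + m²/θ³)`.  Proof: `η = σ²`; `frob_ge`
(Sm/P_frobge.lean); outside the bad events of `u_diag`, `u_diag2` the diagonal entries are
`≤ 1/θ`; Markov for the integral over the good event of `∑_ij H_ij²` (`u_off`, every `j ≠ i` is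
`i.succAbove j'`, symmetry of `H`).  `m = 0`: the event is empty. -/
theorem gprob {n d : ℕ} (P : Measure (Fin d → Fin n → ℝ)) [IsProbabilityMeasure P]
    (h2 : ∀ b : (Fin d → Fin n) → ℝ, ∫⁻ x, ENNReal.ofReal ((∑ J, b J * ten x J) ^ 2) ∂P ≤
      ENNReal.ofReal (∑ J, b J ^ 2))
    (θ : ℝ) (hθ : 0 < θ) (δ : ENNReal) (m : ℕ)
    (h : ∀ m' : ℕ, m' + 1 ≤ m → ∀ (Y : Matrix (Fin m') (Fin d → Fin n) ℝ) (η : ℝ), 0 < η →
      P {x | η + quad (Pe Y η) (ten x) < θ} ≤ δ)
    (σ : ℝ) (hσ : 0 < σ) :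
    (Measure.pi fun _ : Fin m => P) {X | ¬ SigmaMinGE (fun i => simpleTensor (X i)) σ} ≤
      (m + m ^ 2) * δ + ENNReal.ofReal (4 * σ ^ 4 * (m / θ ^ 2 + m ^ 2 / θ ^ 3)) := by
  have hη : 0 < σ ^ 2 := by positivity
  cases m with
  | zero =>
    have hE : {X : Fin 0 → Fin d → Fin n → ℝ |
        ¬ SigmaMinGE (fun i => simpleTensor (X i)) σ} = ∅ := by
      ext X
      simp only [Set.mem_ofPred_eq, Set.mem_empty_iff_false, iff_false]
      intro hX
      have := frob_ge X σ hσ hX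
      simp at this
      linarith
    rw [hE, measure_empty]
    exact bot_le
  | succ m =>
    set μ : Measure (Fin (m + 1) → Fin d → Fin n → ℝ) := Measure.pi fun _ => P with hμ
    set η : ℝ := σ ^ 2 with hηd
    set B1 : Set (Fin (m + 1) → Fin d → Fin n → ℝ) :=
      {X | ∃ i, θ⁻¹ < (Rg (Zm X) η)⁻¹ i i} with hB1
    set B2 : Set (Fin (m + 1) → Fin d → Fin n → ℝ) :=
      {X | ∃ (i : Fin (m + 1)) (j : Fin m),
        θ⁻¹ < (Rg (Zm fun k => X (i.succAbove k)) η)⁻¹ j j} with hB2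
    set G : Set (Fin (m + 1) → Fin d → Fin n → ℝ) := (B1 ∪ B2)ᶜ with hG
    have hb1 : μ B1 ≤ ((m + 1 : ℕ) : ENNReal) * δ :=
      u_diag P θ η hθ hη δ (m + 1) fun m' hm' Y => h m' hm' Y η hη
    have hb2 : μ B2 ≤ (m + 1) * (m * δ) :=
      u_diag2 P θ η hθ hη δ m fun m' hm' Y => h m' (by omega) Y η hη
    let F : (Fin (m + 1) → Fin d → Fin n → ℝ) → ENNReal := fun X =>
      ENNReal.ofReal (4 * σ ^ 4) * ∑ j, (ENNReal.ofReal ((Rg (Zm X) η)⁻¹ j j ^ 2) +
        ∑ k : Fin m, ENNReal.ofReal ((Rg (Zm X) η)⁻¹ (j.succAbove k) j ^ 2))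
    have hm1 : ∀ i j, Measurable fun X : Fin (m + 1) → Fin d → Fin n → ℝ =>
        ENNReal.ofReal ((Rg (Zm X) η)⁻¹ i j ^ 2) := fun i j =>
      ((measurable_Rg_inv η i j).pow_const 2).ennreal_ofReal
    have hFm : Measurable F := by
      refine Measurable.const_mul ?_ _
      exact Finset.measurable_sum _ fun j _ => (hm1 j j).add
        (Finset.measurable_sum _ fun k _ => hm1 _ _)
    have hsub : {X : Fin (m + 1) → Fin d → Fin n → ℝ |
        ¬ SigmaMinGE (fun i => simpleTensor (X i)) σ} ⊆ (B1 ∪ B2) ∪ (G ∩ {X | 1 ≤ F X}) := by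
      intro X hX
      by_cases hB : X ∈ B1 ∪ B2
      · exact Or.inl hB
      · refine Or.inr ⟨hB, ?_⟩
        have h3 := frob_ge X σ hσ hX
        rw [gprob_sum] at h3
        show 1 ≤ F X
        have h4 : F X = ENNReal.ofReal (4 * σ ^ 4 * ∑ j, ((Rg (Zm X) η)⁻¹ j j ^ 2 +
            ∑ k : Fin m, (Rg (Zm X) η)⁻¹ (j.succAbove k) j ^ 2)) := by
          exact (gprob_ofReal (4 * σ ^ 4) (by positivity) (fun j => (Rg (Zm X) η)⁻¹ j j ^ 2)
            (fun j k => (Rg (Zm X) η)⁻¹ (j.succAbove k) j ^ 2) (fun j => sq_nonneg _)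
            (fun j k => sq_nonneg _)).symm
        rw [h4, ENNReal.one_le_ofReal]
        exact h3
    have hdiag : ∀ j, ∫⁻ X in G, ENNReal.ofReal ((Rg (Zm X) η)⁻¹ j j ^ 2) ∂μ ≤
        ENNReal.ofReal ((θ ^ 2)⁻¹) := by
      intro j
      calc ∫⁻ X in G, ENNReal.ofReal ((Rg (Zm X) η)⁻¹ j j ^ 2) ∂μ
          ≤ ∫⁻ _X in G, ENNReal.ofReal ((θ ^ 2)⁻¹) ∂μ := by
            refine lintegral_mono_ae ?_
            have hGm : MeasurableSet G := by
              refine (MeasurableSet.union ?_ ?_).compl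
              · have : B1 = ⋃ j : Fin (m + 1), {X | θ⁻¹ < (Rg (Zm X) η)⁻¹ j j} := by
                  ext X
                  simp [hB1]
                rw [this]
                exact MeasurableSet.iUnion fun j =>
                  measurableSet_lt measurable_const (measurable_Rg_inv η j j)
              · have : B2 = ⋃ (i : Fin (m + 1)) (j : Fin m),
                    {X | θ⁻¹ < (Rg (Zm fun k => X (i.succAbove k)) η)⁻¹ j j} := by
                  ext X
                  simp [hB2]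
                rw [this]
                refine MeasurableSet.iUnion fun i => MeasurableSet.iUnion fun j =>
                  measurableSet_lt measurable_const ?_
                exact (measurable_Rg_inv η j j).comp
                  (measurable_pi_lambda _ fun k => measurable_pi_apply (i.succAbove k))
            filter_upwards [ae_restrict_mem hGm] with X hX
            refine ENNReal.ofReal_le_ofReal ?_
            have h5 : (Rg (Zm X) η)⁻¹ j j ≤ θ⁻¹ := by
              by_contra hc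
              exact hX (Or.inl ⟨j, not_le.1 hc⟩)
            have h6 := gprob_diag_nonneg (Zm X) η hη j
            rw [← inv_pow]
            exact pow_le_pow_left₀ h6 h5 2
        _ = ENNReal.ofReal ((θ ^ 2)⁻¹) * μ G := by
            rw [lintegral_const, Measure.restrict_apply_univ]
        _ ≤ ENNReal.ofReal ((θ ^ 2)⁻¹) * 1 := mul_le_mul_right prob_le_one _
        _ = _ := mul_one _
    have hoff : ∀ (j : Fin (m + 1)) (k : Fin m),
        ∫⁻ X in G, ENNReal.ofReal ((Rg (Zm X) η)⁻¹ (j.succAbove k) j ^ 2) ∂μ ≤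
        ENNReal.ofReal ((θ ^ 3)⁻¹) := by
      intro j k
      refine (lintegral_mono_set ?_).trans (u_off P h2 θ η hθ hη m j k)
      intro X hX
      constructor
      · by_contra hc
        exact hX (Or.inl ⟨j, not_le.1 hc⟩)
      · by_contra hc
        exact hX (Or.inr ⟨j, k, not_le.1 hc⟩)
    have hint : ∫⁻ X in G, F X ∂μ ≤
        ENNReal.ofReal (4 * σ ^ 4 * (((m + 1 : ℕ) : ℝ) / θ ^ 2 + ((m + 1 : ℕ) : ℝ) ^ 2 / θ ^ 3)) := by
      have h7 : ∫⁻ X in G, F X ∂μ = ENNReal.ofReal (4 * σ ^ 4) *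
          ∑ j, (∫⁻ X in G, ENNReal.ofReal ((Rg (Zm X) η)⁻¹ j j ^ 2) ∂μ +
            ∑ k : Fin m, ∫⁻ X in G,
              ENNReal.ofReal ((Rg (Zm X) η)⁻¹ (j.succAbove k) j ^ 2) ∂μ) := by
        exact gprob_lint (μ.restrict G) (ENNReal.ofReal (4 * σ ^ 4))
          (fun j X => ENNReal.ofReal ((Rg (Zm X) η)⁻¹ j j ^ 2))
          (fun j k X => ENNReal.ofReal ((Rg (Zm X) η)⁻¹ (j.succAbove k) j ^ 2))
          (fun j => hm1 j j) (fun j k => hm1 _ _)
      rw [h7]
      calc ENNReal.ofReal (4 * σ ^ 4) *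
          ∑ j, (∫⁻ X in G, ENNReal.ofReal ((Rg (Zm X) η)⁻¹ j j ^ 2) ∂μ +
            ∑ k : Fin m, ∫⁻ X in G,
              ENNReal.ofReal ((Rg (Zm X) η)⁻¹ (j.succAbove k) j ^ 2) ∂μ)
          ≤ ENNReal.ofReal (4 * σ ^ 4) * ∑ _j : Fin (m + 1), (ENNReal.ofReal ((θ ^ 2)⁻¹) +
            ∑ _k : Fin m, ENNReal.ofReal ((θ ^ 3)⁻¹)) := by
            refine mul_le_mul_right (Finset.sum_le_sum fun j _ => add_le_add (hdiag j)
              (Finset.sum_le_sum fun k _ => hoff j k)) _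
        _ = ENNReal.ofReal (4 * σ ^ 4 * ∑ _j : Fin (m + 1), ((θ ^ 2)⁻¹ +
            ∑ _k : Fin m, (θ ^ 3)⁻¹)) := by
            exact (gprob_ofReal (4 * σ ^ 4) (by positivity) (fun _ : Fin (m + 1) => (θ ^ 2)⁻¹)
              (fun _ (_ : Fin m) => (θ ^ 3)⁻¹) (fun _ => by positivity)
              (fun _ _ => by positivity)).symm
        _ ≤ _ := by
            refine ENNReal.ofReal_le_ofReal ?_
            refine mul_le_mul_of_nonneg_left ?_ (by positivity)
            simp only [Finset.sum_const, Finset.card_univ, Fintype.card_fin, nsmul_eq_mul]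
            have h8 : (0 : ℝ) ≤ (θ ^ 3)⁻¹ := by positivity
            have h9 : (0 : ℝ) ≤ (m : ℝ) := Nat.cast_nonneg m
            push_cast
            rw [div_eq_mul_inv, div_eq_mul_inv]
            nlinarith [mul_nonneg h9 h8]
    calc μ {X : Fin (m + 1) → Fin d → Fin n → ℝ |
        ¬ SigmaMinGE (fun i => simpleTensor (X i)) σ}
        ≤ μ ((B1 ∪ B2) ∪ (G ∩ {X | 1 ≤ F X})) := measure_mono hsub
      _ ≤ μ (B1 ∪ B2) + μ (G ∩ {X | 1 ≤ F X}) := measure_union_le _ _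
      _ ≤ (μ B1 + μ B2) + ∫⁻ X in G, F X ∂μ := by
          refine add_le_add (measure_union_le _ _) ?_
          have h10 : μ (G ∩ {X | 1 ≤ F X}) = (μ.restrict G) {X | 1 ≤ F X} := by
            rw [Measure.restrict_apply (measurableSet_le measurable_const hFm), Set.inter_comm]
          rw [h10]
          have h11 := mul_meas_ge_le_lintegral (μ := μ.restrict G) hFm 1
          rwa [one_mul] at h11
      _ ≤ (((m + 1 : ℕ) : ENNReal) * δ + (m + 1) * (m * δ)) + _ :=
          add_le_add (add_le_add hb1 hb2) hint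
      _ ≤ _ := by
          refine add_le_add ?_ le_rfl
          have h12 : ((((m + 1 : ℕ) : ENNReal)) + ((m + 1 : ℕ) : ENNReal) ^ 2) * δ =
              ((m + 1 : ℕ) : ENNReal) * δ + ((m + 1 : ℕ) : ENNReal) * (((m + 1 : ℕ) : ENNReal) * δ) := by
            ring
          rw [h12]
          refine add_le_add le_rfl ?_
          push_cast
          refine mul_le_mul_right ?_ _
          refine mul_le_mul_left ?_ δ
          exact le_self_add

end Pool.Agent.MP_2a72d7_pr.Pos
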