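import Mathlib
import Pool.Agent.MP_2a72d7_pr.Defs
import Pool.Agent.MP_2a72d7_pr.Sm.Base
import Pool.Agent.MP_2a72d7_pr.Pos.Base
import Pool.Agent.MP_2a72d7_pr.Sm.P_reg1

namespace Pool.Agent.MP_2a72d7_pr.Pos

open MeasureTheory Matrix Pool.Agent.MP_2a72d7_pr.Sm

theorem pectr_aux {m : ℕ} {ι : Type*} [Fintype ι] [DecidableEq ι] (Y : Matrix (Fin m) ι ℝ)
    (η : ℝ) (hη : 0 < η) (v : ι → ℝ) :
    (Yᵀ *ᵥ ((Rg Y η)⁻¹ *ᵥ (Y *ᵥ v))) ⬝ᵥ (v - Yᵀ *ᵥ ((Rg Y η)⁻¹ *ᵥ (Y *ᵥ v))) =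
      η * (((Rg Y η)⁻¹ *ᵥ (Y *ᵥ v)) ⬝ᵥ ((Rg Y η)⁻¹ *ᵥ (Y *ᵥ v))) := by
  set w : Fin m → ℝ := Y *ᵥ v with hw
  set a : Fin m → ℝ := (Rg Y η)⁻¹ *ᵥ w with ha
  have hR := Rg_posDef Y η hη
  have hRa : Rg Y η *ᵥ a = w := by
    rw [ha, mulVec_mulVec, mul_nonsing_inv _ ((isUnit_iff_isUnit_det _).1 hR.isUnit), one_mulVec]
  have h1 : a ⬝ᵥ w = η * (a ⬝ᵥ a) + (Yᵀ *ᵥ a) ⬝ᵥ (Yᵀ *ᵥ a) := by
    conv_lhs => rw [← hRa]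
    unfold Rg
    rw [add_mulVec, smul_mulVec, one_mulVec, dotProduct_add, dotProduct_smul, smul_eq_mul,
      ← mulVec_mulVec, dotProduct_mulVec a Y, ← mulVec_transpose]
  have h2 : (Yᵀ *ᵥ a) ⬝ᵥ v = a ⬝ᵥ w := by
    rw [hw, dotProduct_mulVec, mulVec_transpose]
  rw [dotProduct_sub, h2, h1]
  ring

/-- The regularised projection is `Ctr`: `P - P² = S - S² = η Yᵀ R⁻² Y ≥ 0`, `S = YᵀR⁻¹Y`. -/
theorem pe_ctr {m : ℕ} {ι : Type*} [Fintype ι] [DecidableEq ι] (Y : Matrix (Fin m) ι ℝ)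
    (η : ℝ) (hη : 0 < η) : Ctr (Pe Y η) := by
  refine ⟨fun i j => ?_, fun v => ?_⟩
  · have h := (Pe_symm Y η).apply j i
    rw [star_trivial] at h
    exact h
  · have hP : Pe Y η *ᵥ v = v - Yᵀ *ᵥ ((Rg Y η)⁻¹ *ᵥ (Y *ᵥ v)) := by
      unfold Pe
      rw [sub_mulVec, one_mulVec, ← mulVec_mulVec, ← mulVec_mulVec]
    have h1 := pectr_aux Y η hη v
    have h2 : ∑ i, (Pe Y η *ᵥ v) i ^ 2 = (Pe Y η *ᵥ v) ⬝ᵥ (Pe Y η *ᵥ v) := by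
      unfold dotProduct
      exact Finset.sum_congr rfl fun J _ => by ring
    rw [h2]
    unfold quad
    rw [hP]
    set b : ι → ℝ := Yᵀ *ᵥ ((Rg Y η)⁻¹ *ᵥ (Y *ᵥ v)) with hb
    rw [sub_dotProduct, h1]
    have h3 : 0 ≤ ((Rg Y η)⁻¹ *ᵥ (Y *ᵥ v)) ⬝ᵥ ((Rg Y η)⁻¹ *ᵥ (Y *ᵥ v)) := by
      unfold dotProduct
      exact Finset.sum_nonneg fun J _ => mul_self_nonneg _
    nlinarith [mul_nonneg hη.le h3]

/-- `tr P = N - m + η tr R⁻¹ ≥ N - m`. -/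
theorem pe_tau {m : ℕ} {ι : Type*} [Fintype ι] [DecidableEq ι] [Nonempty ι]
    (Y : Matrix (Fin m) ι ℝ) (η : ℝ) (hη : 0 < η) (ε : ℝ)
    (hm : (m : ℝ) ≤ (1 - ε) * Fintype.card ι) : ε ≤ tau (Pe Y η) := by
  have hR := Rg_posDef Y η hη
  have hN : (0 : ℝ) < Fintype.card ι := Nat.cast_pos.2 Fintype.card_pos
  have h1 : trace (Pe Y η) = (Fintype.card ι : ℝ) - m + η * trace ((Rg Y η)⁻¹) := by
    unfold Pe
    rw [trace_sub, trace_one, Matrix.mul_assoc, trace_mul_comm, Matrix.mul_assoc]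
    have h2 : Y * Yᵀ = Rg Y η - η • (1 : Matrix (Fin m) (Fin m) ℝ) := by
      unfold Rg
      rw [add_sub_cancel_left]
    rw [h2, Matrix.mul_sub, nonsing_inv_mul _ ((isUnit_iff_isUnit_det _).1 hR.isUnit), trace_sub,
      trace_one, Matrix.mul_smul, Matrix.mul_one, trace_smul, smul_eq_mul, Fintype.card_fin]
    ring
  have h3 : 0 ≤ trace ((Rg Y η)⁻¹) := hR.inv.posSemidef.trace_nonneg
  unfold tau
  rw [le_div_iff₀ hN]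
  have h4 : ∑ i, Pe Y η i i = trace (Pe Y η) := rfl
  rw [h4, h1]
  nlinarith [mul_nonneg hη.le h3]

end Pool.Agent.MP_2a72d7_pr.Pos
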