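import Mathlib
import Pool.Agent.MP_2a72d7_pr.Defs
import Pool.Agent.MP_2a72d7_pr.Sm.Base
import Pool.Agent.MP_2a72d7_pr.Pos.Base
import Pool.Agent.MP_2a72d7_pr.Sm.P_mom1
import Pool.Agent.MP_2a72d7_pr.Sm.P_reg1
import Pool.Agent.MP_2a72d7_pr.Pos.R_ct
import Pool.Agent.MP_2a72d7_pr.Pos.R_pectr
import Pool.Agent.MP_2a72d7_pr.Pos.R_normtail
import Pool.Agent.MP_2a72d7_pr.Pos.R_ctrb

namespace Pool.Agent.MP_2a72d7_pr.Pos

open MeasureTheory Matrix Pool.Agent.MP_2a72d7_pr.Sm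

theorem gsmall_norm {n d : ℕ} (x : Fin d → Fin n → ℝ) :
    ∑ J, ten x J ^ 2 = ∏ k, ∑ i, x k i ^ 2 := by
  unfold ten
  rw [Finset.prod_univ_sum, Fintype.piFinset_univ]
  refine Finset.sum_congr rfl fun J _ => ?_
  rw [Finset.prod_pow]

theorem gsmall_meas {n d : ℕ} (Q : Matrix (Fin d → Fin n) (Fin d → Fin n) ℝ) (c : ℝ) :
    Measurable fun x : Fin d → Fin n → ℝ =>
      ENNReal.ofReal (Real.exp (-(c * (quad Q (ten x) / ∑ J, ten x J ^ 2)))) := by
  have h1 : Measurable fun x : Fin d → Fin n → ℝ => quad Q (ten x) := by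
    unfold quad ten dotProduct mulVec dotProduct
    fun_prop
  have h2 : Measurable fun x : Fin d → Fin n → ℝ => ∑ J, ten x J ^ 2 := by
    unfold ten
    fun_prop
  exact ENNReal.measurable_ofReal.comp (Real.measurable_exp.comp
    ((measurable_const.mul (h1.div h2)).neg))

theorem gsmall_marg {L : ℝ} {n d : ℕ} (ν : Fin d → Fin n → Measure ℝ)
    (h : ∀ k i, Admissible L (ν k i)) (k : Fin d) :
    tenLaw ν {x | ¬ ((n : ℝ) / 2 ≤ ∑ i, x k i ^ 2)} ≤
      ENNReal.ofReal (2 * Real.exp (-(n / (256 * L ^ 4)))) := by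
  have : ∀ k i, IsProbabilityMeasure (ν k i) := fun k i => (h k i).prob
  have hmp : MeasurePreserving (Function.eval k) (tenLaw ν) (Measure.pi (ν k)) :=
    measurePreserving_eval (fun k => Measure.pi (ν k)) k
  have hms : MeasurableSet {y : Fin n → ℝ | ¬ ((n : ℝ) / 2 ≤ ∑ i, y i ^ 2)} := by
    have hm1 : Measurable fun y : Fin n → ℝ => ∑ i, y i ^ 2 := by fun_prop
    exact (measurableSet_le (measurable_const : Measurable fun _ : Fin n → ℝ => (n : ℝ) / 2)
      hm1).compl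
  have h1 : {x : Fin d → Fin n → ℝ | ¬ ((n : ℝ) / 2 ≤ ∑ i, x k i ^ 2)} =
      Function.eval k ⁻¹' {y : Fin n → ℝ | ¬ ((n : ℝ) / 2 ≤ ∑ i, y i ^ 2)} := rfl
  rw [h1, hmp.measure_preimage hms.nullMeasurableSet]
  refine le_trans (measure_mono ?_) (norm_tail (ν k) (h k))
  intro y hy hcon
  exact hy hcon.1

theorem gsmall_adm {L : ℝ} {n d : ℕ} (ν : Fin d → Fin n → Measure ℝ)
    (h : ∀ k i, Admissible L (ν k i)) : ∀ k i, Admissible (max L 1) (ν k i) := by
  intro k i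
  have h1 := one_le_L (h k i)
  have h2 := (h k i).L_pos
  have h3 : 1 ≤ L := by nlinarith
  rw [max_eq_left h3]
  exact h k i

/-- Small ball estimate for general laws:
`P(η + ⟨X,PX⟩ < (ε/2)(n/2)^d) ≤ K^(d+1) e^(-cn)`.
Proof: with `λ = min(1/(20000L⁴), ε/(40960 L⁴))`, so `γ = 5120L⁴λ² ≤ ελ/8`, `ct` and Markov give
`P(⟨X,PX⟩ < (ε/2)‖X‖²) ≤ e^{λnε/2} 12^d e^{-λnε+γn} ≤ 12^d e^{-λεn/4}`
(`pe_ctr`, `pe_tau`, `β ≤ 1`); `‖X‖² = ∏‖x_k‖² ≥ (n/2)^d` outside an event of probability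
`≤ 2d e^{-n/(256L⁴)}` (`norm_tail`; the marginal of the factor `k`,
`measurePreserving_eval`).  If `Admissible L` holds for no law (i.e. `L ≤ 0`) or `n = 0`, the
statement is for `n > 0` and follows from the hypotheses; take `c, K` depending on `L, ε`
only. -/
theorem gsmall (L ε : ℝ) (hε : 0 < ε) (hε1 : ε < 1) :
    ∃ c : ℝ, 0 < c ∧ ∃ K : ℝ, 1 ≤ K ∧ ∀ n : ℕ, 0 < n → ∀ (d : ℕ)
      (ν : Fin d → Fin n → Measure ℝ), (∀ k i, Admissible L (ν k i)) →
      ∀ m : ℕ, (m : ℝ) ≤ (1 - ε) * (n : ℝ) ^ d →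
      ∀ (Y : Matrix (Fin m) (Fin d → Fin n) ℝ) (η : ℝ), 0 < η →
      tenLaw ν {x | η + quad (Pe Y η) (ten x) < ε / 2 * ((n : ℝ) / 2) ^ d} ≤
        ENNReal.ofReal (K ^ (d + 1) * Real.exp (-(c * n))) := by
  set M : ℝ := max L 1 with hM
  have hM1 : 1 ≤ M := le_max_right _ _
  have hM0 : 0 < M := by linarith
  have hM4 : 0 < M ^ 4 := by positivity
  have hM2 : 1 ≤ M ^ 2 := by nlinarith
  set lam : ℝ := ε / (40960 * M ^ 4) with hlam
  have hlam0 : 0 < lam := by positivity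
  have hlam1 : lam ≤ 1 / (20000 * M ^ 4) := by
    rw [hlam, div_le_div_iff₀ (by positivity) (by positivity)]
    nlinarith
  have hgam : 5120 * M ^ 4 * lam ^ 2 = lam * ε / 8 := by
    rw [hlam]
    field_simp
    ring
  refine ⟨lam * ε / 4, by positivity, 12, by norm_num, ?_⟩
  intro n hn d ν h m hm Y η hη
  have hn0 : (0 : ℝ) < n := by exact_mod_cast hn
  have hA := gsmall_adm ν h
  have : ∀ k i, IsProbabilityMeasure (ν k i) := fun k i => (h k i).prob
  have : Nonempty (Fin n) := ⟨⟨0, hn⟩⟩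
  set Q := Pe Y η with hQ
  have hctr : Ctr Q := pe_ctr Y η hη
  have hcard : (Fintype.card (Fin d → Fin n) : ℝ) = (n : ℝ) ^ d := by
    simp
  have htau : ε ≤ tau Q := pe_tau Y η hη ε (by rw [hcard]; exact hm)
  obtain ⟨-, ht1, -, hb⟩ := ctr_bounds Q hctr
  have hb1 : beta Q ≤ 1 := hb.trans ht1
  have hct := ct hM2 lam hlam0 hlam1 hn d ν hA Q hctr
  rw [hgam] at hct
  -- the first event
  set f : (Fin d → Fin n → ℝ) → ENNReal := fun x =>
    ENNReal.ofReal (Real.exp (-(lam * n * (quad Q (ten x) / ∑ J, ten x J ^ 2)))) with hf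
  have hfm : Measurable f := gsmall_meas Q (lam * n)
  have hmark := mul_meas_ge_le_lintegral₀ (μ := tenLaw ν) hfm.aemeasurable
    (ENNReal.ofReal (Real.exp (-(lam * n * (ε / 2)))))
  have hA1 : tenLaw ν {x | ENNReal.ofReal (Real.exp (-(lam * n * (ε / 2)))) ≤ f x} ≤
      ENNReal.ofReal (12 ^ d * Real.exp (-(lam * ε / 4 * n))) := by
    have h1 := hmark.trans hct
    have h2 : ENNReal.ofReal (Real.exp (lam * n * (ε / 2))) *
        (ENNReal.ofReal (Real.exp (-(lam * n * (ε / 2)))) *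
          tenLaw ν {x | ENNReal.ofReal (Real.exp (-(lam * n * (ε / 2)))) ≤ f x}) =
        tenLaw ν {x | ENNReal.ofReal (Real.exp (-(lam * n * (ε / 2)))) ≤ f x} := by
      rw [← mul_assoc, ← ENNReal.ofReal_mul (Real.exp_pos _).le, ← Real.exp_add,
        add_neg_cancel, Real.exp_zero, ENNReal.ofReal_one, one_mul]
    rw [← h2]
    refine (mul_le_mul_right h1 _).trans ?_
    rw [← ENNReal.ofReal_mul (Real.exp_pos _).le]
    apply ENNReal.ofReal_le_ofReal
    unfold Psi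
    rw [mul_left_comm, ← Real.exp_add]
    refine mul_le_mul_of_nonneg_left (Real.exp_le_exp.2 ?_) (by positivity)
    have h3 : lam * n * ε ≤ lam * n * tau Q := mul_le_mul_of_nonneg_left htau (by positivity)
    have h4 : lam * ε / 8 * n * beta Q ≤ lam * ε / 8 * n * 1 :=
      mul_le_mul_of_nonneg_left hb1 (by positivity)
    have h5 : 0 < lam * ε * n := by positivity
    nlinarith
  -- the other events
  have hA2 : tenLaw ν (⋃ k : Fin d, {x | ¬ ((n : ℝ) / 2 ≤ ∑ i, x k i ^ 2)}) ≤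
      ENNReal.ofReal (2 * d * Real.exp (-(lam * ε / 4 * n))) := by
    refine (measure_iUnion_fintype_le _ _).trans ?_
    refine (Finset.sum_le_sum fun k _ => gsmall_marg ν hA k).trans ?_
    rw [Finset.sum_const, Finset.card_univ, Fintype.card_fin, nsmul_eq_mul,
      ← ENNReal.ofReal_natCast, ← ENNReal.ofReal_mul (by positivity)]
    apply ENNReal.ofReal_le_ofReal
    have h1 : Real.exp (-(n / (256 * M ^ 4))) ≤ Real.exp (-(lam * ε / 4 * n)) := by
      refine Real.exp_le_exp.2 (neg_le_neg ?_)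
      rw [hlam, le_div_iff₀ (by positivity)]
      have : ε / (40960 * M ^ 4) * ε / 4 * n * (256 * M ^ 4) = ε ^ 2 / 640 * n := by
        field_simp
        ring
      rw [this]
      have h2 : ε ^ 2 ≤ 1 := by nlinarith
      nlinarith
    calc (d : ℝ) * (2 * Real.exp (-(n / (256 * M ^ 4)))) =
        2 * d * Real.exp (-(n / (256 * M ^ 4))) := by ring
      _ ≤ _ := mul_le_mul_of_nonneg_left h1 (by positivity)
  have hsub : {x | η + quad Q (ten x) < ε / 2 * ((n : ℝ) / 2) ^ d} ⊆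
      {x | ENNReal.ofReal (Real.exp (-(lam * n * (ε / 2)))) ≤ f x} ∪
        ⋃ k : Fin d, {x | ¬ ((n : ℝ) / 2 ≤ ∑ i, x k i ^ 2)} := by
    intro x hx
    by_cases hg : ∀ k, (n : ℝ) / 2 ≤ ∑ i, x k i ^ 2
    · left
      have h1 : ((n : ℝ) / 2) ^ d ≤ ∑ J, ten x J ^ 2 := by
        rw [gsmall_norm]
        have h0 : ((n : ℝ) / 2) ^ d = ∏ _k : Fin d, (n : ℝ) / 2 := by
          rw [Finset.prod_const, Finset.card_univ, Fintype.card_fin]
        rw [h0]
        exact Finset.prod_le_prod (fun _ _ => by positivity) fun k _ => hg k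
      have h2 : 0 < ∑ J, ten x J ^ 2 := lt_of_lt_of_le (by positivity) h1
      have h3 : quad Q (ten x) / ∑ J, ten x J ^ 2 ≤ ε / 2 := by
        rw [div_le_iff₀ h2]
        have h4 : η + quad Q (ten x) < ε / 2 * ((n : ℝ) / 2) ^ d := hx
        have h5 : ε / 2 * ((n : ℝ) / 2) ^ d ≤ ε / 2 * ∑ J, ten x J ^ 2 :=
          mul_le_mul_of_nonneg_left h1 (by positivity)
        linarith
      show ENNReal.ofReal (Real.exp (-(lam * n * (ε / 2)))) ≤ f x
      apply ENNReal.ofReal_le_ofReal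
      refine Real.exp_le_exp.2 (neg_le_neg ?_)
      exact mul_le_mul_of_nonneg_left h3 (by positivity)
    · right
      push Not at hg
      obtain ⟨k, hk⟩ := hg
      rw [Set.mem_iUnion]
      exact ⟨k, not_le.2 hk⟩
  refine (measure_mono hsub).trans ((measure_union_le _ _).trans ((add_le_add hA1 hA2).trans ?_))
  rw [← ENNReal.ofReal_add (by positivity) (by positivity), ← add_mul]
  apply ENNReal.ofReal_le_ofReal
  refine mul_le_mul_of_nonneg_right ?_ (Real.exp_pos _).le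
  have h1 : (d : ℝ) ≤ 12 ^ d := by
    have h2 : d < 12 ^ d := Nat.lt_pow_self (by norm_num)
    exact_mod_cast h2.le
  rw [pow_succ]
  linarith

end Pool.Agent.MP_2a72d7_pr.Pos
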