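import Mathlib
import Pool.Agent.MP_2a72d7_pr.Defs
import Pool.Agent.MP_2a72d7_pr.Sm.Base
import Pool.Agent.MP_2a72d7_pr.Pos.Base
import Pool.Agent.MP_2a72d7_pr.Sm.P_mom1

namespace Pool.Agent.MP_2a72d7_pr.Pos

open MeasureTheory Matrix Pool.Agent.MP_2a72d7_pr.Sm

/-- first moments of the coordinates of an admissible vector, as a product -/
theorem mom2_int_factor {L : ℝ} {ν : Measure ℝ} (h : Admissible L ν) (p q : Prop)
    [Decidable p] [Decidable q] :
    Integrable (fun t : ℝ => (if p then t else 1) * (if q then t else 1)) ν := by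
  have hp := h.prob
  have hint : Integrable (fun x : ℝ => x ^ 2) ν := by
    by_contra hcon
    have h1 := h.unit_variance
    rw [integral_undef hcon] at h1
    exact zero_ne_one h1
  have hint1 : Integrable (fun x : ℝ => x) ν := by
    have h2 : MemLp (fun x : ℝ => x) 2 ν := by
      rw [memLp_two_iff_integrable_sq (by fun_prop)]
      exact hint
    exact h2.integrable (by norm_num)
  by_cases hp : p <;> by_cases hq : q
  · simp only [if_pos hp, if_pos hq]
    simpa [pow_two] using hint
  · simp only [if_pos hp, if_neg hq, mul_one]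
    exact hint1
  · simp only [if_neg hp, if_pos hq, one_mul]
    exact hint1
  · simp only [if_neg hp, if_neg hq, one_mul]
    exact integrable_const _

theorem mom2_pair_eq {n : ℕ} (y : Fin n → ℝ) (i j : Fin n) :
    y i * y j = ∏ l, ((if l = i then y l else 1) * (if l = j then y l else 1)) := by
  rw [Finset.prod_mul_distrib]
  simp [Finset.prod_ite_eq']

theorem mom2_pair_integrable {L : ℝ} {n : ℕ} (ν : Fin n → Measure ℝ)
    (h : ∀ i, Admissible L (ν i)) (i j : Fin n) :
    Integrable (fun y : Fin n → ℝ => y i * y j) (Measure.pi ν) := by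
  have hp : ∀ i, IsProbabilityMeasure (ν i) := fun i => (h i).prob
  have h1 : Integrable (fun y : Fin n → ℝ =>
      ∏ l, (fun t : ℝ => (if l = i then t else 1) * (if l = j then t else 1)) (y l))
      (Measure.pi ν) :=
    Integrable.fintype_prod (fun l => mom2_int_factor (h l) _ _)
  refine h1.congr (Filter.Eventually.of_forall fun y => ?_)
  exact (mom2_pair_eq y i j).symm

theorem mom2_pair_integral {L : ℝ} {n : ℕ} (ν : Fin n → Measure ℝ)
    (h : ∀ i, Admissible L (ν i)) (i j : Fin n) :
    ∫ y : Fin n → ℝ, y i * y j ∂(Measure.pi ν) = if i = j then 1 else 0 := by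
  have hp : ∀ i, IsProbabilityMeasure (ν i) := fun i => (h i).prob
  have h1 : ∫ y : Fin n → ℝ, y i * y j ∂(Measure.pi ν) =
      ∫ y : Fin n → ℝ, ∏ l, (fun (l : Fin n) (t : ℝ) =>
        (if l = i then t else 1) * (if l = j then t else 1)) l (y l) ∂(Measure.pi ν) := by
    refine integral_congr_ae (Filter.Eventually.of_forall fun y => ?_)
    exact mom2_pair_eq y i j
  have h2 := integral_fintype_prod_eq_prod (μ := ν) (fun (l : Fin n) (t : ℝ) =>
        (if l = i then t else 1) * (if l = j then t else 1))
  refine h1.trans (h2.trans ?_)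
  by_cases hij : i = j
  · subst hij
    rw [if_pos rfl]
    refine Finset.prod_eq_one fun l _ => ?_
    by_cases hl : l = i
    · subst hl
      simp only [if_true]
      have := (h l).unit_variance
      simpa [pow_two] using this
    · simp only [if_neg hl, mul_one]
      simp
  · rw [if_neg hij]
    refine Finset.prod_eq_zero (Finset.mem_univ i) ?_
    simp only [if_true, if_neg hij, mul_one]
    exact (h i).mean_zero

theorem mom2_ten_integrable {L : ℝ} {n d : ℕ} (ν : Fin d → Fin n → Measure ℝ)
    (h : ∀ k i, Admissible L (ν k i)) (J J' : Fin d → Fin n) :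
    Integrable (fun x => ten x J * ten x J') (tenLaw ν) := by
  have hp : ∀ k i, IsProbabilityMeasure (ν k i) := fun k i => (h k i).prob
  have h1 : Integrable (fun x : Fin d → Fin n → ℝ =>
      ∏ k, (fun y : Fin n → ℝ => y (J k) * y (J' k)) (x k)) (tenLaw ν) :=
    Integrable.fintype_prod (fun k => mom2_pair_integrable (ν k) (h k) (J k) (J' k))
  refine h1.congr (Filter.Eventually.of_forall fun x => ?_)
  simp only [ten, Finset.prod_mul_distrib]

theorem mom2_ten_integral {L : ℝ} {n d : ℕ} (ν : Fin d → Fin n → Measure ℝ)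
    (h : ∀ k i, Admissible L (ν k i)) (J J' : Fin d → Fin n) :
    ∫ x, ten x J * ten x J' ∂(tenLaw ν) = if J = J' then 1 else 0 := by
  have hp : ∀ k i, IsProbabilityMeasure (ν k i) := fun k i => (h k i).prob
  have h1 : ∫ x, ten x J * ten x J' ∂(tenLaw ν) =
      ∫ x : Fin d → Fin n → ℝ, ∏ k, (fun (k : Fin d) (y : Fin n → ℝ) =>
        y (J k) * y (J' k)) k (x k) ∂(Measure.pi fun k => Measure.pi (ν k)) := by
    refine integral_congr_ae (Filter.Eventually.of_forall fun x => ?_)
    simp only [ten, Finset.prod_mul_distrib]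
  have h2 := integral_fintype_prod_eq_prod (μ := fun k => Measure.pi (ν k))
    (fun (k : Fin d) (y : Fin n → ℝ) => y (J k) * y (J' k))
  refine h1.trans (h2.trans ?_)
  by_cases hJ : J = J'
  · subst hJ
    rw [if_pos rfl]
    refine Finset.prod_eq_one fun k _ => ?_
    have := mom2_pair_integral (ν k) (h k) (J k) (J k)
    rw [if_pos rfl] at this
    exact this
  · rw [if_neg hJ]
    obtain ⟨k, hk⟩ := Function.ne_iff.mp hJ
    refine Finset.prod_eq_zero (Finset.mem_univ k) ?_
    have := mom2_pair_integral (ν k) (h k) (J k) (J' k)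
    rw [if_neg hk] at this
    exact this

/-- Second moment: `E ⟨X,b⟩² ≤ ‖b‖²` (induction on `d` or independence and
`E x_k(i) x_k(j) = δ_ij`). -/
theorem mom2 {L : ℝ} {n d : ℕ} (ν : Fin d → Fin n → Measure ℝ)
    (h : ∀ k i, Admissible L (ν k i)) (b : (Fin d → Fin n) → ℝ) :
    ∫⁻ x, ENNReal.ofReal ((∑ J, b J * ten x J) ^ 2) ∂(tenLaw ν) ≤
      ENNReal.ofReal (∑ J, b J ^ 2) := by
  have hexp : ∀ x : Fin d → Fin n → ℝ, (∑ J, b J * ten x J) ^ 2 =
      ∑ J, ∑ J', b J * b J' * (ten x J * ten x J') := by
    intro x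
    rw [pow_two, Finset.sum_mul_sum]
    refine Finset.sum_congr rfl fun J _ => Finset.sum_congr rfl fun J' _ => ?_
    ring
  have hint : Integrable (fun x : Fin d → Fin n → ℝ => (∑ J, b J * ten x J) ^ 2) (tenLaw ν) := by
    simp_rw [hexp]
    refine integrable_finsetSum _ fun J _ => integrable_finsetSum _ fun J' _ => ?_
    exact (mom2_ten_integrable ν h J J').const_mul _
  rw [← ofReal_integral_eq_lintegral_ofReal hint (Filter.Eventually.of_forall fun x => sq_nonneg _)]
  apply ENNReal.ofReal_le_ofReal
  apply le_of_eq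
  simp_rw [hexp]
  rw [integral_finsetSum _ fun J _ => integrable_finsetSum _ fun J' _ =>
    (mom2_ten_integrable ν h J J').const_mul _]
  refine Finset.sum_congr rfl fun J _ => ?_
  rw [integral_finsetSum _ fun J' _ => (mom2_ten_integrable ν h J J').const_mul _]
  simp_rw [integral_const_mul, mom2_ten_integral ν h]
  simp [pow_two]

end Pool.Agent.MP_2a72d7_pr.Pos
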